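import Pool.Agent.H86.IK.Gen

/-!
Growth of the two-Selmer groups in the tower over a base field of arbitrary signature, for the
curve and for the isogenous curve.
-/

set_option autoImplicit false
set_option linter.style.haveILetI false
open scoped Classical

open WithZero WeierstrassCurve IsDedekindDomain NumberField Pool.Agent.H10 H5SW H73IS H68QS H86IK

namespace H5IM

section

variable {k : Type} [Field k] [NumberField k]

lemma not_mem_pow {b : 𝓞 k} (hb0 : b ≠ 0) (v : HeightOneSpectrum (𝓞 k)) :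
    ∃ n : ℕ, b ∉ v.asIdeal ^ n := by
  have h1 := v.intValuation_eq_exp_neg_multiplicity hb0
  by_contra hne
  push Not at hne
  have h2 := (v.intValuation_le_pow_iff_mem b
    (multiplicity v.asIdeal (Ideal.span {b}) + 1)).mpr (hne _)
  rw [h1, exp_le_exp] at h2
  push_cast at h2
  omega

/-- If the local image is not small for `E`, then it is small for the isogenous curve. -/
theorem smallAt_dual (v : HeightOneSpectrum (𝓞 k)) (h2 : (2 : 𝓞 k) ∈ v.asIdeal)
    (h2' : (2 : 𝓞 k) ∉ v.asIdeal ^ 2) {a b : 𝓞 k} (hb0 : b ≠ 0) (h : ¬ SmallAt v a b) :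
    SmallAt v (-2 * a) (a ^ 2 - 4 * b) := by
  have hex : ∃ n : ℕ, ¬ (a ∈ v.asIdeal ^ (2 * n) ∧ b ∈ v.asIdeal ^ (4 * n)) := by
    obtain ⟨n, hn⟩ := not_mem_pow hb0 v
    refine ⟨n, fun h => hn (Ideal.pow_le_pow_right (by omega) h.2)⟩
  set m := Nat.find hex with hm
  have hm1 := Nat.find_spec hex
  have hm0 : m ≠ 0 := by
    intro h0
    rw [← hm, h0] at hm1
    simp at hm1
  obtain ⟨i, hi⟩ := Nat.exists_eq_succ_of_ne_zero hm0
  have hi1 := Nat.find_min hex (m := i) (by omega)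
  push Not at hi1
  obtain ⟨ha, hb⟩ := hi1
  rw [← hm, hi] at hm1
  have hab : a ^ 2 - 4 * b ∈ v.asIdeal ^ (4 * i) := by
    refine Ideal.sub_mem _ ?_ (Ideal.mul_mem_left _ _ hb)
    have h3 := Ideal.mul_mem_mul ha ha
    rw [← pow_add, ← pow_two] at h3
    exact Ideal.pow_le_pow_right (by omega) h3
  have h24 : (16 : 𝓞 k) ∈ v.asIdeal ^ 4 := by
    have h3 := Ideal.pow_mem_pow h2 4
    norm_num at h3
    exact h3
  refine ⟨i, ?_, hab, ?_, ?_⟩
  · have h3 := Ideal.mul_mem_mul h2 ha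
    have h4 : -2 * a = -(2 * a) := by ring
    rw [h4]
    refine Ideal.neg_mem_iff _ |>.mpr ?_
    rw [← pow_succ'] at h3
    exact h3
  · have h3 : (-2 * a) ^ 2 - 4 * (a ^ 2 - 4 * b) = 16 * b := by ring
    rw [h3]
    have h4 := Ideal.mul_mem_mul h24 hb
    rw [← pow_add, add_comm] at h4
    exact h4
  · rintro ⟨h3, h4⟩
    apply h
    refine ⟨i, ?_, hb, h4, ?_⟩
    · have h5 : v.intValuation (2 : 𝓞 k) = exp (-1 : ℤ) := by
        have h6 := (v.intValuation_le_pow_iff_mem (2 : 𝓞 k) 1).mpr (by rwa [pow_one])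
        have h7 : ¬ v.intValuation (2 : 𝓞 k) ≤ exp (-((2 : ℕ) : ℤ)) :=
          fun h8 => h2' ((v.intValuation_le_pow_iff_mem (2 : 𝓞 k) 2).mp h8)
        rw [v.intValuation_eq_exp_neg_multiplicity two_ne_zero] at h6 h7 ⊢
        rw [exp_le_exp] at h6 h7
        rw [exp_inj]
        push_cast at h6 h7
        omega
      have h6 := (v.intValuation_le_pow_iff_mem (-2 * a) (2 * i + 2)).mpr h3
      rw [map_mul, Valuation.map_neg, h5] at h6
      rw [← v.intValuation_le_pow_iff_mem]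
      by_cases ha0 : a = 0
      · rw [ha0, map_zero]
        exact zero_le
      · rw [v.intValuation_eq_exp_neg_multiplicity ha0] at h6 ⊢
        rw [← exp_add, exp_le_exp] at h6
        rw [exp_le_exp]
        push_cast at h6 ⊢
        omega
    · rintro ⟨h5, h6⟩
      exact hm1 ⟨Ideal.pow_le_pow_right (by omega) h5, Ideal.pow_le_pow_right (by omega) h6⟩

/-- Real places. -/
theorem rAt_dual {a b : 𝓞 k} (hb0 : b ≠ 0) (hd0 : a ^ 2 - 4 * b ≠ 0) (φ : k →+* ℝ)
    (h : ¬ RAt (a : k) (b : k) φ) :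
    RAt (((-2 * a : 𝓞 k)) : k) ((a ^ 2 - 4 * b : 𝓞 k) : k) φ := by
  have e1 : φ (((-2 * a : 𝓞 k)) : k) = -2 * φ (a : k) := by
    have c1 : ((-2 * a : 𝓞 k) : k) = -2 * (a : k) := by
      change algebraMap (𝓞 k) k (-2 * a) = -2 * algebraMap (𝓞 k) k a
      rw [map_mul, map_neg, map_ofNat]
    rw [c1, map_mul, map_neg, map_ofNat]
  have e2 : φ ((a ^ 2 - 4 * b : 𝓞 k) : k) = φ (a : k) ^ 2 - 4 * φ (b : k) := by
    have c2 : ((a ^ 2 - 4 * b : 𝓞 k) : k) = (a : k) ^ 2 - 4 * (b : k) := by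
      change algebraMap (𝓞 k) k (a ^ 2 - 4 * b) =
        algebraMap (𝓞 k) k a ^ 2 - 4 * algebraMap (𝓞 k) k b
      rw [map_sub, map_mul, map_pow, map_ofNat]
    rw [c2, map_sub, map_mul, map_pow, map_ofNat]
  have hb : φ (b : k) ≠ 0 := by
    rw [Ne, map_eq_zero]
    exact_mod_cast hb0
  have hd : φ (a : k) ^ 2 - 4 * φ (b : k) ≠ 0 := by
    rw [← e2, Ne, map_eq_zero]
    exact_mod_cast hd0
  unfold RAt at h ⊢
  rw [e1, e2]
  push Not at h
  obtain ⟨h1, h2⟩ := h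
  rcases lt_or_gt_of_ne hb with hb | hb
  · left
    nlinarith
  · right
    have h3 := h2 hb
    have h4 : 0 < φ (a : k) ^ 2 - 4 * φ (b : k) := lt_of_le_of_ne (by linarith) (Ne.symm hd)
    refine ⟨h4, ?_⟩
    have h5 : φ (a : k) ≠ 0 := by
      intro h0
      rw [h0] at h4
      nlinarith
    have h6 : 0 < φ (a : k) := lt_of_le_of_ne h3 (Ne.symm h5)
    linarith

/-- The norms of the primes above two. -/
theorem prod_norm (hk : Unr2 k) (S : Finset (HeightOneSpectrum (𝓞 k)))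
    (hS : ∀ v : HeightOneSpectrum (𝓞 k), v ∈ S ↔ (2 : 𝓞 k) ∈ v.asIdeal) :
    ∏ v ∈ S, Ideal.absNorm v.asIdeal = 2 ^ Module.finrank ℚ k := by
  have h2n : Ideal.absNorm (Ideal.span {(2 : 𝓞 k)}) = 2 ^ Module.finrank ℚ k := by
    rw [Ideal.absNorm_span_singleton]
    have h3 : (2 : 𝓞 k) = algebraMap ℤ (𝓞 k) 2 := by simp
    rw [h3, Algebra.norm_algebraMap, Int.natAbs_pow, RingOfIntegers.rank]
    rfl
  obtain ⟨J, hJ⟩ := prod_dvd_two S (fun v hv => (hS v).mp hv)
  have hJ1 : J = 1 := by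
    by_contra hne
    rw [← Ne, Ideal.one_eq_top] at hne
    obtain ⟨M, hM, hle⟩ := Ideal.exists_le_maximal J hne
    have hM0 : M ≠ ⊥ := by
      rintro rfl
      have hJ0 : J = ⊥ := le_bot_iff.mp hle
      rw [hJ0, Ideal.mul_bot, Ideal.span_singleton_eq_bot] at hJ
      exact two_ne_zero hJ
    let v : HeightOneSpectrum (𝓞 k) := ⟨M, hM.isPrime, hM0⟩
    have hvJ : v.asIdeal ∣ J := Ideal.dvd_iff_le.mpr hle
    have hv2 : (2 : 𝓞 k) ∈ v.asIdeal := by
      rw [← Ideal.dvd_span_singleton, hJ]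
      exact hvJ.mul_left _
    have hvS : v ∈ S := (hS v).mpr hv2
    have hvP : v.asIdeal ∣ ∏ w ∈ S, w.asIdeal := Finset.dvd_prod_of_mem _ hvS
    apply hk v hv2
    rw [← Ideal.dvd_span_singleton, hJ, pow_two]
    exact mul_dvd_mul hvP hvJ
  rw [hJ1, mul_one] at hJ
  rw [← h2n, hJ, map_prod]

end

end H5IM
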