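import Pool.Agent.H5.IM.Lay
import Pool.Agent.H68.IM.Chain

/-!
# MP_78d38b: stability in the cyclotomic towers over a field which contains a CM field
-/

set_option autoImplicit false
set_option linter.style.haveILetI false
open scoped Classical

open NumberField IsDedekindDomain WithZero WeierstrassCurve Pool.Agent.H10 H5SW H73IS H68IM H68QS

namespace H5IM

/-- Let `k₀` be a quadratic extension of `F₀`, with conjugation `s`. If two primes of `k` above two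
lie above conjugate primes of `k₀`, then the local image of `x` on `y^2 = x (x^2 + a x + b)` is
small at exactly one of them. -/
def Opposite (F₀ k₀ : Type) {k : Type} [Field F₀] [Field k₀] [Field k] [NumberField k]
    [Algebra F₀ k₀] [Algebra k₀ k] (a b : 𝓞 k) : Prop :=
  ∀ s : k₀ ≃ₐ[F₀] k₀, s ≠ 1 → ∀ v v' : HeightOneSpectrum (𝓞 k),
    (2 : 𝓞 k) ∈ v.asIdeal → (2 : 𝓞 k) ∈ v'.asIdeal →
    (∀ x y : 𝓞 k₀, (y : k₀) = s x → (algebraMap (𝓞 k₀) (𝓞 k) x ∈ v.asIdeal ↔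
      algebraMap (𝓞 k₀) (𝓞 k) y ∈ v'.asIdeal)) →
    (SmallAt v a b ↔ ¬ SmallAt v' a b)

section

variable {F₀ k₀ k : Type} [Field F₀] [NumberField F₀] [Field k₀] [NumberField k₀] [Field k]
  [NumberField k] [Algebra F₀ k₀] [Algebra.IsQuadraticExtension F₀ k₀] [Algebra k₀ k]

lemma mem_conj {s : k₀ ≃ₐ[F₀] k₀} {v v' : HeightOneSpectrum (𝓞 k₀)}
    (h : ∀ x : k₀, v.valuation k₀ (s x) = v'.valuation k₀ x) (x y : 𝓞 k₀) (hxy : (y : k₀) = s x) :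
    x ∈ v'.asIdeal ↔ y ∈ v.asIdeal := by
  rw [← v'.valuation_lt_one_iff_mem (K := k₀), ← v.valuation_lt_one_iff_mem (K := k₀)]
  change v'.valuation k₀ (x : k₀) < 1 ↔ v.valuation k₀ (y : k₀) < 1
  rw [hxy, h]

omit [NumberField F₀] [Algebra F₀ k₀] [Algebra.IsQuadraticExtension F₀ k₀] [Field F₀] in
lemma two_mem_below (v : HeightOneSpectrum (𝓞 k)) :
    (2 : 𝓞 k₀) ∈ (below k₀ v).asIdeal ↔ (2 : 𝓞 k) ∈ v.asIdeal := by
  rw [mem_below, map_ofNat]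

omit [NumberField F₀] [Algebra F₀ k₀] [Algebra.IsQuadraticExtension F₀ k₀] [Field F₀] in
lemma exists_up (v₀ : HeightOneSpectrum (𝓞 k₀)) :
    ∃ v : HeightOneSpectrum (𝓞 k), below k₀ v = v₀ := by
  obtain ⟨v, hv⟩ := exists_over (L := k₀) (L2 := k) v₀
  refine ⟨v, HeightOneSpectrum.ext ?_⟩
  exact hv.over.symm

/-- the conjugate prime of `k₀`, and a prime of `k` above it -/
lemma exists_opp {s : k₀ ≃ₐ[F₀] k₀} (hss : ∀ x, s (s x) = x) (v : HeightOneSpectrum (𝓞 k))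
    (h2 : (2 : 𝓞 k) ∈ v.asIdeal) : ∃ v' : HeightOneSpectrum (𝓞 k), (2 : 𝓞 k) ∈ v'.asIdeal ∧
      (∀ v₁ : HeightOneSpectrum (𝓞 k), below k₀ v₁ = below k₀ v → ∀ x y : 𝓞 k₀, (y : k₀) = s x →
        (algebraMap (𝓞 k₀) (𝓞 k) x ∈ v₁.asIdeal ↔ algebraMap (𝓞 k₀) (𝓞 k) y ∈ v'.asIdeal)) ∧
      (∀ x : 𝓞 F₀, algebraMap (𝓞 F₀) (𝓞 k₀) x ∈ (below k₀ v').asIdeal ↔
        algebraMap (𝓞 F₀) (𝓞 k₀) x ∈ (below k₀ v).asIdeal) := by
  obtain ⟨v₀, hv₀, hF⟩ := exists_conj s (below k₀ v)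
  obtain ⟨v', hv'⟩ := exists_up (k := k) v₀
  have hmem := mem_conj hv₀
  refine ⟨v', ?_, ?_, ?_⟩
  · rw [← two_mem_below (k₀ := k₀), hv']
    refine (hmem 2 2 ?_).mpr ((two_mem_below v).mpr h2)
    have e2 : ((2 : 𝓞 k₀) : k₀) = 2 := map_ofNat (algebraMap (𝓞 k₀) k₀) 2
    rw [e2, map_ofNat]
  · intro v₁ h₁ x y hxy
    rw [← mem_below (k := k₀) v₁, ← mem_below (k := k₀) v', h₁, hv']
    have hyx : (x : k₀) = s y := by rw [hxy, hss]
    exact (hmem y x hyx).symm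
  · intro x
    rw [hv']
    exact hF x

/-- Stability in the cyclotomic towers over `k`. -/
theorem stable_cm (p : ℕ) [Fact p.Prime] (hp2 : p ≠ 2) (hF₀ : IsTotallyReal F₀)
    (him : IsTotallyComplex k₀) (h2p : TwoPower k) (hk : Unr2 k) {a b : 𝓞 k} (hb0 : b ≠ 0)
    (hd0 : a ^ 2 - 4 * b ≠ 0) (H : Opposite F₀ k₀ a b) : ∃ N : ℕ,
    ∀ (K L L' : Type) [Field K] [NumberField K] [Field L] [NumberField L] [Field L']
      [NumberField L'] [Algebra k K] [Algebra k L] [Algebra K L] [IsScalarTower k K L]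
      (h : L' →+* L), IsR p L' → IntermediateField.adjoin k (Set.range h) = ⊤ →
      (∃ i : ℕ, Module.finrank K L = p ^ i) → p ^ N ∣ Module.finrank ℚ K →
      StableW K L (ecurve K a b) ∧ StableW K L (ecurve K (-2 * a) (a ^ 2 - 4 * b)) := by
  obtain ⟨s, hss, hN, hfix⟩ := exists_invol (L := F₀) (L2 := k₀)
  have hs1 : s ≠ 1 := by
    rintro rfl
    have h1 : Function.Surjective (algebraMap F₀ k₀) := fun x => hfix x rfl
    have h2 : Module.finrank F₀ k₀ = 1 := by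
      have e : F₀ ≃ₗ[F₀] k₀ := LinearEquiv.ofBijective (Algebra.linearMap F₀ k₀)
        ⟨(algebraMap F₀ k₀).injective, h1⟩
      rw [← e.finrank_eq, Module.finrank_self]
    rw [Algebra.IsQuadraticExtension.finrank_eq_two] at h2
    omega
  -- primes of `k` with the same restriction to `k₀`
  have hsame : ∀ v v₁ : HeightOneSpectrum (𝓞 k), (2 : 𝓞 k) ∈ v.asIdeal →
      below k₀ v₁ = below k₀ v → (SmallAt v₁ a b ↔ SmallAt v a b) := by
    intro v v₁ h2 h₁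
    obtain ⟨v', h2', hv', -⟩ := exists_opp hss v h2
    have h2₁ : (2 : 𝓞 k) ∈ v₁.asIdeal := by
      rw [← two_mem_below (k₀ := k₀), h₁, two_mem_below]
      exact h2
    rw [H s hs1 v₁ v' h2₁ h2' (hv' v₁ h₁), H s hs1 v v' h2 h2' (hv' v rfl)]
  let S : Set (HeightOneSpectrum (𝓞 k₀)) := {v₀ | (2 : 𝓞 k₀) ∈ v₀.asIdeal ∧
    ∃ v : HeightOneSpectrum (𝓞 k), below k₀ v = v₀ ∧ SmallAt v a b}
  let S' : Set (HeightOneSpectrum (𝓞 k₀)) := {v₀ | (2 : 𝓞 k₀) ∈ v₀.asIdeal ∧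
    ∃ v : HeightOneSpectrum (𝓞 k), below k₀ v = v₀ ∧ ¬ SmallAt v a b}
  have hits : Hits F₀ S ∧ Hits F₀ S' := by
    have key : ∀ u : HeightOneSpectrum (𝓞 F₀), (2 : 𝓞 F₀) ∈ u.asIdeal →
        (∃ v ∈ S, ∀ x : 𝓞 F₀, algebraMap (𝓞 F₀) (𝓞 k₀) x ∈ v.asIdeal ↔ x ∈ u.asIdeal) ∧
        (∃ v ∈ S', ∀ x : 𝓞 F₀, algebraMap (𝓞 F₀) (𝓞 k₀) x ∈ v.asIdeal ↔ x ∈ u.asIdeal) := by
      intro u hu
      obtain ⟨v₀, hv₀⟩ := exists_over (L := F₀) (L2 := k₀) u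
      have hu₀ : ∀ x : 𝓞 F₀, algebraMap (𝓞 F₀) (𝓞 k₀) x ∈ v₀.asIdeal ↔ x ∈ u.asIdeal := by
        intro x
        rw [hv₀.over]
        rfl
      obtain ⟨v, hv⟩ := exists_up (k := k) v₀
      have h2 : (2 : 𝓞 k) ∈ v.asIdeal := by
        rw [← two_mem_below (k₀ := k₀), hv]
        have := (hu₀ 2).mpr hu
        rwa [map_ofNat] at this
      obtain ⟨v', h2', hv', hF⟩ := exists_opp hss v h2
      have hopp := H s hs1 v v' h2 h2' (hv' v rfl)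
      have m1 : (2 : 𝓞 k₀) ∈ v₀.asIdeal := by rw [← hv, two_mem_below]; exact h2
      have m2 : (2 : 𝓞 k₀) ∈ (below k₀ v').asIdeal := (two_mem_below v').mpr h2'
      have hu' : ∀ x : 𝓞 F₀, algebraMap (𝓞 F₀) (𝓞 k₀) x ∈ (below k₀ v').asIdeal ↔
          x ∈ u.asIdeal := by
        intro x
        rw [hF, hv, hu₀]
      by_cases hsm : SmallAt v a b
      · exact ⟨⟨v₀, ⟨m1, v, hv, hsm⟩, hu₀⟩, ⟨below k₀ v', ⟨m2, v', rfl, hopp.mp hsm⟩, hu'⟩⟩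
      · refine ⟨⟨below k₀ v', ⟨m2, v', rfl, ?_⟩, hu'⟩, ⟨v₀, ⟨m1, v, hv, hsm⟩, hu₀⟩⟩
        by_contra h
        exact hsm (hopp.mpr h)
    exact ⟨fun u hu => (key u hu).1, fun u hu => (key u hu).2⟩
  set nD : ℕ := Ideal.absNorm (Ideal.span {2 * b * (a ^ 2 - 4 * b)}) with hnD
  have hD : (2 * b * (a ^ 2 - 4 * b) : 𝓞 k) ≠ 0 :=
    mul_ne_zero (mul_ne_zero two_ne_zero hb0) hd0
  have hnD0 : (nD : 𝓞 k) ≠ 0 := by
    rw [Ne, Nat.cast_eq_zero, hnD, Ideal.absNorm_eq_zero_iff, Ideal.span_singleton_eq_bot]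
    exact hD
  have hdvd : 2 * b * (a ^ 2 - 4 * b) ∣ ((nD : ℤ) : 𝓞 k) := by
    rw [Int.cast_natCast, ← Ideal.mem_span_singleton]
    exact Ideal.absNorm_mem _
  obtain ⟨N, hNN⟩ := layer_im (p := p) hp2 hF₀ him hits.1 hits.2 (fun v hv => hv.1)
    (fun v hv => hv.1) (algebraMap k₀ k) h2p hk hnD0
  refine ⟨N, ?_⟩
  intro K L L' _ _ _ _ _ _ _ _ _ _ h hR hgen hi hKN
  obtain ⟨gal, odd, RP, RQ, bad, hunr, three⟩ := hNN K L L' h hR hgen hi hKN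
  -- the restriction of a prime in `AboveS`
  have hrestr : ∀ (S₁ : Set (HeightOneSpectrum (𝓞 k₀))) (w : HeightOneSpectrum (𝓞 L)),
      w ∈ AboveS S₁ ((algebraMap k L).comp (algebraMap k₀ k)) → below k₀ (below k w) ∈ S₁ := by
    rintro S₁ w ⟨v₀, hv₀, hw⟩
    have h1 : v₀ = below k₀ (below k w) := by
      apply HeightOneSpectrum.ext
      have hm : v₀.asIdeal.IsMaximal := v₀.isMaximal
      refine hm.eq_of_le (below k₀ (below k w)).isPrime.ne_top ?_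
      intro x hx
      exact hw x hx
    rw [← h1]
    exact hv₀
  have h2w : ∀ w : HeightOneSpectrum (𝓞 L), (2 : 𝓞 k₀) ∈ (below k₀ (below k w)).asIdeal →
      (2 : 𝓞 L) ∈ w.asIdeal ∧ (2 : 𝓞 k) ∈ (below k w).asIdeal := by
    intro w hw
    rw [two_mem_below] at hw
    refine ⟨?_, hw⟩
    rwa [mem_below, map_ofNat] at hw
  refine layer_on (M := (nD : ℤ)) h2p hk hb0 hd0 hdvd
    (T := AboveS S ((algebraMap k L).comp (algebraMap k₀ k)))
    (T' := AboveS S' ((algebraMap k L).comp (algebraMap k₀ k))) ?_ ?_ ?_ ?_ hunr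
    ⟨gal, odd, RP, RQ, ?_, three⟩
  · intro w hw
    exact (h2w w (hrestr S w hw).1).1
  · intro w hw
    exact (h2w w (hrestr S' w hw).1).1
  · intro w hw
    obtain ⟨m, v, hv, hsm⟩ := hrestr S w hw
    exact (hsame (below k w) v (h2w w m).2 hv).mp hsm
  · intro w hw
    obtain ⟨m, v, hv, hsm⟩ := hrestr S' w hw
    exact fun h => hsm ((hsame (below k w) v (h2w w m).2 hv).mpr h)
  · intro v hv
    apply bad v
    rw [map_natCast]
    rwa [Int.cast_natCast] at hv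

end

end H5IM
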