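import Pool.Agent.H5.IM.Dual
import Pool.Agent.H73.IS.KTow

/-!
Growth of the two-Selmer groups in the tower over a base field of arbitrary signature: the two
inequalities in terms of the weight.
-/

set_option autoImplicit false
set_option linter.style.haveILetI false
open scoped Classical

open WithZero WeierstrassCurve IsDedekindDomain NumberField Pool.Agent.H10 H5SW H73IS H68QS H86IK

namespace H5IM

/-- Two to the number of the real embeddings at which zero is the smallest or the only real root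
of `x (x^2 + a x + b)`, times the product of the norms of the primes above two at which the local
image is small. -/
noncomputable def weight (k : Type) [Field k] [NumberField k] (a b : 𝓞 k) : ℕ :=
  2 ^ Nat.card {φ : k →+* ℝ // φ a ^ 2 < 4 * φ b ∨ (0 < φ b ∧ φ a < 0)} *
    ∏ᶠ (v : HeightOneSpectrum (𝓞 k)) (_ : (2 : 𝓞 k) ∈ v.asIdeal ∧ SmallAt v a b),
      Ideal.absNorm v.asIdeal

/-- Bound for the two-Selmer group of `E : y^2 = x (x^2 + a x + b)` over all fields `k L'`. -/
def Bound (p : ℕ) (k : Type) [Field k] [NumberField k] (a b : 𝓞 k) (x y : ℕ) : Prop :=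
  ∃ C : ℕ, ∀ (L' L : Type) [Field L'] [NumberField L'] [Field L] [NumberField L] [Algebra k L]
    (h : L' →+* L), IsR p L' → IntermediateField.adjoin k (Set.range h) = ⊤ →
    ∀ (P : Finset (ecurve L a b).toAffine.Point)
      (T : Finset ((AlgebraicClosure L ≃ₐ[L] AlgebraicClosure L) →
        ((ecurve L a b).baseChange (AlgebraicClosure L)).toAffine.Point)),
      (∀ X : (ecurve L a b).toAffine.Point, ∃ p ∈ P, ∃ S, X = p + (S + S)) →
      (∀ f, IsCocycle L (ecurve L a b) f → IsLocTriv L (ecurve L a b) f →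
        IsCobound L (ecurve L a b) (fun σ => f σ + f σ) →
        ∃ t ∈ T, IsCobound L (ecurve L a b) (fun σ => f σ - t σ)) →
      x ^ Module.finrank k L ≤ y ^ Module.finrank k L * (C * (P.card * T.card))

section

variable {k : Type} [Field k] [NumberField k]

theorem bound_one (p : ℕ) [Fact p.Prime] (hp2 : p ≠ 2) (hk : Unr2 k) {a b : 𝓞 k} (hb0 : b ≠ 0)
    (hd0 : a ^ 2 - 4 * b ≠ 0) (S : Finset (HeightOneSpectrum (𝓞 k)))
    (hS2 : ∀ v ∈ S, (2 : 𝓞 k) ∈ v.asIdeal) (hS : ∀ v ∈ S, SmallAt v a b) :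
    Bound p k a b (2 ^ Nat.card {φ : k →+* ℝ // RAt (a : k) (b : k) φ} *
      ∏ v ∈ S, Ideal.absNorm v.asIdeal) (2 ^ Fintype.card (InfinitePlace k)) := by
  obtain ⟨C, hC⟩ := growth_gen p hp2 k hk hb0 hd0 S hS2 hS
  exact ⟨C, fun L' L _ _ _ _ _ h hR hg P T hP hT => hC L' L h hR hg (ecurve L a b) rfl P T hP hT⟩

/-- If `z ≤ x w` and `x^n ≤ y^n c` then `z^n ≤ (y w)^n c`. -/
theorem Bound.mul {p : ℕ} {a b : 𝓞 k} {x y z w : ℕ} (h : Bound p k a b x y) (hz : z ≤ x * w) :
    Bound p k a b z (y * w) := by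
  obtain ⟨C, hC⟩ := h
  refine ⟨C, fun L' L _ _ _ _ _ h hR hg P T hP hT => ?_⟩
  have h1 := hC L' L h hR hg P T hP hT
  calc z ^ Module.finrank k L ≤ (x * w) ^ Module.finrank k L := Nat.pow_le_pow_left hz _
    _ = x ^ Module.finrank k L * w ^ Module.finrank k L := mul_pow _ _ _
    _ ≤ (y ^ Module.finrank k L * (C * (P.card * T.card))) * w ^ Module.finrank k L :=
        Nat.mul_le_mul_right _ h1
    _ = (y * w) ^ Module.finrank k L * (C * (P.card * T.card)) := by rw [mul_pow]; ring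

/-- Cancellation. -/
theorem Bound.cancel {p : ℕ} {a b : 𝓞 k} {x y c : ℕ} (hc : 0 < c)
    (h : Bound p k a b (x * c) (y * c)) : Bound p k a b x y := by
  obtain ⟨C, hC⟩ := h
  refine ⟨C, fun L' L _ _ _ _ _ h hR hg P T hP hT => ?_⟩
  have h1 := hC L' L h hR hg P T hP hT
  rw [mul_pow, mul_pow] at h1
  have h2 : 0 < c ^ Module.finrank k L := Nat.pow_pos hc
  refine Nat.le_of_mul_le_mul_right ?_ h2
  calc x ^ Module.finrank k L * c ^ Module.finrank k L ≤ _ := h1
    _ = _ := by ring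

lemma finite_two : {v : HeightOneSpectrum (𝓞 k) | (2 : 𝓞 k) ∈ v.asIdeal}.Finite := by
  have h := Ideal.finite_factors (I := Ideal.span {(2 : 𝓞 k)}) (by
    rw [Ne, Ideal.zero_eq_bot, Ideal.span_singleton_eq_bot]
    exact two_ne_zero)
  refine h.subset ?_
  intro v hv
  change v.asIdeal ∣ Ideal.span {(2 : 𝓞 k)}
  rw [Ideal.dvd_span_singleton]
  exact hv

/-- The primes above two -/
noncomputable def above2 (k : Type) [Field k] [NumberField k] :
    Finset (HeightOneSpectrum (𝓞 k)) := (finite_two (k := k)).toFinset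

lemma mem_above2 (v : HeightOneSpectrum (𝓞 k)) : v ∈ above2 k ↔ (2 : 𝓞 k) ∈ v.asIdeal := by
  rw [above2, Set.Finite.mem_toFinset]
  rfl

lemma weight_eq (a b : 𝓞 k) : weight k a b =
    2 ^ Nat.card {φ : k →+* ℝ // RAt (a : k) (b : k) φ} *
      ∏ v ∈ (above2 k).filter (fun v => SmallAt v a b), Ideal.absNorm v.asIdeal := by
  rw [weight]
  congr 1
  refine finprod_cond_eq_prod_of_cond_iff _ ?_
  intro v _
  rw [Finset.mem_filter, mem_above2]

/-- The bound for the curve. -/
theorem bound_curve (p : ℕ) [Fact p.Prime] (hp2 : p ≠ 2) (hk : Unr2 k) {a b : 𝓞 k}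
    (hb0 : b ≠ 0) (hd0 : a ^ 2 - 4 * b ≠ 0) :
    Bound p k a b (weight k a b) (2 ^ Fintype.card (InfinitePlace k)) := by
  rw [weight_eq]
  refine bound_one p hp2 hk hb0 hd0 _ ?_ ?_
  · intro v hv
    exact (mem_above2 v).mp (Finset.mem_filter.mp hv).1
  · intro v hv
    exact (Finset.mem_filter.mp hv).2

/-- The number of the real embeddings. -/
lemma card_signature (P : (k →+* ℝ) → Prop) :
    Nat.card {φ : k →+* ℝ // P φ} + Nat.card {φ : k →+* ℝ // ¬ P φ} + Module.finrank ℚ k =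
      2 * Fintype.card (InfinitePlace k) := by
  have h1 := card_places k P
  have h2 : Nat.card {ψ : k →+* ℂ // ¬ ComplexEmbedding.IsReal ψ} =
      2 * InfinitePlace.nrComplexPlaces k := by
    rw [Nat.card_eq_fintype_card, InfinitePlace.card_complex_embeddings]
  have h3 := InfinitePlace.card_add_two_mul_card_eq_rank k
  have h4 := InfinitePlace.card_eq_nrRealPlaces_add_nrComplexPlaces k
  omega

/-- The bound for the isogenous curve. -/
theorem bound_dual (p : ℕ) [Fact p.Prime] (hp2 : p ≠ 2) (hk : Unr2 k) {a b : 𝓞 k}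
    (hb0 : b ≠ 0) (hd0 : a ^ 2 - 4 * b ≠ 0) :
    Bound p k (-2 * a) (a ^ 2 - 4 * b) (2 ^ Fintype.card (InfinitePlace k)) (weight k a b) := by
  have hb' : a ^ 2 - 4 * b ≠ 0 := hd0
  have hd' : (-2 * a) ^ 2 - 4 * (a ^ 2 - 4 * b) ≠ 0 := by
    have h3 : (-2 * a) ^ 2 - 4 * (a ^ 2 - 4 * b) = 16 * b := by ring
    rw [h3]
    exact mul_ne_zero (by norm_num) hb0
  have h1 := bound_one p hp2 hk hb' hd' ((above2 k).filter (fun v => ¬ SmallAt v a b))
    (fun v hv => (mem_above2 v).mp (Finset.mem_filter.mp hv).1)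
    (fun v hv => smallAt_dual v ((mem_above2 v).mp (Finset.mem_filter.mp hv).1)
      (hk v ((mem_above2 v).mp (Finset.mem_filter.mp hv).1)) hb0 (Finset.mem_filter.mp hv).2)
  set x := 2 ^ Nat.card {φ : k →+* ℝ // RAt (((-2 * a : 𝓞 k)) : k) ((a ^ 2 - 4 * b : 𝓞 k) : k) φ} *
    ∏ v ∈ (above2 k).filter (fun v => ¬ SmallAt v a b), Ideal.absNorm v.asIdeal with hx
  have hm : 0 < 2 ^ Fintype.card (InfinitePlace k) := by positivity
  have hz : 2 ^ Fintype.card (InfinitePlace k) * 2 ^ Fintype.card (InfinitePlace k) ≤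
      x * weight k a b := by
    rw [hx, weight_eq]
    have h2 := prod_norm hk (above2 k) mem_above2
    have h3 := Finset.prod_filter_mul_prod_filter_not (above2 k) (fun v => SmallAt v a b)
      (fun v => Ideal.absNorm v.asIdeal)
    rw [h2] at h3
    have h4 : Nat.card {φ : k →+* ℝ // ¬ RAt (a : k) (b : k) φ} ≤
        Nat.card {φ : k →+* ℝ // RAt (((-2 * a : 𝓞 k)) : k) ((a ^ 2 - 4 * b : 𝓞 k) : k) φ} := by
      refine Nat.card_le_card_of_injective (fun φ => ⟨φ.1, rAt_dual hb0 hd0 φ.1 φ.2⟩) ?_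
      rintro ⟨φ, hφ⟩ ⟨ψ, hψ⟩ h
      have h5 : φ = ψ := congrArg Subtype.val h
      subst h5
      rfl
    have h5 := card_signature (fun φ : k →+* ℝ => RAt (a : k) (b : k) φ)
    calc 2 ^ Fintype.card (InfinitePlace k) * 2 ^ Fintype.card (InfinitePlace k) =
        2 ^ (Nat.card {φ : k →+* ℝ // RAt (a : k) (b : k) φ} +
          Nat.card {φ : k →+* ℝ // ¬ RAt (a : k) (b : k) φ} + Module.finrank ℚ k) := by
          rw [← pow_add, h5, two_mul]
      _ = 2 ^ Nat.card {φ : k →+* ℝ // ¬ RAt (a : k) (b : k) φ} *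
          2 ^ Nat.card {φ : k →+* ℝ // RAt (a : k) (b : k) φ} * 2 ^ Module.finrank ℚ k := by
          rw [pow_add, pow_add]
          ring
      _ ≤ 2 ^ Nat.card {φ : k →+* ℝ //
            RAt (((-2 * a : 𝓞 k)) : k) ((a ^ 2 - 4 * b : 𝓞 k) : k) φ} *
          2 ^ Nat.card {φ : k →+* ℝ // RAt (a : k) (b : k) φ} * 2 ^ Module.finrank ℚ k := by
          refine Nat.mul_le_mul_right _ (Nat.mul_le_mul_right _ ?_)
          exact Nat.pow_le_pow_right (by norm_num) h4
      _ = _ := by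
          rw [← h3]
          ring
  have h6 := h1.mul hz
  refine Bound.cancel hm ?_
  rw [mul_comm (weight k a b)]
  exact h6

end

end H5IM
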