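import Pool.Agent.H73.IS.KTb
import Pool.Agent.H10.StarGal

/-!
# MP_78d38b: the local form with a reducible cubic polynomial

`KapR` is `KapK` (helper73) with the additional information that the cubic polynomial has a root in
`k` modulo the maximal ideal. Then no condition at three is needed.
-/

set_option autoImplicit false
open scoped Classical

open WithZero Pool.Agent.H10 H73IS

namespace H5IM

/-- Up to squares `d` is `1 + 2 y` modulo four, where `y` is modulo the maximal ideal a root of a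
monic cubic polynomial with integral coefficients in `k`, which has also a root in `k`. -/
def KapR (k : Type*) {F : Type*} [Field k] [Field F] [Algebra k F]
    (V : Valuation F (WithZero (Multiplicative ℤ))) (d : F) : Prop :=
  ∃ (t y : F) (c₂ c₁ c₀ : k), t ≠ 0 ∧ V y ≤ 1 ∧ V (algebraMap k F c₂) ≤ 1 ∧
    V (algebraMap k F c₁) ≤ 1 ∧ V (algebraMap k F c₀) ≤ 1 ∧
    V (d * t ^ 2 - (1 + 2 * y)) ≤ exp (-2 : ℤ) ∧
    V (y ^ 3 + algebraMap k F c₂ * y ^ 2 + algebraMap k F c₁ * y + algebraMap k F c₀) < 1 ∧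
    ∃ r : k, V (algebraMap k F r) ≤ 1 ∧
      V (algebraMap k F (r ^ 3 + c₂ * r ^ 2 + c₁ * r + c₀)) < 1

theorem kapR_one {k F : Type*} [Field k] [Field F] [Algebra k F]
    {V : Valuation F (WithZero (Multiplicative ℤ))} {d t : F} (ht : t ≠ 0)
    (h : V (d * t ^ 2 - 1) ≤ exp (-2 : ℤ)) : KapR k V d := by
  refine ⟨t, 0, 0, 0, 0, ht, ?_, ?_, ?_, ?_, ?_, ?_, 0, ?_, ?_⟩
  · rw [map_zero]; exact zero_le
  · rw [map_zero, map_zero]; exact zero_le
  · rw [map_zero, map_zero]; exact zero_le
  · rw [map_zero, map_zero]; exact zero_le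
  · have e : d * t ^ 2 - (1 + 2 * (0 : F)) = d * t ^ 2 - 1 := by ring
    rw [e]; exact h
  · have e : (0 : F) ^ 3 + algebraMap k F 0 * 0 ^ 2 + algebraMap k F 0 * 0 + algebraMap k F 0 =
        0 := by
      rw [map_zero]; ring
    rw [e, map_zero]
    exact one_pos
  · rw [map_zero, map_zero]; exact zero_le
  · have e : (0 : k) ^ 3 + 0 * 0 ^ 2 + 0 * 0 + 0 = 0 := by ring
    rw [e, map_zero, map_zero]
    exact one_pos

theorem kapR_base {k F : Type*} [Field k] [Field F] [Algebra k F]
    {V : Valuation F (WithZero (Multiplicative ℤ))} (h2 : V 2 = exp (-1 : ℤ))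
    (hP : ∀ x : k, V (algebraMap k F x) ≤ 1 → ∃ s : k, V (algebraMap k F (x - s ^ 2)) < 1)
    {d t : F} (ht : t ≠ 0) {m : k} (hm : V (algebraMap k F m) = 1)
    (h : V (d * t ^ 2 - algebraMap k F m) ≤ exp (-2 : ℤ)) : KapR k V d := by
  obtain ⟨s, n, hs0, hs1, hn, hmn⟩ := KTa_unit h2 hP hm
  have hsF : algebraMap k F s ≠ 0 := KTa_ne hs1
  refine ⟨t / algebraMap k F s, algebraMap k F n, -n, 0, 0, div_ne_zero ht hsF, hn, ?_, ?_, ?_,
    ?_, ?_, 0, ?_, ?_⟩
  · rw [map_neg, Valuation.map_neg]; exact hn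
  · rw [map_zero, map_zero]; exact zero_le
  · rw [map_zero, map_zero]; exact zero_le
  · have e : d * (t / algebraMap k F s) ^ 2 - (1 + 2 * algebraMap k F n) =
        (d * t ^ 2 - algebraMap k F m) / (algebraMap k F s) ^ 2 := by
      have e1 : algebraMap k F m = (algebraMap k F s) ^ 2 * (1 + 2 * algebraMap k F n) := by
        rw [hmn, map_mul, map_pow, map_add, map_one, map_mul, map_ofNat]
      rw [e1]
      field_simp
    rw [e, map_div₀, map_pow, hs1, one_pow, div_one]
    exact h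
  · have e : (algebraMap k F n) ^ 3 + algebraMap k F (-n) * (algebraMap k F n) ^ 2 +
        algebraMap k F 0 * algebraMap k F n + algebraMap k F 0 = 0 := by
      rw [map_zero, map_neg]; ring
    rw [e, map_zero]
    exact one_pos
  · rw [map_zero, map_zero]; exact zero_le
  · have e : (0 : k) ^ 3 + -n * 0 ^ 2 + 0 * 0 + 0 = 0 := by ring
    rw [e, map_zero, map_zero]
    exact one_pos

theorem kapR_core {k F : Type*} [Field k] [Field F] [Algebra k F]
    {V : Valuation F (WithZero (Multiplicative ℤ))} (h2 : V 2 = exp (-1 : ℤ))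
    {d u z n : F} {s n1 c C' : k} (hu : u ≠ 0) (hz : V z ≤ 1)
    (hs : V (algebraMap k F s) = 1) (hn1 : V (algebraMap k F n1) ≤ 1)
    (hc : V (algebraMap k F c) ≤ 1) (hC : V (algebraMap k F C') ≤ 1)
    (hd : d * u ^ 2 = (algebraMap k F s) ^ 2 * (1 + 2 * algebraMap k F n1) + 2 * z)
    (hn : d * n ^ 2 = (z + algebraMap k F c) ^ 2 +
      2 * (algebraMap k F C' - algebraMap k F c * z)) {r : k} (hr : V (algebraMap k F r) ≤ 1)
    (hroot : V (algebraMap k F (r ^ 3 + 2 * (c / s ^ 2 - n1) * r ^ 2 +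
      ((c / s ^ 2 - n1) ^ 2 + c / s ^ 2) * r + -(c / s ^ 2 * n1 + C' / s ^ 4))) < 1) :
    KapR k V d := by
  have V1 : V (1 : F) ≤ 1 := by rw [map_one]
  have hsF : algebraMap k F s ≠ 0 := KTa_ne hs
  have hsk : s ≠ 0 := fun h0 => hsF (by rw [h0, map_zero])
  set y : F := algebraMap k F n1 + z / (algebraMap k F s) ^ 2 with hy
  have hzs : V (z / (algebraMap k F s) ^ 2) ≤ 1 := by
    rw [map_div₀, map_pow, hs, one_pow, div_one]; exact hz
  have hy1 : V y ≤ 1 := V_add_le hn1 hzs
  have hcs : V (algebraMap k F (c / s ^ 2)) ≤ 1 := by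
    rw [map_div₀, map_div₀, map_pow, map_pow, hs, one_pow, div_one]; exact hc
  have hcsE : algebraMap k F (c / s ^ 2) = algebraMap k F c / (algebraMap k F s) ^ 2 := by
    rw [map_div₀, map_pow]
  have ht : u / algebraMap k F s ≠ 0 := div_ne_zero hu hsF
  have hdt : d * (u / algebraMap k F s) ^ 2 = 1 + 2 * y := by
    rw [hy]
    field_simp
    linear_combination hd
  have hdt0 : V (d * (u / algebraMap k F s) ^ 2 - (1 + 2 * y)) ≤ exp (-2 : ℤ) := by
    rw [hdt, sub_self, map_zero]; exact zero_le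
  have hzc : V (z + algebraMap k F c) ≤ 1 := V_add_le hz hc
  rcases lt_or_eq_of_le hzc with hlt | heq
  · refine ⟨u / algebraMap k F s, y, -(n1 - c / s ^ 2), 0, 0, ht, hy1, ?_, ?_, ?_, hdt0, ?_, 0,
      ?_, ?_⟩
    · rw [map_neg, Valuation.map_neg, map_sub]; exact V_sub_le hn1 hcs
    · rw [map_zero, map_zero]; exact zero_le
    · rw [map_zero, map_zero]; exact zero_le
    · have e : y ^ 3 + algebraMap k F (-(n1 - c / s ^ 2)) * y ^ 2 + algebraMap k F 0 * y +
          algebraMap k F 0 = y ^ 2 * ((z + algebraMap k F c) / (algebraMap k F s) ^ 2) := by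
        rw [map_zero, map_neg, map_sub, hcsE, hy]
        field_simp
        ring
      rw [e]
      refine V_mul_lt ?_ ?_
      · rw [map_pow]; exact pow_le_one' hy1 2
      · rw [map_div₀, map_pow, hs, one_pow, div_one]; exact hlt
    · rw [map_zero, map_zero]; exact zero_le
    · have e : (0 : k) ^ 3 + -(n1 - c / s ^ 2) * 0 ^ 2 + 0 * 0 + 0 = 0 := by ring
      rw [e, map_zero, map_zero]
      exact one_pos
  have hzc0 : z + algebraMap k F c ≠ 0 := KTa_ne heq
  have hCc : V (algebraMap k F C' - algebraMap k F c * z) ≤ 1 := V_sub_le hC (V_mul_le hc hz)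
  set κ : F := (algebraMap k F C' - algebraMap k F c * z) / (z + algebraMap k F c) ^ 2 with hκ
  have hκ1 : V κ ≤ 1 := by
    rw [hκ, map_div₀, map_pow, heq, one_pow, div_one]
    exact hCc
  have e1 : d * (n / (z + algebraMap k F c)) ^ 2 = 1 + 2 * κ := by
    rw [hκ]
    field_simp
    linear_combination hn
  have hn0 : n ≠ 0 := by
    intro h
    rw [h] at e1
    have h3 : V (1 + 2 * κ) = 1 := Valuation.map_one_add_of_lt V (V_two_mul_lt h2 hκ1)
    rw [← e1] at h3
    simp at h3
  have e2 : 1 + 2 * y = (1 + 2 * κ) *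
      (u / algebraMap k F s * (z + algebraMap k F c) / n) ^ 2 := by
    rw [← hdt, ← e1]
    field_simp
  have h3 := V_sqratio h2 hy1 hκ1 e2
  have h4 : V (y * (z + algebraMap k F c) ^ 2 +
      (algebraMap k F c * z - algebraMap k F C')) < 1 := by
    have e3 : y * (z + algebraMap k F c) ^ 2 + (algebraMap k F c * z - algebraMap k F C') =
        (z + algebraMap k F c) ^ 2 * (y - κ) := by
      rw [hκ]
      field_simp
      ring
    rw [e3, map_mul, map_pow, heq, one_pow, one_mul]
    exact h3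
  have h2F : V (2 : F) ≤ 1 := by rw [h2]; exact exp_neg_lt_one.le
  have hcn : V (algebraMap k F (c / s ^ 2 - n1)) ≤ 1 := by
    rw [map_sub]; exact V_sub_le hcs hn1
  have hs4 : V (algebraMap k F s ^ 4) = 1 := by rw [map_pow, hs, one_pow]
  refine ⟨u / algebraMap k F s, y, 2 * (c / s ^ 2 - n1), (c / s ^ 2 - n1) ^ 2 + c / s ^ 2,
    -(c / s ^ 2 * n1 + C' / s ^ 4), ht, hy1, ?_, ?_, ?_, hdt0, ?_, r, hr, hroot⟩
  · rw [map_mul, map_ofNat]; exact V_mul_le h2F hcn
  · rw [map_add, map_pow]
    refine V_add_le ?_ hcs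
    rw [map_pow]; exact pow_le_one' hcn 2
  · rw [map_neg, Valuation.map_neg, map_add, map_mul]
    refine V_add_le (V_mul_le hcs hn1) ?_
    rw [map_div₀, map_div₀, map_pow, hs4, div_one]
    exact hC
  · have e4 : y ^ 3 + algebraMap k F (2 * (c / s ^ 2 - n1)) * y ^ 2 +
        algebraMap k F ((c / s ^ 2 - n1) ^ 2 + c / s ^ 2) * y +
        algebraMap k F (-(c / s ^ 2 * n1 + C' / s ^ 4)) =
        (y * (z + algebraMap k F c) ^ 2 + (algebraMap k F c * z - algebraMap k F C')) /
          (algebraMap k F s) ^ 4 := by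
      rw [map_mul, map_ofNat, map_add, map_pow, map_neg, map_add, map_mul, map_sub,
        map_div₀ _ C', map_pow _ s 4, hcsE]
      have hz' : z = (algebraMap k F s) ^ 2 * (y - algebraMap k F n1) := by
        rw [hy]; field_simp; ring
      rw [hz']
      field_simp
      ring
    rw [e4, map_div₀, hs4, div_one]
    exact h4

/-- the affine equation -/
theorem kapR_aff {k F : Type*} [Field k] [Field F] [Algebra k F]
    {V : Valuation F (WithZero (Multiplicative ℤ))} (h2 : V 2 = exp (-1 : ℤ))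
    (hP : ∀ x : k, V (algebraMap k F x) ≤ 1 → ∃ s : k, V (algebraMap k F (x - s ^ 2)) < 1)
    {A1 C : k} (hA : V (algebraMap k F A1) = 1) (hC : V (algebraMap k F C) ≤ 1)
    {s n1 c C' r : k} (hs1 : V (algebraMap k F s) = 1) (hn1 : V (algebraMap k F n1) ≤ 1)
    (hc1 : V (algebraMap k F c) ≤ 1) (hCC : V (algebraMap k F C') ≤ 1)
    (hA1 : -A1 = s ^ 2 * (1 + 2 * n1)) (hCc : C = c ^ 2 + 2 * C')
    (hr : V (algebraMap k F r) ≤ 1)
    (hroot : V (algebraMap k F (r ^ 3 + 2 * (c / s ^ 2 - n1) * r ^ 2 +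
      ((c / s ^ 2 - n1) ^ 2 + c / s ^ 2) * r + -(c / s ^ 2 * n1 + C' / s ^ 4))) < 1)
    {d u n : F} (hd : d ≠ 0) (hu : u ≠ 0)
    (H : d * n ^ 2 = (d * u ^ 2) ^ 2 + (2 * algebraMap k F A1) * (d * u ^ 2) +
      (algebraMap k F A1 ^ 2 + 4 * algebraMap k F C)) :
    KapR k V d := by
  have h20 : (2 : F) ≠ 0 := KTa_two h2
  have h2k : (2 : k) ≠ 0 := KTa_twok h20
  have V1 : V (1 : F) ≤ 1 := by rw [map_one]
  have hnot : ¬ (1 : WithZero (Multiplicative ℤ)) ≤ exp (-2) :=
    not_le.mpr (exp_neg_two_lt.trans exp_neg_lt_one)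
  have hV4C : V (4 * algebraMap k F C) ≤ exp (-2 : ℤ) := by
    rw [map_mul, V_four h2]
    exact mul_le_of_le_one_right' hC
  have hVA : V (2 * algebraMap k F A1) = exp (-1 : ℤ) := by
    rw [map_mul, h2, hA, mul_one]
  have hBF : algebraMap k F (A1 ^ 2 + 4 * C) = algebraMap k F A1 ^ 2 + 4 * algebraMap k F C := by
    rw [map_add, map_pow, map_mul, map_ofNat]
  have hVB : V (algebraMap k F (A1 ^ 2 + 4 * C)) = 1 := by
    rw [hBF, Valuation.map_add_eq_of_lt_left, map_pow, hA, one_pow]
    rw [map_pow, hA, one_pow]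
    exact hV4C.trans_lt (exp_neg_two_lt.trans exp_neg_lt_one)
  set X : F := d * u ^ 2 with hX
  have hX0 : X ≠ 0 := mul_ne_zero hd (pow_ne_zero _ hu)
  rcases lt_trichotomy (V X) 1 with hlt | heq | hgt
  · -- small
    have h3 : V (X ^ 2 + 2 * algebraMap k F A1 * X) ≤ exp (-2 : ℤ) := by
      refine V_add_le (V_sq_le hlt) ?_
      rw [map_mul, hVA, exp_neg_two]
      exact mul_le_mul_right (le_exp_neg_one hlt) _
    have e1 : d * n ^ 2 - algebraMap k F (A1 ^ 2 + 4 * C) =
        X ^ 2 + 2 * algebraMap k F A1 * X := by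
      rw [H, hBF]; ring
    have hn : n ≠ 0 := by
      intro h
      rw [h] at e1
      have e3 : -algebraMap k F (A1 ^ 2 + 4 * C) = X ^ 2 + 2 * algebraMap k F A1 * X := by
        rw [← e1]; ring
      rw [← e3, Valuation.map_neg, hVB] at h3
      exact hnot h3
    exact kapR_base h2 hP hn hVB (by rw [e1]; exact h3)
  · -- unit
    have hXA : V (X + algebraMap k F A1) ≤ 1 := V_add_le heq.le hA.le
    rcases lt_or_eq_of_le hXA with hxa | hxa
    · -- case four
      set z : F := (X + algebraMap k F A1) / 2 with hz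
      have hz1 : V z ≤ 1 := by
        rw [hz, map_div₀, h2, div_le_iff₀ exp_pos, one_mul]
        exact le_exp_neg_one hxa
      have hXz : X = 2 * z - algebraMap k F A1 := by
        rw [hz]; field_simp; ring
      have hAF : -algebraMap k F A1 = algebraMap k F s ^ 2 * (1 + 2 * algebraMap k F n1) := by
        have h5 := congrArg (algebraMap k F) hA1
        rwa [map_neg, map_mul, map_pow, map_add, map_one, map_mul, map_ofNat] at h5
      have e1 : d * u ^ 2 = algebraMap k F s ^ 2 * (1 + 2 * algebraMap k F n1) + 2 * z := by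
        rw [← hX, hXz, ← hAF]; ring
      refine kapR_core h2 (n := n / 2) (c := c) (C' := C') hu hz1 hs1 hn1 hc1 hCC e1 ?_ hr hroot
      have e2 : d * (n / 2) ^ 2 = (d * n ^ 2) / 4 := by
        rw [div_pow, ← mul_div_assoc]; norm_num
      have h40 : (4 : F) ≠ 0 := by
        have : (4 : F) = 2 * 2 := by norm_num
        rw [this]; exact mul_ne_zero h20 h20
      have hCF : algebraMap k F C = algebraMap k F c ^ 2 + 2 * algebraMap k F C' := by
        rw [hCc, map_add, map_pow, map_mul, map_ofNat]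
      rw [e2, H, hXz, hCF, div_eq_iff h40]
      ring
    · have hxa0 : X + algebraMap k F A1 ≠ 0 := KTa_ne hxa
      have e1 : d * n ^ 2 = (X + algebraMap k F A1) ^ 2 + 4 * algebraMap k F C := by rw [H]; ring
      have hn : n ≠ 0 := by
        intro h
        rw [h] at e1
        have h3 : V ((X + algebraMap k F A1) ^ 2) ≤ exp (-2 : ℤ) := by
          have e3 : (X + algebraMap k F A1) ^ 2 = -(4 * algebraMap k F C) := by
            linear_combination -e1
          rw [e3, Valuation.map_neg]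
          exact hV4C
        rw [map_pow, hxa, one_pow] at h3
        exact hnot h3
      refine kapR_one (t := n / (X + algebraMap k F A1)) (div_ne_zero hn hxa0) ?_
      have e2 : d * (n / (X + algebraMap k F A1)) ^ 2 - 1 =
          4 * algebraMap k F C / (X + algebraMap k F A1) ^ 2 := by
        field_simp
        linear_combination e1
      rw [e2, map_div₀, map_pow, hxa, one_pow, div_one]
      exact hV4C
  · -- big
    have hinv : V (1 / X) ≤ exp (-1 : ℤ) := by
      have h3 := exp_one_le hgt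
      rw [map_div₀, map_one, div_le_iff₀ (lt_of_lt_of_le exp_pos h3)]
      calc (1 : WithZero (Multiplicative ℤ)) = exp (-1) * exp 1 := by rw [← exp_add]; norm_num
        _ ≤ exp (-1) * V X := mul_le_mul_right h3 _
    have h3 : V (2 * algebraMap k F A1 * (1 / X) +
        algebraMap k F (A1 ^ 2 + 4 * C) * ((1 / X) * (1 / X))) ≤ exp (-2 : ℤ) := by
      apply V_add_le
      · rw [map_mul, hVA, exp_neg_two]
        exact mul_le_mul_right hinv _
      · rw [map_mul, map_mul, hVB, one_mul, exp_neg_two]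
        exact mul_le_mul' hinv hinv
    have e1 : d * (n / X) ^ 2 - 1 = 2 * algebraMap k F A1 * (1 / X) +
        algebraMap k F (A1 ^ 2 + 4 * C) * ((1 / X) * (1 / X)) := by
      rw [hBF]
      field_simp
      linear_combination H
    have hn : n ≠ 0 := by
      intro h
      rw [h] at e1
      have e3 : -(1 : F) = 2 * algebraMap k F A1 * (1 / X) +
          algebraMap k F (A1 ^ 2 + 4 * C) * ((1 / X) * (1 / X)) := by
        rw [← e1]; ring
      rw [← e3, Valuation.map_neg, map_one] at h3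
      exact hnot h3
    refine kapR_one (t := n / X) (div_ne_zero hn hX0) ?_
    rw [e1]
    exact h3

theorem kapR_a {k F : Type*} [Field k] [Field F] [Algebra k F]
    {V : Valuation F (WithZero (Multiplicative ℤ))} (h2 : V 2 = exp (-1 : ℤ))
    (hP : ∀ x : k, V (algebraMap k F x) ≤ 1 → ∃ s : k, V (algebraMap k F (x - s ^ 2)) < 1)
    {A B : k} (hA : V (algebraMap k F A) = exp (-1 : ℤ))
    (hB : V (algebraMap k F (A ^ 2 - 4 * B)) ≤ exp (-4 : ℤ))
    {s n1 c C' r : k} (hs1 : V (algebraMap k F s) = 1) (hn1 : V (algebraMap k F n1) ≤ 1)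
    (hc1 : V (algebraMap k F c) ≤ 1) (hCC : V (algebraMap k F C') ≤ 1)
    (hA1' : -A = 2 * (s ^ 2 * (1 + 2 * n1)))
    (hCc' : 4 * B - A ^ 2 = 16 * (c ^ 2 + 2 * C'))
    (hr : V (algebraMap k F r) ≤ 1)
    (hroot : V (algebraMap k F (r ^ 3 + 2 * (c / s ^ 2 - n1) * r ^ 2 +
      ((c / s ^ 2 - n1) ^ 2 + c / s ^ 2) * r + -(c / s ^ 2 * n1 + C' / s ^ 4))) < 1)
    {d : F} (hd : d ≠ 0) (H : QPt (algebraMap k F A) (algebraMap k F B) d) : KapR k V d := by
  have h20 : (2 : F) ≠ 0 := KTa_two h2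
  have h2k : (2 : k) ≠ 0 := KTa_twok h20
  have h4k : (4 : k) ≠ 0 := by
    have : (4 : k) = 2 * 2 := by norm_num
    rw [this]; exact mul_ne_zero h2k h2k
  obtain ⟨A1, hA1⟩ : ∃ A1 : k, A = 2 * A1 := ⟨A / 2, by field_simp⟩
  have hVA1 : V (algebraMap k F A1) = 1 := by
    rw [hA1, map_mul, map_ofNat, map_mul, h2] at hA
    have h3 : (exp (-1 : ℤ) : WithZero (Multiplicative ℤ)) * V (algebraMap k F A1) =
        exp (-1 : ℤ) * 1 := by rw [hA, mul_one]
    exact mul_left_cancel₀ exp_ne_zero h3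
  obtain ⟨C, hC⟩ : ∃ C : k, B = A1 ^ 2 + 4 * C := ⟨(B - A1 ^ 2) / 4, by field_simp; ring⟩
  have hVC : V (algebraMap k F C) ≤ 1 := by
    have e : A ^ 2 - 4 * B = -(4 * 4 * C) := by rw [hA1, hC]; ring
    rw [e, map_neg, Valuation.map_neg, map_mul, map_mul, map_mul, map_ofNat, map_mul, V_four h2]
      at hB
    have h3 : (exp (-4 : ℤ) : WithZero (Multiplicative ℤ)) = exp (-2 : ℤ) * exp (-2 : ℤ) := by
      rw [← exp_add]; norm_num
    rw [h3] at hB
    have h4 : (0 : WithZero (Multiplicative ℤ)) < exp (-2 : ℤ) * exp (-2 : ℤ) := by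
      rw [← h3]; exact exp_pos
    by_contra h5
    rw [not_le] at h5
    have h6 := mul_lt_mul_of_pos_left h5 h4
    rw [mul_one] at h6
    exact absurd hB (not_le.mpr h6)
  have hVB : V (algebraMap k F B) = 1 := by
    have hV4C : V (4 * algebraMap k F C) ≤ exp (-2 : ℤ) := by
      rw [map_mul, V_four h2]
      exact mul_le_of_le_one_right' hVC
    rw [hC, map_add, map_pow, map_mul, map_ofNat, Valuation.map_add_eq_of_lt_left, map_pow,
      hVA1, one_pow]
    rw [map_pow, hVA1, one_pow]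
    exact hV4C.trans_lt (exp_neg_two_lt.trans exp_neg_lt_one)
  obtain ⟨M, e, N, hMe, hE⟩ := H
  by_cases he : e = 0
  · subst he
    have hM : M ≠ 0 := by
      rcases hMe with h | h
      · exact h
      · exact absurd rfl h
    have e1 : N ^ 2 = d * M ^ 4 := by
      apply mul_left_cancel₀ hd
      linear_combination hE
    have hN : N ≠ 0 := by
      intro h
      rw [h] at e1
      have : d * M ^ 4 = 0 := by rw [← e1]; ring
      exact (mul_ne_zero hd (pow_ne_zero _ hM)) this
    refine kapR_one (t := M ^ 2 / N) (div_ne_zero (pow_ne_zero _ hM) hN) ?_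
    have e2 : d * (M ^ 2 / N) ^ 2 - 1 = 0 := by
      field_simp
      linear_combination -e1
    rw [e2, map_zero]
    exact zero_le
  by_cases hM : M = 0
  · subst hM
    have e1 : d * (N / e ^ 2) ^ 2 = algebraMap k F B := by
      field_simp
      linear_combination hE
    have hN : N ≠ 0 := by
      intro h
      rw [h] at e1
      have h3 := hVB
      rw [← e1] at h3
      simp at h3
    refine kapR_base h2 hP (t := N / e ^ 2) (div_ne_zero hN (pow_ne_zero _ he)) hVB ?_
    rw [e1, sub_self, map_zero]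
    exact zero_le
  have g1 : -A1 = s ^ 2 * (1 + 2 * n1) := by
    apply mul_left_cancel₀ h2k
    rw [← hA1', hA1]
    ring
  have g2 : C = c ^ 2 + 2 * C' := by
    have h16 : (16 : k) ≠ 0 := by
      have : (16 : k) = 4 * 4 := by norm_num
      rw [this]; exact mul_ne_zero h4k h4k
    apply mul_left_cancel₀ h16
    rw [← hCc', hC, hA1]
    ring
  refine kapR_aff h2 hP (A1 := A1) (C := C) hVA1 hVC hs1 hn1 hc1 hCC g1 g2 hr hroot
    (u := M / e) (n := N / e ^ 2) hd (div_ne_zero hM he) ?_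
  have hAF : algebraMap k F A = 2 * algebraMap k F A1 := by rw [hA1, map_mul, map_ofNat]
  have hBF : algebraMap k F B = algebraMap k F A1 ^ 2 + 4 * algebraMap k F C := by
    rw [hC, map_add, map_pow, map_mul, map_ofNat]
  rw [hAF, hBF] at hE
  field_simp
  linear_combination hE


end H5IM
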