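import Pool.Agent.H5.IM.KR
import Pool.Agent.H73.IS.KCj

/-!
# MP_78d38b: conjugates and completions for `KapR`
-/

set_option autoImplicit false
open scoped Classical

open WithZero Pool.Agent.H10 H73IS NumberField IsDedekindDomain

namespace H5IM

theorem kapR_conj {k K L : Type} [Field k] [Field K] [Field L] [Algebra k K] [Algebra K L]
    [Algebra k L] [IsScalarTower k K L] {V : Valuation L (WithZero (Multiplicative ℤ))}
    (h2 : V 2 = exp (-1 : ℤ)) {σ : L ≃ₐ[K] L} (hσ : ∀ x, V (σ x) = V x)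
    (hodd : Odd (orderOf σ)) {d : L} (h : KapR k V d) : SqModFour V (d * σ d) := by
  obtain ⟨t, y, c₂, c₁, c₀, ht, hy, g₂, g₁, g₀, hd, hroot, r, hr, hrr⟩ := h
  have hfix : ∀ c : k, σ (algebraMap k L c) = algebraMap k L c := by
    intro c
    rw [IsScalarTower.algebraMap_apply k K L, AlgEquiv.commutes]
  have hσy' : V (σ y) ≤ 1 := by rw [hσ]; exact hy
  have hclose : V (σ y - y) < 1 := by
    have hle : V (y - algebraMap k L r) ≤ 1 := V_sub_le hy hr
    rcases lt_or_eq_of_le hle with hlt | heq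
    · have e1 : σ y - y = σ (y - algebraMap k L r) - (y - algebraMap k L r) := by
        rw [map_sub, hfix]
        ring
      rw [e1]
      exact V_sub_lt (by rw [hσ]; exact hlt) hlt
    · set R := algebraMap k L r with hR
      set C₂ := algebraMap k L c₂ with hC2
      set C₁ := algebraMap k L c₁ with hC1
      set C₀ := algebraMap k L c₀ with hC0
      have hQ : V (y ^ 2 + R * y + R ^ 2 + C₂ * (y + R) + C₁) < 1 := by
        have e1 : (y - R) * (y ^ 2 + R * y + R ^ 2 + C₂ * (y + R) + C₁) =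
            (y ^ 3 + C₂ * y ^ 2 + C₁ * y + C₀) - (R ^ 3 + C₂ * R ^ 2 + C₁ * R + C₀) := by
          ring
        have e2 : R ^ 3 + C₂ * R ^ 2 + C₁ * R + C₀ =
            algebraMap k L (r ^ 3 + c₂ * r ^ 2 + c₁ * r + c₀) := by
          simp only [map_add, map_mul, map_pow, hR, hC2, hC1, hC0]
        have h1 : V ((y - R) * (y ^ 2 + R * y + R ^ 2 + C₂ * (y + R) + C₁)) < 1 := by
          rw [e1, e2]
          exact V_sub_lt hroot hrr
        rwa [map_mul, heq, one_mul] at h1
      by_contra hcon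
      have hcon' : V (σ y - y) = 1 := le_antisymm (V_sub_le hσy' hy) (not_lt.mp hcon)
      have h3 : V (σ y + y + R + C₂) < 1 := by
        have e1 : (σ y - y) * (σ y + y + R + C₂) =
            σ (y ^ 2 + R * y + R ^ 2 + C₂ * (y + R) + C₁) -
              (y ^ 2 + R * y + R ^ 2 + C₂ * (y + R) + C₁) := by
          simp only [map_add, map_mul, map_pow, hR, hC2, hC1, hfix]
          ring
        have h1 : V ((σ y - y) * (σ y + y + R + C₂)) < 1 := by
          rw [e1]
          exact V_sub_lt (by rw [hσ]; exact hQ) hQ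
        rwa [map_mul, hcon', one_mul] at h1
      apply hcon
      apply near_of_pow hσ (r := 2)
      · exact hodd.coprime_two_left
      · have e1 : (σ ^ 2) y - y = σ (σ y + y + R + C₂) - (σ y + y + R + C₂) := by
          rw [pow_two, AlgEquiv.mul_apply]
          simp only [map_add, hR, hC2, hfix]
          ring
        rw [e1]
        exact V_sub_lt (by rw [hσ]; exact h3) h3
  have hσy : V (σ y) ≤ 1 := by rw [hσ]; exact hy
  have h1 : V (1 : L) ≤ 1 := by rw [map_one]
  have hσt : σ t ≠ 0 := by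
    intro h0
    apply ht
    rw [← σ.symm_apply_apply t, h0, map_zero]
  set δ := d * t ^ 2 - (1 + 2 * y) with hδ
  have hP : V (1 + 2 * y) ≤ 1 := V_add_le h1 ((V_two_mul_lt h2 hy).le)
  have hδ1 : V δ ≤ 1 := hd.trans (exp_neg_two_lt.trans exp_neg_lt_one).le
  have hA : V (d * t ^ 2) ≤ 1 := by
    have : d * t ^ 2 = δ + (1 + 2 * y) := by rw [hδ]; ring
    rw [this]; exact V_add_le hδ1 hP
  refine ⟨t * σ t, 1, mul_ne_zero ht hσt, map_one V, ?_⟩
  rw [V_four h2]
  have e1 : d * σ d * (t * σ t) ^ 2 - 1 ^ 2 = (2 * (σ y - y) + 4 * (y + y * σ y)) +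
      (δ * σ (d * t ^ 2) + (1 + 2 * y) * σ δ) := by
    have : σ δ = σ (d * t ^ 2) - (1 + 2 * σ y) := by
      rw [hδ, map_sub, map_add, map_mul σ 2 y, map_one, map_ofNat]
    rw [this, hδ, map_mul, map_pow]
    ring
  rw [e1]
  have h4 : V (4 * (y + y * σ y)) ≤ exp (-2 : ℤ) := by
    rw [map_mul, V_four h2]
    exact mul_le_of_le_one_right' (V_add_le hy (V_mul_le hy hσy))
  refine V_add_le (V_add_le (V_two_mul h2 hclose) h4) (V_add_le ?_ ?_)
  · rw [map_mul, hσ]
    exact (mul_le_mul' hd hA).trans (by rw [mul_one])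
  · rw [map_mul, hσ]
    exact (mul_le_mul' hP hd).trans (by rw [one_mul])


theorem kapR_descend {k L : Type} [Field k] [NumberField k] [Field L] [NumberField L]
    [Algebra k L] (w : HeightOneSpectrum (𝓞 L)) [Algebra k (w.adicCompletion L)]
    [IsScalarTower k L (w.adicCompletion L)]
    (h2 : w.valuation L 2 = exp (-1 : ℤ)) {x : L}
    (h : KapR k Valued.v (algebraMap L (w.adicCompletion L) x)) :
    KapR k (w.valuation L) x := by
  obtain ⟨t, y, c₂, c₁, c₀, ht, hy, hc2, hc1, hc0, hd, hroot, r, hr, hrr⟩ := h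
  have e2 : Valued.v (2 : w.adicCompletion L) = exp (-1 : ℤ) := by
    rw [valued_ofNat w 2]; exact h2
  have hkL : ∀ c : k, algebraMap k (w.adicCompletion L) c =
      algebraMap L (w.adicCompletion L) (algebraMap k L c) := fun c =>
    IsScalarTower.algebraMap_apply k L (w.adicCompletion L) c
  rw [hkL] at hc2 hc1 hc0 hr hrr
  rw [hkL, hkL, hkL] at hroot
  set X := algebraMap L (w.adicCompletion L) x with hX
  set C₂ := algebraMap L (w.adicCompletion L) (algebraMap k L c₂) with hC2
  set C₁ := algebraMap L (w.adicCompletion L) (algebraMap k L c₁) with hC1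
  set C₀ := algebraMap L (w.adicCompletion L) (algebraMap k L c₀) with hC0
  have h1 : Valued.v (1 : w.adicCompletion L) ≤ 1 := by rw [map_one]
  have hXt : Valued.v (X * t ^ 2) ≤ 1 := by
    have h5 : X * t ^ 2 = (X * t ^ 2 - (1 + 2 * y)) + (1 + 2 * y) := by ring
    rw [h5]
    exact V_add_le (hd.trans (exp_neg_two_lt.trans exp_neg_lt_one).le)
      (V_add_le h1 (V_two_mul_lt e2 hy).le)
  have hvt : Valued.v t ≠ 0 := (Valuation.ne_zero_iff _).mpr ht
  obtain ⟨t', ht'⟩ := exists_close w t (-2 + log (Valued.v t))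
  rw [exp_add, exp_log hvt] at ht'
  obtain ⟨y', hy'⟩ := exists_close w y 0
  rw [exp_zero] at hy'
  set T := algebraMap L (w.adicCompletion L) t' with hT
  set Y := algebraMap L (w.adicCompletion L) y' with hY
  have hlt : Valued.v (T - t) < Valued.v t := by
    refine ht'.trans_le ?_
    exact mul_le_of_le_one_left' (exp_neg_two_lt.trans exp_neg_lt_one).le
  have hVT : Valued.v T = Valued.v t := by
    have : T = (T - t) + t := by ring
    rw [this, Valuation.map_add_eq_of_lt_right _ hlt]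
  have hVY : Valued.v Y ≤ 1 := by
    have : Y = (Y - y) + y := by ring
    rw [this]
    exact V_add_le hy'.le hy
  refine ⟨t', y', c₂, c₁, c₀, ?_, ?_, ?_, ?_, ?_, ?_, ?_, r, ?_, ?_⟩
  · rintro rfl
    rw [hT, map_zero, map_zero] at hVT
    exact hvt hVT.symm
  · rw [← valued_algebraMap]; exact hVY
  · rw [← valued_algebraMap]; exact hc2
  · rw [← valued_algebraMap]; exact hc1
  · rw [← valued_algebraMap]; exact hc0
  · rw [← valued_algebraMap, map_sub, map_mul, map_pow, map_add, map_one, map_mul, map_ofNat]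
    rw [← hX, ← hT, ← hY]
    have e1 : X * T ^ 2 - (1 + 2 * Y) = X * ((T - t) * (T + t)) +
        ((X * t ^ 2 - (1 + 2 * y)) - 2 * (Y - y)) := by ring
    rw [e1]
    refine V_add_le ?_ (V_sub_le hd (V_two_mul e2 hy'))
    rw [map_mul, map_mul]
    have h6 : Valued.v (T + t) ≤ Valued.v t :=
      (Valuation.map_add _ _ _).trans (max_le hVT.le le_rfl)
    calc Valued.v X * (Valued.v (T - t) * Valued.v (T + t))
        ≤ Valued.v X * ((exp (-2) * Valued.v t) * Valued.v t) :=
          mul_le_mul_right (mul_le_mul' ht'.le h6) _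
      _ = exp (-2) * (Valued.v X * Valued.v t ^ 2) := by
          rw [pow_two]; ac_rfl
      _ ≤ exp (-2) * 1 := by
          refine mul_le_mul_right ?_ _
          rw [← map_pow, ← map_mul]; exact hXt
      _ = exp (-2) := mul_one _
  · have e3 : algebraMap L (w.adicCompletion L) (y' ^ 3 + algebraMap k L c₂ * y' ^ 2 +
        algebraMap k L c₁ * y' + algebraMap k L c₀) = Y ^ 3 + C₂ * Y ^ 2 + C₁ * Y + C₀ := by
      rw [map_add, map_add, map_add, map_mul, map_mul, map_pow, map_pow]
    rw [← valued_algebraMap, e3]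
    have : Y ^ 3 + C₂ * Y ^ 2 + C₁ * Y + C₀ = (y ^ 3 + C₂ * y ^ 2 + C₁ * y + C₀) +
        ((Y ^ 3 - y ^ 3) + (C₂ * (Y ^ 2 - y ^ 2) + C₁ * (Y - y))) := by
      ring
    rw [this]
    exact V_add_lt hroot (V_add_lt (pow_close hVY hy hy' 3)
      (V_add_lt (V_mul_lt hc2 (pow_close hVY hy hy' 2)) (V_mul_lt hc1 hy')))
  · rw [← valued_algebraMap]; exact hr
  · rw [← valued_algebraMap]; exact hrr

end H5IM
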