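import Pool.Agent.H5.IM.Loc
import Pool.Agent.H73.IS.KTow
import Pool.Agent.H68.QS.Lay

/-!
# MP_78d38b: one layer over a non-real field
-/

set_option autoImplicit false
set_option linter.style.haveILetI false
open scoped Classical

open NumberField IsDedekindDomain WithZero WeierstrassCurve Pool.Agent.H10 H73IS H68IM H68QS

namespace H5IM

/-- The residue fields above two of a field of two-power type. -/
theorem res_twoPower {k : Type} [Field k] [NumberField k] (hk : TwoPower k)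
    (u : HeightOneSpectrum (𝓞 k)) (h2 : (2 : 𝓞 k) ∈ u.asIdeal) :
    ∃ s : ℕ, Nat.card (𝓞 k ⧸ u.asIdeal) = 2 ^ 2 ^ s := by
  obtain ⟨F, _, _, hG, ⟨m, hm⟩, ⟨φ⟩⟩ := hk
  letI : Algebra k F := φ.toAlgebra
  haveI hFact : Fact (Nat.Prime 2) := ⟨Nat.prime_two⟩
  have hpm : (Ideal.span {(2 : ℤ)}).IsMaximal := by
    have := Int.ideal_span_isMaximal_of_prime 2
    exact_mod_cast this
  have hum : u.asIdeal.IsMaximal := u.isMaximal
  have hu : u.asIdeal.LiesOver (Ideal.span {(2 : ℤ)}) := by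
    constructor
    refine hpm.eq_of_le (Ideal.comap_ne_top _ hum.ne_top) ?_
    rw [Ideal.span_singleton_le_iff_mem, Ideal.under_def, Ideal.mem_comap]
    have h3 : algebraMap ℤ (𝓞 k) 2 = 2 := by simp
    rw [h3]
    exact h2
  obtain ⟨P, hP1, hP2⟩ := Ideal.exists_maximal_ideal_liesOver_of_isIntegral u.asIdeal (S := 𝓞 F)
  have hP3 : P.LiesOver (Ideal.span {(2 : ℤ)}) := Ideal.LiesOver.trans P u.asIdeal _
  have h4 := Ideal.inertiaDeg_below_dvd (R := ℤ) u.asIdeal P
  have h5 := Ideal.inertiaDegIn_eq_inertiaDeg (Ideal.span {(2 : ℤ)}) P (F ≃ₐ[ℚ] F)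
  have h6 := Ideal.ncard_primesOver_mul_ramificationIdxIn_mul_inertiaDegIn
    (Ideal.span {(2 : ℤ)}) (𝓞 F) (F ≃ₐ[ℚ] F)
  rw [IsGalois.card_aut_eq_finrank, hm] at h6
  have h7 : u.asIdeal.inertiaDeg ℤ ∣ 2 ^ m := by
    rw [← h6, h5]
    exact (h4.trans (Dvd.intro_left _ rfl)).trans (Dvd.intro_left _ rfl)
  obtain ⟨s, -, hs⟩ := (Nat.dvd_prime_pow Nat.prime_two).1 h7
  refine ⟨s, ?_⟩
  have h8 := Ideal.absNorm_pow_inertiaDeg (Ideal.span {(2 : ℤ)}) u.asIdeal
  rw [hs, Ideal.absNorm_span_singleton] at h8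
  have h9 : (Algebra.norm ℤ (2 : ℤ)).natAbs = 2 := by
    rw [Algebra.norm_self]
    rfl
  rw [h9] at h8
  rw [h8, Ideal.absNorm_apply, Submodule.cardQuot_apply]

section

variable {k K L : Type} [Field k] [NumberField k] [Field K] [NumberField K] [Field L]
  [NumberField L] [Algebra k K] [Algebra K L] [Algebra k L] [IsScalarTower k K L]

/-- Both curves have no new soluble classes. -/
theorem two_on [IsGalois K L] (hodd : Odd (Module.finrank K L))
    {T T' : Set (HeightOneSpectrum (𝓞 L))} (h2T : ∀ w ∈ T, (2 : 𝓞 L) ∈ w.asIdeal)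
    (h2T' : ∀ w ∈ T', (2 : 𝓞 L) ∈ w.asIdeal) (R : NoNewOn K L T) (R' : NoNewOn K L T')
    {a b : 𝓞 k} (hb0 : b ≠ 0) (hS : ∀ w ∈ T, SmallAt (below k w) a b)
    (hS' : ∀ w ∈ T', ¬ SmallAt (below k w) a b) (hunrk : Unr2 k)
    (hbad : ∀ v : HeightOneSpectrum (𝓞 K),
      algebraMap (𝓞 k) (𝓞 K) (2 * b * (a ^ 2 - 4 * b)) ∈ v.asIdeal → UniqueOver K L v.asIdeal)
    (hunr : Unr2 L) (h3 : ¬ 3 ∣ Module.finrank K L ∨ CubIn k K L) :
    NewTrivQ K L (algebraMap k L a) (algebraMap k L b) ∧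
      NewTrivQ K L (-2 * algebraMap k L a) (algebraMap k L a ^ 2 - 4 * algebraMap k L b) := by
  constructor
  · refine nq_on hodd h2T R hS (fun v hv => hbad v ?_) hunr h3
    have e : (2 : 𝓞 k) * b * (a ^ 2 - 4 * b) = (a ^ 2 - 4 * b) * (2 * b) := by ring
    rw [e, map_mul]
    exact Ideal.mul_mem_left _ _ hv
  · have h := nq_on (k := k) (K := K) (L := L) hodd h2T' R' (a := -2 * a) (b := a ^ 2 - 4 * b)
      (fun w hw => by
        have h2k : (2 : 𝓞 k) ∈ (below k w).asIdeal := by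
          rw [mem_below, map_ofNat]
          exact h2T' w hw
        exact small_dual (below k w) h2k (hunrk _ h2k) hb0 (hS' w hw))
      (fun v hv => hbad v (by
        have e : (2 : 𝓞 k) * b * (a ^ 2 - 4 * b) = b * (2 * (a ^ 2 - 4 * b)) := by ring
        rw [e, map_mul]
        exact Ideal.mul_mem_left _ _ hv)) hunr h3
    have e1 : algebraMap k L ((-2 * a : 𝓞 k) : k) = -2 * algebraMap k L a := by
      change algebraMap k L (algebraMap (𝓞 k) k (-2 * a)) = -2 * algebraMap k L (algebraMap (𝓞 k) k a)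
      rw [map_mul, map_mul, map_neg, map_neg, map_ofNat, map_ofNat]
    have e2 : algebraMap k L ((a ^ 2 - 4 * b : 𝓞 k) : k) =
        algebraMap k L a ^ 2 - 4 * algebraMap k L b := by
      change algebraMap k L (algebraMap (𝓞 k) k (a ^ 2 - 4 * b)) =
        algebraMap k L (algebraMap (𝓞 k) k a) ^ 2 - 4 * algebraMap k L (algebraMap (𝓞 k) k b)
      rw [map_sub, map_sub, map_pow, map_pow, map_mul, map_mul, map_ofNat, map_ofNat]
    rw [e1, e2] at h
    exact h

/-- From `NewTrivQ` for both curves to stability of both curves. -/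
theorem stable_two [IsGalois K L] (hodd : Odd (Module.finrank K L)) {a b : 𝓞 k} (hb0 : b ≠ 0)
    (hd0 : a ^ 2 - 4 * b ≠ 0)
    (H : NewTrivQ K L (algebraMap k L a) (algebraMap k L b))
    (H' : NewTrivQ K L (-2 * algebraMap k L a) (algebraMap k L a ^ 2 - 4 * algebraMap k L b)) :
    StableW K L (ecurve K a b) ∧ StableW K L (ecurve K (-2 * a) (a ^ 2 - 4 * b)) := by
  have ea : algebraMap k K ((-2 * a : 𝓞 k) : k) = -2 * algebraMap k K a := by
    have e : ((-2 * a : 𝓞 k) : k) = -2 * (a : k) := by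
      change algebraMap (𝓞 k) k (-2 * a) = -2 * algebraMap (𝓞 k) k a
      rw [map_mul, map_neg, map_ofNat]
    rw [e, map_mul, map_neg, map_ofNat]
  have eb : algebraMap k K ((a ^ 2 - 4 * b : 𝓞 k) : k) =
      algebraMap k K a ^ 2 - 4 * algebraMap k K b := by
    have e : ((a ^ 2 - 4 * b : 𝓞 k) : k) = (a : k) ^ 2 - 4 * (b : k) := by
      change algebraMap (𝓞 k) k (a ^ 2 - 4 * b) = algebraMap (𝓞 k) k a ^ 2 - 4 * algebraMap (𝓞 k) k b
      rw [map_sub, map_pow, map_mul, map_ofNat]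
    rw [e, map_sub, map_pow, map_mul, map_ofNat]
  have inj : Function.Injective (fun x : 𝓞 k => algebraMap k K x) :=
    (algebraMap k K).injective.comp (RingOfIntegers.coe_injective)
  have hbK : algebraMap k K b ≠ 0 := by
    intro h
    exact hb0 (inj (by simpa using h))
  have hdK : algebraMap k K a ^ 2 - 4 * algebraMap k K b ≠ 0 := by
    intro h
    apply hd0
    apply inj
    change algebraMap k K ((a ^ 2 - 4 * b : 𝓞 k) : k) = algebraMap k K ((0 : 𝓞 k) : k)
    rw [eb, h]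
    simp
  have tw : ∀ x : k, algebraMap K L (algebraMap k K x) = algebraMap k L x := fun x =>
    (IsScalarTower.algebraMap_apply k K L x).symm
  have hT : IsTw (ecurve K a b) (algebraMap k K a) (algebraMap k K b) :=
    ⟨rfl, rfl, rfl, rfl, rfl, hbK, hdK, two_ne_zero⟩
  have hT' : IsTw (ecurve K (-2 * a) (a ^ 2 - 4 * b)) (-2 * algebraMap k K a)
      (algebraMap k K a ^ 2 - 4 * algebraMap k K b) := by
    refine ⟨rfl, ea, rfl, eb, rfl, hdK, ?_, two_ne_zero⟩
    have e : (-2 * algebraMap k K a) ^ 2 -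
        4 * (algebraMap k K a ^ 2 - 4 * algebraMap k K b) = 16 * algebraMap k K b := by ring
    rw [e]
    exact mul_ne_zero (by norm_num) hbK
  have e1 : algebraMap K L (-2 * algebraMap k K a) = -2 * algebraMap k L a := by
    rw [map_mul, map_neg, map_ofNat, tw]
  have e2 : algebraMap K L (algebraMap k K a ^ 2 - 4 * algebraMap k K b) =
      algebraMap k L a ^ 2 - 4 * algebraMap k L b := by
    rw [map_sub, map_pow, map_mul, map_ofNat, tw, tw]
  refine ⟨stableW_of hodd hT (by rwa [tw, tw]) (by rwa [e1, e2]), ?_⟩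
  refine stableW_of hodd hT' (by rwa [e1, e2]) ?_
  have e3 : algebraMap K L (-2 * (-2 * algebraMap k K a)) = 4 * algebraMap k L a := by
    rw [map_mul, map_neg, map_ofNat, e1]; ring
  have e4 : algebraMap K L ((-2 * algebraMap k K a) ^ 2 -
      4 * (algebraMap k K a ^ 2 - 4 * algebraMap k K b)) = 16 * algebraMap k L b := by
    rw [map_sub, map_pow, e1, map_mul (algebraMap K L) 4, map_ofNat, e2]; ring
  rw [e3, e4]
  exact H.scale

/-- One layer over a non-real field. -/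
theorem layer_on (hk2 : TwoPower k) (hunrk : Unr2 k) {a b : 𝓞 k} (hb0 : b ≠ 0)
    (hd0 : a ^ 2 - 4 * b ≠ 0) {M : ℤ} (hM : 2 * b * (a ^ 2 - 4 * b) ∣ (M : 𝓞 k))
    {T T' : Set (HeightOneSpectrum (𝓞 L))} (h2T : ∀ w ∈ T, (2 : 𝓞 L) ∈ w.asIdeal)
    (h2T' : ∀ w ∈ T', (2 : 𝓞 L) ∈ w.asIdeal) (hS : ∀ w ∈ T, SmallAt (below k w) a b)
    (hS' : ∀ w ∈ T', ¬ SmallAt (below k w) a b) (hunr : Unr2 L) (G : GoodI M K L T T') :
    StableW K L (ecurve K a b) ∧ StableW K L (ecurve K (-2 * a) (a ^ 2 - 4 * b)) := by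
  haveI := G.gal
  have hbad : ∀ v : HeightOneSpectrum (𝓞 K),
      algebraMap (𝓞 k) (𝓞 K) (2 * b * (a ^ 2 - 4 * b)) ∈ v.asIdeal →
      UniqueOver K L v.asIdeal := by
    intro v hv
    apply G.bad v
    obtain ⟨c, hc⟩ := hM
    have : (M : 𝓞 K) = algebraMap (𝓞 k) (𝓞 K) (2 * b * (a ^ 2 - 4 * b)) *
        algebraMap (𝓞 k) (𝓞 K) c := by
      rw [← map_mul, ← hc, map_intCast]
    rw [this]
    exact Ideal.mul_mem_right _ _ hv
  have h2 : ∀ v : HeightOneSpectrum (𝓞 K), (2 : 𝓞 K) ∈ v.asIdeal → UniqueOver K L v.asIdeal := by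
    intro v hv
    apply hbad v
    rw [map_mul, map_mul, map_ofNat]
    exact Ideal.mul_mem_right _ _ (Ideal.mul_mem_right _ _ hv)
  have h3 : ¬ 3 ∣ Module.finrank K L ∨ CubIn k K L := by
    rcases G.three with h3 | h3
    · exact Or.inl h3
    · exact Or.inr (cubIn_of G.odd h2 h3 (res_twoPower hk2))
  obtain ⟨H, H'⟩ := two_on (k := k) G.odd h2T h2T' G.RP G.RQ hb0 hS hS' hunrk hbad hunr h3
  exact stable_two G.odd hb0 hd0 H H'

end

end H5IM
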