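import Pool.Agent.H68.IM.Df
import Pool.Agent.H73.IS.KTwo

/-!
# MP_78d38b: the local half over non-real fields

Versions of `sq_of_kapK` and `nqK_small` (helper73) for a set `T` of primes above two.
-/

set_option autoImplicit false
set_option linter.style.haveILetI false
open scoped Classical

open NumberField IsDedekindDomain WithZero Pool.Agent.H10 H73IS H68IM

namespace H5IM

/-- An element with even valuations and square norm, of the form `KapK` at the primes in `T`, is a
square. -/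
theorem sq_on {k K L : Type} [Field k] [NumberField k] [Field K] [NumberField K] [Field L]
    [NumberField L] [Algebra k K] [Algebra K L] [Algebra k L] [IsScalarTower k K L]
    [IsGalois K L] (hodd : Odd (Module.finrank K L)) {T : Set (HeightOneSpectrum (𝓞 L))}
    (h2T : ∀ w ∈ T, (2 : 𝓞 L) ∈ w.asIdeal) (R : NoNewOn K L T)
    (hbad : ∀ v : HeightOneSpectrum (𝓞 K), (2 : 𝓞 K) ∈ v.asIdeal → UniqueOver K L v.asIdeal)
    (hunr : ∀ w : HeightOneSpectrum (𝓞 L), (2 : 𝓞 L) ∈ w.asIdeal →
      (2 : 𝓞 L) ∉ w.asIdeal ^ 2)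
    (h3 : ¬ 3 ∣ Module.finrank K L ∨ CubIn k K L)
    {d : L} (hd : d ≠ 0) (ev : ∀ w : HeightOneSpectrum (𝓞 L), Even (log (w.valuation L d)))
    (N : IsSquare (Algebra.norm K d))
    (kap : ∀ w ∈ T, KapK k (w.valuation L) d) :
    IsSquare d := by
  -- primes of `K` below
  have bne : ∀ w : HeightOneSpectrum (𝓞 L), w.asIdeal.under (𝓞 K) ≠ ⊥ := fun w =>
    Ideal.IsIntegral.comap_ne_bot _ w.ne_bot
  have mem_iff : ∀ (w : HeightOneSpectrum (𝓞 L)),
      (2 : 𝓞 K) ∈ w.asIdeal.under (𝓞 K) ↔ (2 : 𝓞 L) ∈ w.asIdeal := by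
    intro w
    change algebraMap (𝓞 K) (𝓞 L) (2 : 𝓞 K) ∈ w.asIdeal ↔ _
    rw [map_ofNat]
  have huniq : ∀ w : HeightOneSpectrum (𝓞 L), (2 : 𝓞 L) ∈ w.asIdeal →
      UniqueOver K L (w.asIdeal.under (𝓞 K)) := by
    intro w hw
    exact hbad ⟨w.asIdeal.under (𝓞 K), inferInstance, bne w⟩ ((mem_iff w).mpr hw)
  -- the product with a conjugate
  have hcardG : Nat.card (L ≃ₐ[K] L) = Module.finrank K L := IsGalois.card_aut_eq_finrank K L
  have prodsq : ∀ σ : L ≃ₐ[K] L, IsSquare (d * σ d) := by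
    intro σ
    have hσ0 : σ d ≠ 0 := by
      intro h0
      apply hd
      rw [← σ.symm_apply_apply d, h0, map_zero]
    have hord : orderOf σ ∣ Module.finrank K L := by
      rw [← hcardG]
      exact orderOf_dvd_natCard σ
    apply R _ (mul_ne_zero hd hσ0)
    · intro w
      rw [map_mul, log_mul ((Valuation.ne_zero_iff _).mpr hd) ((Valuation.ne_zero_iff _).mpr hσ0)]
      exact (ev w).add (even_conj σ ev w)
    · rw [map_mul, Algebra.norm_eq_of_algEquiv σ d]
      exact ⟨_, rfl⟩
    · intro w hwT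
      have hw := h2T w hwT
      have hu := huniq w hw
      have hv2 := val_two_of_unram hw (hunr w hw)
      have hσ : ∀ x, w.valuation L (σ x) = w.valuation L x := val_conj_of_unique σ w hu
      refine kapK_conj hv2 hσ (Odd.of_dvd_nat hodd hord) ?_ (kap w hwT)
      rcases h3 with h3 | h3
      · left
        rw [Nat.coprime_comm, Nat.coprime_comm]
        exact (Nat.Prime.coprime_iff_not_dvd Nat.prime_three).mpr fun h => h3 (h.trans hord)
      · right
        intro c₂ c₁ c₀ y hy hc₂ hc₁ hc₀ hlt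
        have hun := hunr w hw
        obtain ⟨y', hy'⟩ := int_close w y hy
        have cl : ∀ c : k, w.valuation L (algebraMap k L c) ≤ 1 →
            ∃ c' : 𝓞 k, w.valuation L (algebraMap k L c -
              algebraMap (𝓞 L) L (algebraMap (𝓞 k) (𝓞 L) c')) < 1 := by
          intro c hc
          rw [val_eq w hw hun] at hc
          obtain ⟨c', hc'⟩ := int_close (below k w) c hc
          refine ⟨c', ?_⟩
          rw [← val_eq w hw hun, map_sub] at hc'
          have e7 : algebraMap k L ((algebraMap (𝓞 k) k) c') =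
              algebraMap (𝓞 L) L (algebraMap (𝓞 k) (𝓞 L) c') := by
            rw [← IsScalarTower.algebraMap_apply (𝓞 k) k L,
              ← IsScalarTower.algebraMap_apply (𝓞 k) (𝓞 L) L]
          rw [← e7]
          exact hc'
        obtain ⟨d₂, hd₂⟩ := cl c₂ hc₂
        obtain ⟨d₁, hd₁⟩ := cl c₁ hc₁
        obtain ⟨d₀, hd₀⟩ := cl c₀ hc₀
        have hlt' := KSq_cub hy (w.valuation_le_one y') (w.valuation_le_one _)
          (w.valuation_le_one _) hy' hd₂ hd₁ hd₀ hlt
        have e9 : algebraMap (𝓞 L) L y' ^ 3 +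
            algebraMap (𝓞 L) L (algebraMap (𝓞 k) (𝓞 L) d₂) * algebraMap (𝓞 L) L y' ^ 2 +
            algebraMap (𝓞 L) L (algebraMap (𝓞 k) (𝓞 L) d₁) * algebraMap (𝓞 L) L y' +
            algebraMap (𝓞 L) L (algebraMap (𝓞 k) (𝓞 L) d₀) =
            algebraMap (𝓞 L) L (y' ^ 3 + algebraMap (𝓞 k) (𝓞 L) d₂ * y' ^ 2 +
              algebraMap (𝓞 k) (𝓞 L) d₁ * y' + algebraMap (𝓞 k) (𝓞 L) d₀) := by
          simp only [map_add, map_pow, map_mul]
        rw [e9] at hlt'
        obtain ⟨c, hc⟩ := h3 w hw d₂ d₁ d₀ y' ((w.valuation_lt_one_iff_mem _).mp hlt')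
        have hc1 := (w.valuation_lt_one_iff_mem (K := L) _).mpr hc
        refine ⟨algebraMap (𝓞 K) K c, ?_⟩
        have e7 : algebraMap K L ((algebraMap (𝓞 K) K) c) =
            algebraMap (𝓞 L) L (algebraMap (𝓞 K) (𝓞 L) c) := by
          rw [← IsScalarTower.algebraMap_apply (𝓞 K) K L,
            ← IsScalarTower.algebraMap_apply (𝓞 K) (𝓞 L) L]
        rw [e7]
        have hs := KSq_add hy' hc1
        have e10 : y - algebraMap (𝓞 L) L y' +
            algebraMap (𝓞 L) L (y' - algebraMap (𝓞 K) (𝓞 L) c) =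
            y - algebraMap (𝓞 L) L (algebraMap (𝓞 K) (𝓞 L) c) := by
          rw [map_sub]
          ring
        exact e10 ▸ hs
  have h4 : IsSquare (∏ σ : L ≃ₐ[K] L, (d * σ d)) :=
    Finset.isSquare_prod _ fun σ _ => prodsq σ
  rw [Finset.prod_mul_distrib, Finset.prod_const, ← Algebra.norm_eq_prod_automorphisms,
    Finset.card_univ, ← Nat.card_eq_fintype_card, hcardG] at h4
  obtain ⟨q, hq⟩ := N
  obtain ⟨r, hr⟩ := h4
  obtain ⟨kk, hk⟩ := hodd
  have hq0 : algebraMap K L q ≠ 0 := by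
    intro h0
    have : algebraMap K L (Algebra.norm K d) = 0 := by rw [hq, map_mul, h0, mul_zero]
    rw [map_eq_zero, Algebra.norm_eq_zero_iff] at this
    exact hd this
  rw [hq, map_mul, hk] at hr
  refine ⟨r / (algebraMap K L q * d ^ kk), ?_⟩
  have hk0 : d ^ kk ≠ 0 := pow_ne_zero kk hd
  field_simp
  rw [pow_two r, ← hr]
  ring


section

variable {k K L : Type} [Field k] [NumberField k] [Field K] [NumberField K] [Field L]
  [NumberField L] [Algebra k K] [Algebra K L] [Algebra k L] [IsScalarTower k K L]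

omit [Field K] [NumberField K] [Algebra k K] [Algebra K L] [IsScalarTower k K L] in
/-- The local form at one prime above two. -/
theorem kap_at {a b : 𝓞 k} (w : HeightOneSpectrum (𝓞 L)) (hw : (2 : 𝓞 L) ∈ w.asIdeal)
    (hunr : (2 : 𝓞 L) ∉ w.asIdeal ^ 2) (hS : SmallAt (below k w) a b) {d : L} (hd : d ≠ 0)
    (hev : Even (log (w.valuation L d)))
    (H : QPt (algebraMap L (w.adicCompletion L) (algebraMap k L (a : k)))
      (algebraMap L (w.adicCompletion L) (algebraMap k L (b : k)))
      (algebraMap L (w.adicCompletion L) d)) : KapK k (w.valuation L) d := by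
  have hv2 := val_two_of_unram hw hunr
  letI : Algebra k (w.adicCompletion L) :=
    ((algebraMap L (w.adicCompletion L)).comp (algebraMap k L)).toAlgebra
  haveI hST : IsScalarTower k L (w.adicCompletion L) := IsScalarTower.of_algebraMap_eq fun x => rfl
  apply kapK_descend w hv2
  have e2 : Valued.v (2 : w.adicCompletion L) = exp (-1 : ℤ) := by
    rw [valued_ofNat w 2]; exact hv2
  have h20 : (2 : w.adicCompletion L) ≠ 0 := by
    intro h0
    rw [h0, map_zero] at e2
    exact exp_ne_zero e2.symm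
  have hd' : algebraMap L (w.adicCompletion L) d ≠ 0 := by
    rw [Ne, map_eq_zero]
    exact hd
  have hev' : Even (log (Valued.v (algebraMap L (w.adicCompletion L) d))) := by
    rw [valued_algebraMap]
    exact hev
  -- valuations of elements of `k`
  have hk : ∀ x : k, Valued.v (algebraMap k (w.adicCompletion L) x) =
      w.valuation L (algebraMap k L x) := fun x => by
    change Valued.v (algebraMap L (w.adicCompletion L) (algebraMap k L x)) = _
    rw [valued_algebraMap]
  have hkv : ∀ x : k, Valued.v (algebraMap k (w.adicCompletion L) x) =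
      (below k w).valuation k x := fun x => by
    rw [hk, val_eq w hw (hunr)]
  have h2k : (2 : 𝓞 k) ∈ (below k w).asIdeal := by
    rw [mem_below, map_ofNat]
    exact hw
  have hP : ∀ x : k, Valued.v (algebraMap k (w.adicCompletion L) x) ≤ 1 →
      ∃ s : k, Valued.v (algebraMap k (w.adicCompletion L) (x - s ^ 2)) < 1 := by
    intro x hx
    rw [hkv] at hx
    obtain ⟨s, hs⟩ := perf (below k w) h2k x hx
    exact ⟨s, by rw [hkv]; exact hs⟩
  obtain ⟨i, s1, s2, s3, s4⟩ := hS
  have hmem := fun (x : 𝓞 k) (n : ℕ) => mem_pow_iff w hw (hunr) x n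
  rw [hmem, ← hk] at s1 s2 s3
  rw [hmem, hmem, ← hk, ← hk] at s4
  have h20k : (2 : k) ≠ 0 := by
    intro h0
    apply h20
    rw [← map_ofNat (algebraMap k (w.adicCompletion L)) 2, h0, map_zero]
  -- powers of two
  have p2 : ∀ n : ℕ, Valued.v (algebraMap k (w.adicCompletion L) (2 ^ n)) = exp (-(n : ℤ)) := by
    intro n
    rw [map_pow, map_ofNat, KNq_two e2]
  have hdiv : ∀ (x : k) (n m : ℕ), Valued.v (algebraMap k (w.adicCompletion L) (x / 2 ^ n)) ≤
      exp (-(m : ℤ)) ↔ Valued.v (algebraMap k (w.adicCompletion L) x) ≤ exp (-((n + m : ℕ) : ℤ)) := by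
    intro x n m
    have hx : x = (x / 2 ^ n) * 2 ^ n := by
      rw [div_mul_cancel₀ _ (pow_ne_zero n h20k)]
    conv_rhs => rw [hx]
    rw [map_mul (algebraMap k (w.adicCompletion L)), map_mul Valued.v, p2]
    have e1 : (exp (-((n + m : ℕ) : ℤ)) : WithZero (Multiplicative ℤ)) =
        exp (-(m : ℤ)) * exp (-(n : ℤ)) := by
      rw [← exp_add]
      congr 1
      push_cast
      ring
    rw [e1]
    exact (mul_le_mul_iff_left₀ (zero_lt_iff.2 exp_ne_zero)).symm
  obtain ⟨A, hA⟩ : ∃ A : k, A = (a : k) / 2 ^ (2 * i) := ⟨_, rfl⟩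
  obtain ⟨B, hB⟩ : ∃ B : k, B = (b : k) / 2 ^ (4 * i) := ⟨_, rfl⟩
  have hA2 : (a : k) = (2 ^ i) ^ 2 * A := by
    rw [hA]
    field_simp
    ring
  have hB2 : (b : k) = (2 ^ i) ^ 4 * B := by
    rw [hB]
    field_simp
    ring
  have tA : Valued.v (algebraMap k (w.adicCompletion L) A) ≤ exp (-((1 : ℕ) : ℤ)) := by
    rw [hA, hdiv]
    exact s1
  have tB : Valued.v (algebraMap k (w.adicCompletion L) (A ^ 2 - 4 * B)) ≤ exp (-4 : ℤ) := by
    have e1 : A ^ 2 - 4 * B = ((a ^ 2 - 4 * b : 𝓞 k) : k) / 2 ^ (4 * i) := by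
      have e0 : ((a ^ 2 - 4 * b : 𝓞 k) : k) = (a : k) ^ 2 - 4 * (b : k) := by
        change algebraMap (𝓞 k) k (a ^ 2 - 4 * b) = algebraMap (𝓞 k) k a ^ 2 - 4 * algebraMap (𝓞 k) k b
        rw [map_sub, map_pow, map_mul, map_ofNat]
      rw [e0, hA2, hB2]
      field_simp
      ring
    rw [e1]
    exact (hdiv _ _ 4).2 s3
  -- the point
  have L1 := H
  have L2 : QPt (algebraMap k (w.adicCompletion L) A) (algebraMap k (w.adicCompletion L) B)
      (algebraMap L (w.adicCompletion L) d) := by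
    rw [← QPt.scale (r := (2 : w.adicCompletion L) ^ i) (pow_ne_zero i h20)]
    have e5 : ((2 : w.adicCompletion L) ^ i) ^ 2 * algebraMap k (w.adicCompletion L) A =
        algebraMap L (w.adicCompletion L) (algebraMap k L (a : k)) := by
      change _ = algebraMap k (w.adicCompletion L) (a : k)
      rw [hA2, map_mul, map_pow, map_pow, map_ofNat]
    have e6 : ((2 : w.adicCompletion L) ^ i) ^ 4 * algebraMap k (w.adicCompletion L) B =
        algebraMap L (w.adicCompletion L) (algebraMap k L (b : k)) := by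
      change _ = algebraMap k (w.adicCompletion L) (b : k)
      rw [hB2, map_mul, map_pow, map_pow, map_ofNat]
    rw [e5, e6]
    exact L1
  by_cases hc : Valued.v (algebraMap k (w.adicCompletion L) A) ≤ exp (-2 : ℤ)
  · refine kapK_b e2 hP hc tB ?_ hd' hev' L2
    intro hB4
    apply s4
    constructor
    · have h5 := (hdiv (a : k) (2 * i) 2).1 (by rw [← hA]; exact hc)
      exact h5
    · have h5 := (hdiv (b : k) (4 * i) 4).1 (by rw [← hB]; exact hB4)
      exact h5
  · refine kapK_a e2 hP ?_ tB hd' L2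
    apply le_antisymm
    · exact tA
    · rw [not_le] at hc
      have h0 : Valued.v (algebraMap k (w.adicCompletion L) A) ≠ 0 := fun h0 => by
        rw [h0] at hc
        exact absurd hc (by simp)
      rw [← exp_log h0, exp_lt_exp] at hc
      rw [← exp_log h0, exp_le_exp]
      omega


/-- No new everywhere soluble classes, if the local images at the primes in `T` are small. -/
theorem nq_on [IsGalois K L] (hodd : Odd (Module.finrank K L))
    {T : Set (HeightOneSpectrum (𝓞 L))} (h2T : ∀ w ∈ T, (2 : 𝓞 L) ∈ w.asIdeal)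
    (R : NoNewOn K L T) {a b : 𝓞 k} (hS : ∀ w ∈ T, SmallAt (below k w) a b)
    (hbad : ∀ v : HeightOneSpectrum (𝓞 K), algebraMap (𝓞 k) (𝓞 K) (2 * b) ∈ v.asIdeal →
      UniqueOver K L v.asIdeal)
    (hunr : ∀ w : HeightOneSpectrum (𝓞 L), (2 : 𝓞 L) ∈ w.asIdeal →
      (2 : 𝓞 L) ∉ w.asIdeal ^ 2)
    (h3 : ¬ 3 ∣ Module.finrank K L ∨ CubIn k K L) :
    NewTrivQ K L (algebraMap k L a) (algebraMap k L b) := by
  intro d hd Hf _ N
  have hbb : ∀ v : HeightOneSpectrum (𝓞 K), algebraMap (𝓞 k) (𝓞 K) b ∈ v.asIdeal →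
      UniqueOver K L v.asIdeal := by
    intro v hv
    refine hbad v ?_
    rw [map_mul]
    exact Ideal.mul_mem_left _ _ hv
  have hb2 : ∀ v : HeightOneSpectrum (𝓞 K), (2 : 𝓞 K) ∈ v.asIdeal →
      UniqueOver K L v.asIdeal := by
    intro v hv
    refine hbad v ?_
    rw [map_mul, map_ofNat]
    exact Ideal.mul_mem_right _ _ hv
  have hev := evK hodd hbb hd Hf N
  refine sq_on (k := k) hodd h2T R hb2 hunr h3 hd hev N ?_
  intro w hwT
  exact kap_at w (h2T w hwT) (hunr w (h2T w hwT)) (hS w hwT) hd (hev w) (Hf w)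

end

end H5IM
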