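import Pool.Agent.H5.IM.Loc
import Pool.Agent.H5.IM.KR2

/-!
# MP_78d38b: no new soluble classes, local forms `KapR`
-/

set_option autoImplicit false
set_option linter.style.haveILetI false
open scoped Classical

open NumberField IsDedekindDomain WithZero Pool.Agent.H10 H73IS H68IM

namespace H5IM

/-- An element with even valuations and square norm, of the form `KapR` at the primes in `T`, is a
square. -/
theorem sq_onR {k K L : Type} [Field k] [NumberField k] [Field K] [NumberField K] [Field L]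
    [NumberField L] [Algebra k K] [Algebra K L] [Algebra k L] [IsScalarTower k K L]
    [IsGalois K L] (hodd : Odd (Module.finrank K L)) {T : Set (HeightOneSpectrum (𝓞 L))}
    (h2T : ∀ w ∈ T, (2 : 𝓞 L) ∈ w.asIdeal) (R : NoNewOn K L T)
    (hbad : ∀ v : HeightOneSpectrum (𝓞 K), (2 : 𝓞 K) ∈ v.asIdeal → UniqueOver K L v.asIdeal)
    (hunr : ∀ w : HeightOneSpectrum (𝓞 L), (2 : 𝓞 L) ∈ w.asIdeal →
      (2 : 𝓞 L) ∉ w.asIdeal ^ 2)
    {d : L} (hd : d ≠ 0) (ev : ∀ w : HeightOneSpectrum (𝓞 L), Even (log (w.valuation L d)))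
    (N : IsSquare (Algebra.norm K d))
    (kap : ∀ w ∈ T, KapR k (w.valuation L) d) :
    IsSquare d := by
  -- primes of `K` below
  have bne : ∀ w : HeightOneSpectrum (𝓞 L), w.asIdeal.under (𝓞 K) ≠ ⊥ := fun w =>
    Ideal.IsIntegral.comap_ne_bot _ w.ne_bot
  have mem_iff : ∀ (w : HeightOneSpectrum (𝓞 L)),
      (2 : 𝓞 K) ∈ w.asIdeal.under (𝓞 K) ↔ (2 : 𝓞 L) ∈ w.asIdeal := by
    intro w
    change algebraMap (𝓞 K) (𝓞 L) (2 : 𝓞 K) ∈ w.asIdeal ↔ _
    rw [map_ofNat]
  have huniq : ∀ w : HeightOneSpectrum (𝓞 L), (2 : 𝓞 L) ∈ w.asIdeal →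
      UniqueOver K L (w.asIdeal.under (𝓞 K)) := by
    intro w hw
    exact hbad ⟨w.asIdeal.under (𝓞 K), inferInstance, bne w⟩ ((mem_iff w).mpr hw)
  -- the product with a conjugate
  have hcardG : Nat.card (L ≃ₐ[K] L) = Module.finrank K L := IsGalois.card_aut_eq_finrank K L
  have prodsq : ∀ σ : L ≃ₐ[K] L, IsSquare (d * σ d) := by
    intro σ
    have hσ0 : σ d ≠ 0 := by
      intro h0
      apply hd
      rw [← σ.symm_apply_apply d, h0, map_zero]
    have hord : orderOf σ ∣ Module.finrank K L := by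
      rw [← hcardG]
      exact orderOf_dvd_natCard σ
    apply R _ (mul_ne_zero hd hσ0)
    · intro w
      rw [map_mul, log_mul ((Valuation.ne_zero_iff _).mpr hd) ((Valuation.ne_zero_iff _).mpr hσ0)]
      exact (ev w).add (even_conj σ ev w)
    · rw [map_mul, Algebra.norm_eq_of_algEquiv σ d]
      exact ⟨_, rfl⟩
    · intro w hwT
      have hw := h2T w hwT
      have hu := huniq w hw
      have hv2 := val_two_of_unram hw (hunr w hw)
      have hσ : ∀ x, w.valuation L (σ x) = w.valuation L x := val_conj_of_unique σ w hu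
      exact kapR_conj hv2 hσ (Odd.of_dvd_nat hodd hord) (kap w hwT)
  have h4 : IsSquare (∏ σ : L ≃ₐ[K] L, (d * σ d)) :=
    Finset.isSquare_prod _ fun σ _ => prodsq σ
  rw [Finset.prod_mul_distrib, Finset.prod_const, ← Algebra.norm_eq_prod_automorphisms,
    Finset.card_univ, ← Nat.card_eq_fintype_card, hcardG] at h4
  obtain ⟨q, hq⟩ := N
  obtain ⟨r, hr⟩ := h4
  obtain ⟨kk, hk⟩ := hodd
  have hq0 : algebraMap K L q ≠ 0 := by
    intro h0
    have : algebraMap K L (Algebra.norm K d) = 0 := by rw [hq, map_mul, h0, mul_zero]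
    rw [map_eq_zero, Algebra.norm_eq_zero_iff] at this
    exact hd this
  rw [hq, map_mul, hk] at hr
  refine ⟨r / (algebraMap K L q * d ^ kk), ?_⟩
  have hk0 : d ^ kk ≠ 0 := pow_ne_zero kk hd
  field_simp
  rw [pow_two r, ← hr]
  ring



section

variable {k K L : Type} [Field k] [NumberField k] [Field K] [NumberField K] [Field L]
  [NumberField L] [Algebra k K] [Algebra K L] [Algebra k L] [IsScalarTower k K L]

/-- No new everywhere soluble classes, local forms `KapR`. -/
theorem nq_onR [IsGalois K L] (hodd : Odd (Module.finrank K L))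
    {T : Set (HeightOneSpectrum (𝓞 L))} (h2T : ∀ w ∈ T, (2 : 𝓞 L) ∈ w.asIdeal)
    (R : NoNewOn K L T) {a b : 𝓞 k}
    (hK : ∀ w ∈ T, ∀ d : L, d ≠ 0 →
      QPt (algebraMap L (w.adicCompletion L) (algebraMap k L (a : k)))
      (algebraMap L (w.adicCompletion L) (algebraMap k L (b : k)))
      (algebraMap L (w.adicCompletion L) d) → KapR k (w.valuation L) d)
    (hbad : ∀ v : HeightOneSpectrum (𝓞 K), algebraMap (𝓞 k) (𝓞 K) b ∈ v.asIdeal →
      UniqueOver K L v.asIdeal)
    (hb2 : ∀ v : HeightOneSpectrum (𝓞 K), (2 : 𝓞 K) ∈ v.asIdeal → UniqueOver K L v.asIdeal)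
    (hunr : ∀ w : HeightOneSpectrum (𝓞 L), (2 : 𝓞 L) ∈ w.asIdeal →
      (2 : 𝓞 L) ∉ w.asIdeal ^ 2) :
    NewTrivQ K L (algebraMap k L a) (algebraMap k L b) := by
  intro d hd Hf _ N
  have hev := evK hodd hbad hd Hf N
  refine sq_onR (k := k) hodd h2T R hb2 hunr hd hev N ?_
  intro w hwT
  exact hK w hwT d hd (Hf w)

end

end H5IM
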