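import Pool.Agent.H5.IM.Gro
import Pool.Agent.H5.IM.Fin
import Pool.Agent.H68.IM.Abv

/-!
Imaginary quadratic base fields.
-/

set_option autoImplicit false
set_option linter.style.haveILetI false
open scoped Classical

open WithZero WeierstrassCurve IsDedekindDomain NumberField Pool.Agent.H10 H5SW H73IS H68QS H86IK

namespace H5IM

section

variable {k : Type} [Field k] [NumberField k]

lemma two_le_norm (v : HeightOneSpectrum (𝓞 k)) : 2 ≤ Ideal.absNorm v.asIdeal := by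
  have h0 : Ideal.absNorm v.asIdeal ≠ 0 := by
    rw [Ne, Ideal.absNorm_eq_zero_iff]
    exact v.ne_bot
  have h1 : Ideal.absNorm v.asIdeal ≠ 1 := by
    rw [Ne, Ideal.absNorm_eq_one_iff]
    exact v.isPrime.ne_top
  omega

/-- In a quadratic field there are at most two primes above two. -/
lemma two_primes (hdeg : Module.finrank ℚ k = 2) (hk : Unr2 k)
    {v₁ v₂ v : HeightOneSpectrum (𝓞 k)} (h₁ : (2 : 𝓞 k) ∈ v₁.asIdeal)
    (h₂ : (2 : 𝓞 k) ∈ v₂.asIdeal) (h : (2 : 𝓞 k) ∈ v.asIdeal) (hne : v₁ ≠ v₂) :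
    v = v₁ ∨ v = v₂ := by
  by_contra hcon
  push Not at hcon
  have hP := prod_norm hk (above2 k) mem_above2
  rw [hdeg] at hP
  have hsub : ({v, v₁, v₂} : Finset (HeightOneSpectrum (𝓞 k))) ⊆ above2 k := by
    intro x hx
    rw [mem_above2]
    simp only [Finset.mem_insert, Finset.mem_singleton] at hx
    rcases hx with rfl | rfl | rfl <;> assumption
  have h3 : 2 ^ ({v, v₁, v₂} : Finset (HeightOneSpectrum (𝓞 k))).card ≤
      ∏ w ∈ ({v, v₁, v₂} : Finset (HeightOneSpectrum (𝓞 k))), Ideal.absNorm w.asIdeal := by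
    rw [← Finset.prod_const]
    exact Finset.prod_le_prod' (fun w _ => two_le_norm w)
  have h4 : ∏ w ∈ ({v, v₁, v₂} : Finset (HeightOneSpectrum (𝓞 k))), Ideal.absNorm w.asIdeal ≤
      ∏ w ∈ above2 k, Ideal.absNorm w.asIdeal :=
    Finset.prod_le_prod_of_subset_of_one_le' hsub
      (fun w _ _ => le_trans (by norm_num) (two_le_norm w))
  have h5 : ({v, v₁, v₂} : Finset (HeightOneSpectrum (𝓞 k))).card = 3 :=
    Finset.card_eq_three.mpr ⟨v, v₁, v₂, hcon.1, hcon.2, hne, rfl⟩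
  rw [h5] at h3
  omega

/-- The product of the conjugates is an integer. -/
lemma mul_conj [Algebra.IsQuadraticExtension ℚ k] {s : k ≃ₐ[ℚ] k} (hs : s ≠ 1) (x y : 𝓞 k)
    (hxy : (y : k) = s x) : ∃ N : ℤ, (N : 𝓞 k) = x * y := by
  have : IsGalois ℚ k := by
    constructor
  have hc : Fintype.card (k ≃ₐ[ℚ] k) = 2 := by
    rw [← Nat.card_eq_fintype_card, IsGalois.card_aut_eq_finrank,
      Algebra.IsQuadraticExtension.finrank_eq_two]
  have hu : (Finset.univ : Finset (k ≃ₐ[ℚ] k)) = {1, s} := by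
    symm
    apply Finset.eq_univ_of_card
    rw [hc, Finset.card_pair (Ne.symm hs)]
  refine ⟨Algebra.norm ℤ x, ?_⟩
  have h1 := Algebra.norm_eq_prod_automorphisms ℚ (x : k)
  rw [hu, Finset.prod_pair (Ne.symm hs)] at h1
  have h2 : algebraMap ℚ k (Algebra.norm ℚ (x : k)) = ((Algebra.norm ℤ x : ℤ) : k) := by
    rw [← Algebra.coe_norm_int, map_intCast]
  rw [h2] at h1
  apply RingOfIntegers.coe_injective
  rw [map_mul, map_intCast, h1]
  change (x : k) * s x = (x : k) * (y : k)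
  rw [hxy]

/-- Primes above two which are conjugate to each other are different, if there are two of them. -/
lemma conj_ne [Algebra.IsQuadraticExtension ℚ k] {s : k ≃ₐ[ℚ] k} (hs : s ≠ 1)
    {v u : HeightOneSpectrum (𝓞 k)} (hv : (2 : 𝓞 k) ∈ v.asIdeal) (hu : (2 : 𝓞 k) ∈ u.asIdeal)
    (hne : v ≠ u)
    (H : ∀ x y : 𝓞 k, (y : k) = s x → (x ∈ v.asIdeal ↔ y ∈ v.asIdeal)) : False := by
  have hex : ∃ x ∈ v.asIdeal, x ∉ u.asIdeal := by
    by_contra hcon
    push Not at hcon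
    exact hne (HeightOneSpectrum.ext (v.isMaximal.eq_of_le u.isPrime.ne_top hcon))
  obtain ⟨x, hx, hxu⟩ := hex
  have hint : ∀ z : 𝓞 k, ∃ y : 𝓞 k, (y : k) = s z := by
    intro z
    have h1 : IsIntegral ℤ (s (z : k)) := (RingOfIntegers.isIntegral_coe z).map (s : k →+* k).toIntAlgHom
    exact ⟨⟨s (z : k), h1⟩, rfl⟩
  have key : ∀ z : 𝓞 k, z ∈ v.asIdeal → z ∉ u.asIdeal → ∀ y : 𝓞 k, (y : k) = s z →
      y ∈ u.asIdeal := by
    intro z hz hzu y hy
    obtain ⟨N, hN⟩ := mul_conj hs z y hy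
    have h1 : ((N : ℤ) : 𝓞 k) ∈ v.asIdeal := by
      rw [hN]
      exact v.asIdeal.mul_mem_right _ hz
    obtain ⟨c, hc⟩ := H68IM.Abv_int v.isPrime hv h1
    have h2 : z * y ∈ u.asIdeal := by
      rw [← hN, hc]
      push_cast
      exact u.asIdeal.mul_mem_right _ hu
    exact (u.isPrime.mem_or_mem h2).resolve_left hzu
  obtain ⟨y, hy⟩ := hint x
  have hyu := key x hx hxu y hy
  have hyv : y ∈ v.asIdeal := (H x y hy).mp hx
  have hss : s (s (x : k)) = x := by
    have : IsGalois ℚ k := by constructor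
    have hc : Nat.card (k ≃ₐ[ℚ] k) = 2 := by
      rw [IsGalois.card_aut_eq_finrank, Algebra.IsQuadraticExtension.finrank_eq_two]
    have h1 : s ^ 2 = 1 := by
      rw [← hc]
      exact pow_card_eq_one'
    have h2 := congrArg (fun t : k ≃ₐ[ℚ] k => t (x : k)) h1
    simpa [pow_two] using h2
  have hadd : ((x + y : 𝓞 k) : k) = s ((x + y : 𝓞 k) : k) := by
    have e : ((x + y : 𝓞 k) : k) = (x : k) + (y : k) := map_add (algebraMap (𝓞 k) k) x y
    rw [e, map_add, hy, hss, add_comm]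
  have h3 : x + y ∉ u.asIdeal := by
    intro h
    apply hxu
    have := u.asIdeal.sub_mem h hyu
    rwa [add_sub_cancel_right] at this
  exact h3 (key (x + y) (v.asIdeal.add_mem hx hyv) h3 (x + y) hadd)

theorem quad_opposite [Algebra.IsQuadraticExtension ℚ k] (hk : Unr2 k) {a b : 𝓞 k}
    {v₁ v₂ : HeightOneSpectrum (𝓞 k)} (h₁ : (2 : 𝓞 k) ∈ v₁.asIdeal)
    (h₂ : (2 : 𝓞 k) ∈ v₂.asIdeal) (hs₁ : SmallAt v₁ a b) (hs₂ : ¬ SmallAt v₂ a b) :
    Opposite ℚ k a b := by
  have hne : v₁ ≠ v₂ := fun h => hs₂ (h ▸ hs₁)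
  have hdeg : Module.finrank ℚ k = 2 := Algebra.IsQuadraticExtension.finrank_eq_two ℚ k
  intro s hs v v' hv hv' H
  have H' : ∀ x y : 𝓞 k, (y : k) = s x → (x ∈ v.asIdeal ↔ y ∈ v'.asIdeal) := H
  have hvv' : v ≠ v' := by
    rintro rfl
    rcases two_primes hdeg hk h₁ h₂ hv hne with rfl | rfl
    · exact conj_ne hs h₁ h₂ hne H'
    · exact conj_ne hs h₂ h₁ (Ne.symm hne) H'
  rcases two_primes hdeg hk h₁ h₂ hv hne with rfl | rfl
  · rcases two_primes hdeg hk h₁ h₂ hv' hne with rfl | rfl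
    · exact absurd rfl hvv'
    · exact ⟨fun _ => hs₂, fun _ => hs₁⟩
  · rcases two_primes hdeg hk h₁ h₂ hv' hne with rfl | rfl
    · exact ⟨fun h => absurd h hs₂, fun h => absurd hs₁ h⟩
    · exact absurd rfl hvv'

lemma no_real [IsTotallyComplex k] (P : (k →+* ℝ) → Prop) : Nat.card {φ : k →+* ℝ // P φ} = 0 := by
  have : IsEmpty {φ : k →+* ℝ // P φ} := by
    constructor
    rintro ⟨φ, -⟩
    have h1 : ComplexEmbedding.IsReal (Complex.ofRealHom.comp φ) := by
      rw [ComplexEmbedding.isReal_iff]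
      ext y
      simp [ComplexEmbedding.conjugate_coe_eq]
    have h2 := (InfinitePlace.isReal_mk_iff (φ := Complex.ofRealHom.comp φ)).mpr h1
    exact (InfinitePlace.not_isReal_iff_isComplex.mpr (IsTotallyComplex.isComplex _)) h2
  exact Nat.card_of_isEmpty

lemma card_places_quad [IsTotallyComplex k] (hdeg : Module.finrank ℚ k = 2) :
    Fintype.card (InfinitePlace k) = 1 := by
  have h := card_signature (k := k) (fun _ => True)
  rw [no_real, no_real, hdeg] at h
  omega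

/-- growth, all primes exceptional -/
theorem quad_all (p : ℕ) [Fact p.Prime] (hp2 : p ≠ 2) [IsTotallyComplex k]
    (hdeg : Module.finrank ℚ k = 2) (hk : Unr2 k) {a b : 𝓞 k} (hb0 : b ≠ 0)
    (hd0 : a ^ 2 - 4 * b ≠ 0) (h : ∀ v : HeightOneSpectrum (𝓞 k), (2 : 𝓞 k) ∈ v.asIdeal →
      SmallAt v a b) : Bound p k a b 2 1 := by
  have h1 := bound_curve p hp2 hk hb0 hd0
  have h2 : weight k a b = 2 * 2 := by
    rw [weight_eq, no_real, pow_zero, one_mul, Finset.filter_true_of_mem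
      (fun v hv => h v ((mem_above2 v).mp hv)), prod_norm hk (above2 k) mem_above2, hdeg]
    norm_num
  rw [h2, card_places_quad hdeg, pow_one] at h1
  refine Bound.cancel (c := 2) (by norm_num) ?_
  rw [one_mul]
  exact h1

/-- growth, no prime exceptional -/
theorem quad_none (p : ℕ) [Fact p.Prime] (hp2 : p ≠ 2) [IsTotallyComplex k]
    (hdeg : Module.finrank ℚ k = 2) (hk : Unr2 k) {a b : 𝓞 k} (hb0 : b ≠ 0)
    (hd0 : a ^ 2 - 4 * b ≠ 0) (h : ∀ v : HeightOneSpectrum (𝓞 k), (2 : 𝓞 k) ∈ v.asIdeal →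
      ¬ SmallAt v a b) : Bound p k (-2 * a) (a ^ 2 - 4 * b) 2 1 := by
  have h1 := bound_dual p hp2 hk hb0 hd0
  have h2 : weight k a b = 1 := by
    rw [weight_eq, no_real, pow_zero, one_mul, Finset.filter_false_of_mem
      (fun v hv => h v ((mem_above2 v).mp hv)), Finset.prod_empty]
  rw [h2, card_places_quad hdeg, pow_one] at h1
  exact h1

end

end H5IM
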