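import Pool.Agent.H73.IS.La
import Pool.Agent.H73.IS.I1

/-!
ROW XA1 (the Kummer character of a point, about 110 lines).  PROOF.
`S₀ = (x, y)`: `S₀ ≠ 0` because `S₀ + S₀` is affine, `y ≠ 0` because otherwise `S₀ + S₀ = 0` (`Affine.Point.add_self_of_Y_eq` or as in `La.lean`: `hR : R + R = 0`). Take `u = lu b x y = (x ^ 2 - b) / (2 * y)` (`lu` of `La.lean`).
`u ^ 2 = X`: the duplication formula: `X = slope ^ 2 - a - 2 x` with slope `(3 x^2 + 2 a x + b) / (2 y)` and `y ^ 2 = x (x^2 + a x + b)` (`field_simp; ring` after rewriting `y ^ 2`); `Affine.Point.add_self_of_Y_ne`, `Affine.slope_of_Y_ne`, `Affine.addX`; `IsTw` gives `a₁ = a₃ = a₆ = 0`.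
`τ u = sg (act h τ S₀ - S₀) u`: this is literally the part of the proof of `H73IS.la` (file `Pool/Agent/H73/IS/La.lean`) which treats `τ x`, `τ y` with `la_add`: `act h τ S₀ = (τ x, τ y) = S₀ + S`, `S = act h τ S₀ - S₀` two-torsion, `S = 0` or
`S = (e, 0)` with `e (e^2 + a e + b) = 0`, and `la_add` gives `lu b (τ x) (τ y) = (if e = 0 then 1 else -1) * lu b x y`, and `τ (lu b x y) = lu b (τ x) (τ y)` as `τ` fixes `b`.
`h2` of `la`: here `(act h τ S₀ - S₀) + (act h τ S₀ - S₀) = act h τ (S₀ + S₀) - (S₀ + S₀) = 0` since `S₀ + S₀` comes from `F` (`hfix`).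
-/

set_option autoImplicit false
open scoped Classical

open WeierstrassCurve IsDedekindDomain NumberField Pool.Agent.H10 H73IS

namespace H5IM

theorem XA1_dup {k : Type*} [Field k] {a b x y : k} (h2 : (2 : k) ≠ 0)
    (hxy : y ^ 2 = x * (x ^ 2 + a * x + b)) (hy : y ≠ 0) :
    lu b x y ^ 2 = ((3 * x ^ 2 + 2 * a * x + b) / (2 * y)) ^ 2 - a - x - x := by
  unfold lu
  have h4 : (4 : k) ≠ 0 := by
    have : (4 : k) = 2 * 2 := by norm_num
    rw [this]; exact mul_ne_zero h2 h2
  have hy2 : y ^ 2 ≠ 0 := pow_ne_zero 2 hy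
  have e1 : (2 * y) ^ 2 = 4 * y ^ 2 := by ring
  rw [div_pow, div_pow, e1, div_eq_iff (mul_ne_zero h4 hy2), sub_mul, sub_mul, sub_mul,
    div_mul_cancel₀ _ (mul_ne_zero h4 hy2), hxy]
  ring

theorem half_char {F Ω : Type*} [Field F] [Field Ω] [Algebra F Ω] [IsGalois F Ω] [IsAlgClosed Ω]
    {E : WeierstrassCurve Ω} (h : Inv F E) {a b : F}
    (hE : IsTw E (algebraMap F Ω a) (algebraMap F Ω b)) {X Y : Ω} (hXY : E.toAffine.Nonsingular X Y)
    {S₀ : E.toAffine.Point} (hS : S₀ + S₀ = Affine.Point.some X Y hXY)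
    (hfix : ∀ τ : Ω ≃ₐ[F] Ω, act h τ (S₀ + S₀) = S₀ + S₀) :
    ∃ u : Ω, u ^ 2 = X ∧
      ∀ τ : Ω ≃ₐ[F] Ω, τ u = ((sg (act h τ S₀ - S₀) : ℤ) : Ω) * u := by
  have hR : S₀ + S₀ ≠ 0 := by
    rw [hS]
    exact Affine.Point.some_ne_zero _
  have h2 : ∀ τ : Ω ≃ₐ[F] Ω, (act h τ S₀ - S₀) + (act h τ S₀ - S₀) = 0 := by
    intro τ
    have h3 := hfix τ
    rw [map_add] at h3
    have h4 : (act h τ S₀ - S₀) + (act h τ S₀ - S₀) = (act h τ S₀ + act h τ S₀) - (S₀ + S₀) := by
      abel
    rw [h4, h3, sub_self]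
  rcases S₀ with _ | ⟨x, y, hxy⟩
  · exact absurd (add_zero _) hR
  have heq : y ^ 2 = x * (x ^ 2 + algebraMap F Ω a * x + algebraMap F Ω b) := by
    have h3 := hxy.1
    rw [Affine.equation_iff, hE.a₁, hE.a₂, hE.a₃, hE.a₄, hE.a₆] at h3
    linear_combination h3
  have hy : y ≠ 0 := by
    rintro rfl
    apply hR
    apply Affine.Point.add_self_of_Y_eq
    rw [Affine.negY, hE.a₁, hE.a₃]
    ring
  obtain ⟨u, hu⟩ : ∃ u, u = lu (algebraMap F Ω b) x y := ⟨_, rfl⟩
  refine ⟨u, ?_, ?_⟩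
  · have hneg : E.toAffine.negY x y = -y := by
      rw [Affine.negY, hE.a₁, hE.a₃]
      ring
    have hyn : y ≠ E.toAffine.negY x y := by
      rw [hneg]
      intro h0
      have h3 : (2 : Ω) * y = 0 := by linear_combination h0
      exact hy ((mul_eq_zero.mp h3).resolve_left hE.two)
    rw [Affine.Point.add_self_of_Y_ne hyn, Affine.Point.some.injEq] at hS
    rw [← hS.1, hu, XA1_dup hE.two heq hy, Affine.slope_of_Y_ne rfl hyn, Affine.addX, hneg, hE.a₁,
      hE.a₂, hE.a₄]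
    have e1 : y - -y = 2 * y := by ring
    rw [e1]
    ring
  intro τ
  have hmap : ∀ w : F, τ (algebraMap F Ω w) = algebraMap F Ω w := τ.commutes
  have hτu : τ u = lu (algebraMap F Ω b) (τ x) (τ y) := by
    rw [hu]; unfold lu
    simp only [map_div₀, map_sub, map_pow, map_mul, map_ofNat, hmap]
  have hact : act h τ (Affine.Point.some x y hxy) = Affine.Point.some (τ x) (τ y) (by
      have := (Affine.map_nonsingular E.toAffine (τ : Ω →+* Ω).injective x y).mpr hxy
      have e := h τ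
      rw [← e]
      exact this) := rfl
  have h2τ := h2 τ
  obtain ⟨S, hS'⟩ : ∃ S, S = act h τ (Affine.Point.some x y hxy) - Affine.Point.some x y hxy :=
    ⟨_, rfl⟩
  rw [← hS'] at h2τ ⊢
  have hsum : act h τ (Affine.Point.some x y hxy) = Affine.Point.some x y hxy + S := by
    rw [hS']; abel
  rw [hact] at hsum
  rw [hτu, hu]
  rcases S with _ | ⟨e, t, het⟩
  · have e0 : (Affine.Point.zero : E.toAffine.Point) = 0 := rfl
    rw [e0, add_zero, Affine.Point.some.injEq] at hsum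
    rw [e0, sg_zero, hsum.1, hsum.2]
    simp
  · have ht : t = 0 := by
      have h3 : Affine.Point.some e t het = -Affine.Point.some e t het :=
        eq_neg_of_add_eq_zero_left h2τ
      rw [Affine.Point.neg_some, Affine.Point.some.injEq, Affine.negY, hE.a₁, hE.a₃] at h3
      have h4 : (2 : Ω) * t = 0 := by linear_combination h3.2
      exact (mul_eq_zero.mp h4).resolve_left hE.two
    subst ht
    have he : e * (e ^ 2 + algebraMap F Ω a * e + algebraMap F Ω b) = 0 := by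
      have h3 := het.1
      rw [Affine.equation_iff, hE.a₁, hE.a₂, hE.a₃, hE.a₄, hE.a₆] at h3
      linear_combination -h3
    have hxe : x ≠ e := by
      rintro rfl
      apply hy
      rw [he] at heq
      exact pow_eq_zero_iff (two_ne_zero) |>.mp heq
    rw [Affine.Point.add_of_X_ne hxe, Affine.Point.some.injEq] at hsum
    have hslope : E.toAffine.slope x e y 0 = y / (x - e) := by
      rw [Affine.slope_of_X_ne hxe, sub_zero]
    have hX : τ x = (y / (x - e)) ^ 2 - algebraMap F Ω a - x - e := by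
      rw [hsum.1, hslope, Affine.addX, hE.a₁, hE.a₂]
      ring
    have hY : τ y = -(y / (x - e) * (τ x - x) + y) := by
      rw [hsum.2, Affine.addY, Affine.negY, Affine.negAddY, hE.a₁, hE.a₃, hslope, hX, Affine.addX,
        hE.a₁, hE.a₂]
      ring
    have h5 := (la_add hE.two hE.hb hE.hd heq hy he hxe hX hY).1
    rw [sg_some]
    by_cases h0 : e = 0
    · rw [if_pos h0] at h5 ⊢
      simpa using h5
    · rw [if_neg h0] at h5 ⊢
      simpa using h5

end H5IM
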