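import Pool.Agent.H5.IM.XA1
import Pool.Agent.H73.IS.Mw

/-!
ROW XA2 (locally trivial two-torsion cocycles when the two Selmer groups come from points, about 170 lines).  PROOF.
Notation: `Ω = AlgebraicClosure K`, `hE := h.bc Ω : IsTw (V.baseChange Ω) ..`, `T = hE.T`, `P₀ = pm (algebraMap K Ω) rfl (some X Y hP)`, an affine point with `x`-coordinate `algebraMap K Ω X` (`pm_some`).
(1) `S₀` with `S₀ + S₀ = P₀` (`exists_two`, file `H73/IS/Res.lean`); `g σ = act σ S₀ - S₀` is in `Sl K V` (exactly as for `R'`, `f` in the proof of `mw_up`, file `H73/IS/Mw.lean`). `half_char` (row XA1): `u`, `u ^ 2 = algebraMap K Ω X`, `σ u = sg (g σ) u`, `u ≠ 0`.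
(2) `kum hE (inv_bc K V) ..` for `f`: `r ≠ 0`, `r ^ 2 = algebraMap d`, `σ r = sg (f σ) r`; `d ≠ 0`; `loc_a h` gives `FinQ`, `InfQ`, so by `HA`: `IsSquare d` or `IsSquare (X * d)`.
 If `d` is a square: `I1_fix` gives `σ r = r`, so `sg (f σ) = 1` (as at the end of `i1` in `H73/IS/I1.lean`): put `f' = f`, `S' = 0`.
 If `X * d` is a square: `(r * u) ^ 2 = algebraMap (X * d)`, so `σ (r u) = r u` (`I1_fix`), so `sg (f σ) sg (g σ) = 1`, and for `f' = f - g` (`Sl.sub`): `sg (f' σ) = sg (f σ) * sg (-g σ) = 1` (`sg_add`, `-g σ = g σ`). Put `S' = S₀`.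
(3) `f' ∈ Sl K V`, `sg (f' σ) = 1`, so `f' σ = 0 ∨ f' σ = T` (`sg_one hE`). `kum_T`: `r₁ ≠ 0`, `d₁`. `loc_b h` gives `FinQ`, `InfQ` for `(-2 a, a^2 - 4 b)`, so by `HB`: `IsSquare d₁`: then `σ r₁ = r₁`, so `f' σ ≠ T` (`r₁ = -r₁` is impossible), `f' = 0`, `S₁ = 0`.
 Or `IsSquare ((a^2-4b) * d₁)`: let `D ∈ Ω`, `D ^ 2 = algebraMap (a^2 - 4b)`, `D ≠ 0`; `(D r₁)^2 = algebraMap ((a^2-4b) d₁)` so `σ (D r₁) = D r₁` (`I1_fix`): `σ D = D` if `f' σ = 0`, `σ D = -D` if `f' σ = T`. `S₁ = (e, 0)` with `e = (-a + D)/2`, a root of `x^2 + a x + b`, nonsingular: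
 `e ≠ 0` since `e * ((-a - D)/2) = b ≠ 0`, and the derivative `3 e^2 + 2 a e + b = e (2 e + a) = e D ≠ 0`. `S₁ + S₁ = 0`. `act σ S₁ = (σ e, 0)`: equal to `S₁` if `σ D = D`. If `σ D = -D`: `σ e = e' = (-a - D)/2`, and `(e', 0) = (e, 0) + T` (T_add-lemma in `H73/IS/Lb.lean`:
 adding `T` to `(x, y)` gives `(b/x, -b y/x^2)`; `b / e = e'`), so `act σ S₁ - S₁ = T` (`act σ S₁ - S₁ = T`, as `-S₁ = S₁`).
(4) `S = S' + S₁`: `f σ = (act σ S' - S') + (act σ S₁ - S₁)`, `S + S = S' + S'`.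
-/

set_option autoImplicit false
open scoped Classical

open WeierstrassCurve IsDedekindDomain NumberField Pool.Agent.H10 H73IS

namespace H5IM

/-- The classes which are soluble everywhere come from the point `(X, Y)` and from `T`. -/
def SelPt (K : Type) [Field K] [NumberField K] (a b X : K) : Prop :=
  (∀ d : K, d ≠ 0 → FinQ K a b d → InfQ K a b d → IsSquare d ∨ IsSquare (X * d)) ∧
  (∀ d : K, d ≠ 0 → FinQ K (-2 * a) (a ^ 2 - 4 * b) d → InfQ K (-2 * a) (a ^ 2 - 4 * b) d →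
    IsSquare d ∨ IsSquare ((a ^ 2 - 4 * b) * d))

theorem XA2_units {Ω : Type*} [Field Ω] (h2 : (2 : Ω) ≠ 0) {u : ℤˣ} {r : Ω} (hr : r ≠ 0)
    (h : ((u : ℤ) : Ω) * r = r) : u = 1 := by
  rcases Int.units_eq_one_or u with h1 | h1
  · exact h1
  · exfalso
    rw [h1] at h
    push_cast at h
    have h3 : (2 : Ω) * r = 0 := by linear_combination -h
    rcases mul_eq_zero.1 h3 with h4 | h4
    · exact h2 h4
    · exact hr h4

theorem XA2_ne {K Ω : Type*} [Field K] [Field Ω] [Algebra K Ω] {r : Ω} {d : K} (hr : r ≠ 0)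
    (hd : r ^ 2 = algebraMap K Ω d) : d ≠ 0 := by
  rintro rfl
  rw [map_zero] at hd
  exact hr (pow_eq_zero_iff (two_ne_zero)|>.1 hd)

/-- Points of order two. -/
theorem XA2_tors {K Ω : Type*} [Field K] [Field Ω] [Algebra K Ω] {E : WeierstrassCurve Ω}
    (hi : Inv K E) {a b : K} (hE : IsTw E (algebraMap K Ω a) (algebraMap K Ω b)) {D : Ω}
    (hD : D ^ 2 = algebraMap K Ω (a ^ 2 - 4 * b)) : ∃ S₁ : E.toAffine.Point, S₁ + S₁ = 0 ∧
      ∀ σ : Ω ≃ₐ[K] Ω, (σ D = D → act hi σ S₁ = S₁) ∧ (σ D = -D → act hi σ S₁ = hE.T + S₁) := by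
  set α : Ω := algebraMap K Ω a with hα
  set β : Ω := algebraMap K Ω b with hβ
  have hD2 : D ^ 2 = α ^ 2 - 4 * β := by
    rw [hD, map_sub, map_pow, map_mul, map_ofNat]
  have h2 := hE.two
  have hD0 : D ≠ 0 := by
    rintro rfl
    apply hE.hd
    rw [← hD2]
    ring
  set e : Ω := (-α + D) / 2 with he
  set e' : Ω := (-α - D) / 2 with he'
  have hee : e * e' = β := by
    rw [he, he']
    field_simp
    linear_combination -hD2
  have he0 : e ≠ 0 := by
    intro h0
    apply hE.hb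
    rw [← hee, h0, zero_mul]
  have hq : e ^ 2 + α * e + β = 0 := by
    rw [he]
    field_simp
    linear_combination hD2
  have hns : E.toAffine.Nonsingular e 0 := by
    rw [Affine.nonsingular_iff, Affine.equation_iff, hE.a₁, hE.a₂, hE.a₃, hE.a₄, hE.a₆]
    refine ⟨by linear_combination -e * hq, Or.inl ?_⟩
    intro h0
    have h3 : e * D = 0 := by
      have h4 : 2 * e + α = D := by
        rw [he]
        field_simp
        ring
      rw [← h4]
      linear_combination -h0 - hq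
    rcases mul_eq_zero.1 h3 with h4 | h4
    · exact he0 h4
    · exact hD0 h4
  refine ⟨Affine.Point.some e 0 hns, ?_, fun σ => ⟨fun hσ => ?_, fun hσ => ?_⟩⟩
  · apply Affine.Point.add_self_of_Y_eq
    rw [Bas_negY hE, neg_zero]
  · unfold act
    rw [pm_some, Affine.Point.some.injEq]
    refine ⟨?_, map_zero _⟩
    change σ e = e
    rw [he, map_div₀, map_add, map_neg, hσ, hα, σ.commutes, map_ofNat]
  · unfold act
    have hT : hE.T = Affine.Point.some 0 0 hE.nonsing := rfl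
    have hs : E.toAffine.slope 0 e 0 0 = 0 := by
      rw [Affine.slope_of_X_ne he0.symm, sub_zero, zero_div]
    rw [pm_some, hT, Affine.Point.add_of_X_ne he0.symm, Affine.Point.some.injEq]
    constructor
    · change σ e = _
      rw [hs, Affine.addX, hE.a₁, hE.a₂, he, map_div₀, map_add, map_neg, hσ, hα, σ.commutes,
        map_ofNat]
      field_simp
      ring
    · change σ 0 = _
      rw [hs, map_zero, Affine.addY, Affine.negY, Affine.negAddY, hE.a₁, hE.a₃]
      ring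

theorem core_abs {K : Type} [Field K] [NumberField K] {V : WeierstrassCurve K} {a b : K}
    (h : IsTw V a b) {X Y : K} (hP : V.toAffine.Nonsingular X Y) (hX : X ≠ 0)
    (HS : SelPt K a b X) {f : Coch K V} (hf : Sl K V f) :
    ∃ S : (V.baseChange (AlgebraicClosure K)).toAffine.Point,
      (S + S = 0 ∨ S + S = pm (algebraMap K (AlgebraicClosure K)) rfl (.some X Y hP)) ∧
      ∀ σ, f σ = act (inv_bc K V) σ S - S := by
  have hE := h.bc (AlgebraicClosure K)
  set iK := inv_bc (Ω := AlgebraicClosure K) K V with hiK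
  have h2 : (2 : AlgebraicClosure K) ≠ 0 := two_ne_zero
  have hL : V.map (algebraMap K (AlgebraicClosure K)) = V.baseChange (AlgebraicClosure K) := rfl
  obtain ⟨P₀, hP₀⟩ : ∃ P₀ : (V.baseChange (AlgebraicClosure K)).toAffine.Point,
      P₀ = pm (algebraMap K (AlgebraicClosure K)) hL (Affine.Point.some X Y hP) := ⟨_, rfl⟩
  have hP₀' := hP₀
  rw [pm_some] at hP₀'
  have hPinv : ∀ τ, act iK τ P₀ = P₀ := by
    intro τ
    rw [hP₀]
    unfold act
    rw [pm_pm]
    exact pm_congr _ _ (fun x => τ.commutes x) _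
  obtain ⟨S₀, hS₀⟩ := exists_two hE P₀
  let g : Coch K V := fun τ => act iK τ S₀ - S₀
  have hg2 : ∀ τ, g τ + g τ = 0 := by
    intro τ
    have h1 := hPinv τ
    rw [← hS₀, map_add] at h1
    calc g τ + g τ = (act iK τ S₀ + act iK τ S₀) - (S₀ + S₀) := by simp only [g]; abel
      _ = 0 := by rw [h1, sub_self]
  have hcob : IsCobound K V g := (isCobound_iff _).mpr ⟨S₀, fun σ => rfl⟩
  have hZ : g ∈ ShaZ K V := shaB_le K V hcob
  have hg : Sl K V g := ⟨hZ.1, hZ.2, hg2⟩
  obtain ⟨u, hu, huτ⟩ := half_char iK hE _ (S₀ := S₀) (hS₀.trans hP₀') (by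
    intro τ
    rw [hS₀]
    exact hPinv τ)
  have hu' : u ^ 2 = algebraMap K (AlgebraicClosure K) X := hu
  have hu0 : u ≠ 0 := by
    rintro rfl
    apply hX
    apply (algebraMap K (AlgebraicClosure K)).injective
    rw [← hu', map_zero]
    ring
  -- the first step
  obtain ⟨f', S', hf', hsg, hSS, hff⟩ : ∃ (f' : Coch K V)
      (S' : (V.baseChange (AlgebraicClosure K)).toAffine.Point), Sl K V f' ∧
      (∀ σ, sg (f' σ) = 1) ∧ (S' + S' = 0 ∨ S' + S' = P₀) ∧
      ∀ σ, f σ = f' σ + (act iK σ S' - S') := by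
    obtain ⟨r, d, hr, hd, hs⟩ := kum hE iK ((isCocycle_iff f).1 hf.1) hf.2.2
    obtain ⟨hF, hI⟩ := loc_a h hf.2.1 hf.2.2 hr hd hs
    rcases HS.1 d (XA2_ne hr hd) hF hI with ⟨s, hs2⟩ | ⟨s, hs2⟩
    · refine ⟨f, 0, hf, fun σ => ?_, Or.inl (add_zero _), fun σ => ?_⟩
      · apply XA2_units h2 hr
        rw [← hs σ]
        exact I1_fix hd hs2 σ
      · rw [map_zero, sub_zero, add_zero]
    · have hru : (r * u) ^ 2 = algebraMap K (AlgebraicClosure K) (X * d) := by
        rw [mul_pow, hd, hu', map_mul, mul_comm]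
      have hru0 : r * u ≠ 0 := mul_ne_zero hr hu0
      refine ⟨f - g, S₀, hf.sub hg, fun σ => ?_, Or.inr hS₀, fun σ => ?_⟩
      · have e1 : -g σ = g σ := neg_eq_of_add_eq_zero_left (hg2 σ)
        rw [Pi.sub_apply, sub_eq_add_neg, e1, sg_add hE (hf.2.2 σ) (hg2 σ)]
        apply XA2_units h2 hru0
        have e2 := I1_fix hru hs2 σ
        rw [map_mul, hs σ, huτ σ] at e2
        push_cast
        calc ((sg (f σ) : ℤ) : AlgebraicClosure K) * ((sg (g σ) : ℤ) : AlgebraicClosure K) * (r * u)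
            = ((sg (f σ) : ℤ) : AlgebraicClosure K) * r *
              (((sg (act iK σ S₀ - S₀) : ℤ) : AlgebraicClosure K) * u) := by
              simp only [g]
              ring
          _ = r * u := e2
      · rw [Pi.sub_apply]
        change f σ = f σ - g σ + g σ
        abel
  -- the second step
  obtain ⟨S₁, hS1, hf1⟩ : ∃ S₁ : (V.baseChange (AlgebraicClosure K)).toAffine.Point,
      S₁ + S₁ = 0 ∧ ∀ σ, f' σ = act iK σ S₁ - S₁ := by
    have hv : ∀ σ, f' σ = 0 ∨ f' σ = hE.T := fun σ => sg_one hE (hf'.2.2 σ) (hsg σ)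
    obtain ⟨r, d, hr, hd, hs⟩ := kum_T hE iK ((isCocycle_iff f').1 hf'.1) hv
    obtain ⟨hF, hI⟩ := loc_b h hf'.2.1 hr hd (by
      intro σ
      rcases hv σ with h1 | h1
      · exact Or.inl ⟨h1, (hs σ).1 h1⟩
      · exact Or.inr ⟨h1, (hs σ).2 h1⟩)
    rcases HS.2 d (XA2_ne hr hd) hF hI with ⟨s, hs2⟩ | ⟨s, hs2⟩
    · refine ⟨0, add_zero _, fun σ => ?_⟩
      rw [map_zero, sub_zero]
      rcases hv σ with h1 | h1
      · exact h1
      · exfalso
        have e1 := (hs σ).2 h1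
        rw [I1_fix hd hs2 σ] at e1
        have h3 : (2 : AlgebraicClosure K) * r = 0 := by linear_combination e1
        rcases mul_eq_zero.1 h3 with h4 | h4
        · exact h2 h4
        · exact hr h4
    · obtain ⟨D, hD⟩ := IsAlgClosed.exists_pow_nat_eq
        (algebraMap K (AlgebraicClosure K) (a ^ 2 - 4 * b)) (n := 2) (by norm_num)
      obtain ⟨S₁, hS1, hact⟩ := XA2_tors iK hE hD
      have hDr : (D * r) ^ 2 = algebraMap K (AlgebraicClosure K) ((a ^ 2 - 4 * b) * d) := by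
        rw [mul_pow, hD, hd, map_mul]
      refine ⟨S₁, hS1, fun σ => ?_⟩
      have e2 := I1_fix hDr hs2 σ
      rw [map_mul] at e2
      rcases hv σ with h1 | h1
      · rw [(hs σ).1 h1] at e2
        rw [h1, (hact σ).1 (mul_right_cancel₀ hr e2), sub_self]
      · rw [(hs σ).2 h1] at e2
        have e3 : σ D = -D := by
          apply mul_right_cancel₀ hr
          linear_combination -e2
        rw [h1, (hact σ).2 e3, add_sub_cancel_right]
  refine ⟨S' + S₁, ?_, fun σ => ?_⟩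
  · have e1 : S' + S₁ + (S' + S₁) = S' + S' := by
      calc S' + S₁ + (S' + S₁) = (S' + S') + (S₁ + S₁) := by abel
        _ = S' + S' := by rw [hS1, add_zero]
    rw [hP₀] at hSS
    rw [e1]
    exact hSS
  · rw [hff, hf1, map_add]
    abel

end H5IM
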