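import Pool.Agent.H5.IM.XA2
import Pool.Agent.H10.Cong

/-!
ROW XB (vanishing and finiteness over the base, about 130 lines).  PROOF.
`sha2_abs`: first for a locally trivial cocycle `f` with `fun σ => f σ + f σ` a coboundary `∂Q'`: `Q + Q = Q'` (`exists_two`, file `H73/IS/Res.lean`), `f₁ = f - ∂Q` is in `Sl K V` (word for word as in `two_up`, file `H73/IS/Res.lean`), `core_abs` gives `f₁ = ∂S`, so `f = ∂(Q + S)` is a coboundary (`isCobound_iff`).
Then induction on `m` as at the end of `sha2Trivial_of_hasse` (file `H10/Hasse.lean`, multiples of locally trivial cocycles), or through `Sha K V`: every `x : Sha K V` with `2 • x = 0` is `0`, so every `x` with `2 ^ m • x = 0` is `0`.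
`mw_abs`: `R'` with `R' + R' = pm P`, `f σ = act σ R' - R'` in `Sl K V` (proof of `mw_up`, file `H73/IS/Mw.lean`); `core_abs`: `f σ = act σ S - S`; so `R' - S` is fixed by all `σ`, `R' - S = pm Q` (`pm_descent`, used in `mw_up`), and `pm P = R' + R' = pm (Q + Q) + (S + S)`, with `S + S = 0` or `pm P₀`;
injectivity of `pm` (`pm_injective`).
`fin_abs`: `V` is elliptic (`IsTw.isElliptic`, file `H73/IS/Asm.lean`), the group is finitely generated (`Pool.Agent.H11.mordell_weil`); apply `odd_exponent` (file `H10/OddIndex.lean`) with `A = AddSubgroup.zmultiples P₀`, `i` the inclusion: `P = Q + Q + i (0 or P₀)`: there is an odd `m` with `m • P ∈ zmultiples P₀` for all `P`,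
so `(n * m) • P = 0`; `finite_of_torsion` (used in `finite_up`, file `H10/Cong.lean`).
-/

set_option autoImplicit false
open scoped Classical

open WeierstrassCurve IsDedekindDomain NumberField Pool.Agent.H10 H73IS

namespace H5IM

variable {K : Type} [Field K] [NumberField K] {V : WeierstrassCurve K} {a b : K}

theorem XB_ell (h : IsTw V a b) : V.IsElliptic := by
  constructor
  rw [isUnit_iff_ne_zero]
  have h1 : V.Δ = 2 ^ 4 * (b ^ 2 * (a ^ 2 - 4 * b)) := by
    unfold WeierstrassCurve.Δ WeierstrassCurve.b₂ WeierstrassCurve.b₄ WeierstrassCurve.b₆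
      WeierstrassCurve.b₈
    rw [h.a₁, h.a₂, h.a₃, h.a₄, h.a₆]
    ring
  rw [h1]
  exact mul_ne_zero (pow_ne_zero 4 h.two) (mul_ne_zero (pow_ne_zero 2 h.hb) h.hd)

theorem XB_key (h : IsTw V a b) {X Y : K} (hP : V.toAffine.Nonsingular X Y) (hX : X ≠ 0)
    (HS : SelPt K a b X) {F : Coch K V} (hF : F ∈ ShaZ K V)
    (h2 : IsCobound K V (fun σ => F σ + F σ)) : IsCobound K V F := by
  obtain ⟨Q', hQ'⟩ := (isCobound_iff _).1 h2
  obtain ⟨Q, hQ⟩ := exists_two (h.bc (AlgebraicClosure K)) Q'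
  have hB : (fun σ => act (inv_bc K V) σ Q - Q : Coch K V) ∈ ShaZ K V :=
    shaB_le K V ((isCobound_iff _).2 ⟨Q, fun σ => rfl⟩)
  obtain ⟨f, hf⟩ : ∃ f : Coch K V, f = F - (fun σ => act (inv_bc K V) σ Q - Q) := ⟨_, rfl⟩
  have hfZ : f ∈ ShaZ K V := by
    rw [hf]
    exact (ShaZ K V).sub_mem hF hB
  have e1 : ∀ σ, f σ = F σ - (act (inv_bc K V) σ Q - Q) := by
    intro σ
    rw [hf]
    rfl
  have hf2 : ∀ σ, f σ + f σ = 0 := by
    intro σ
    rw [e1]
    have e2 : F σ - (act (inv_bc K V) σ Q - Q) + (F σ - (act (inv_bc K V) σ Q - Q)) =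
        (F σ + F σ) - ((act (inv_bc K V) σ Q + act (inv_bc K V) σ Q) - (Q + Q)) := by abel
    rw [e2, hQ' σ, ← map_add, hQ, sub_self]
  have hSl : Sl K V f := ⟨hfZ.1, hfZ.2, hf2⟩
  obtain ⟨S, -, hS⟩ := core_abs h hP hX HS hSl
  refine (isCobound_iff _).2 ⟨Q + S, fun σ => ?_⟩
  have e3 : F σ = f σ + (act (inv_bc K V) σ Q - Q) := by
    rw [e1]
    abel
  rw [e3, hS, map_add]
  abel

theorem sha2_abs (h : IsTw V a b) {X Y : K} (hP : V.toAffine.Nonsingular X Y) (hX : X ≠ 0)
    (HS : SelPt K a b X) : Sha2Trivial K V := by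
  rintro f hf hl ⟨m, hm⟩
  have hZ : f ∈ ShaZ K V := ⟨hf, hl⟩
  induction m with
  | zero => simpa using hm
  | succ m ih =>
    apply ih
    have h1 : (fun σ => (2 ^ m) • f σ : Coch K V) ∈ ShaZ K V := (ShaZ K V).nsmul_mem hZ (2 ^ m)
    apply XB_key h hP hX HS h1
    have h3 : (fun σ => (2 ^ m) • f σ + (2 ^ m) • f σ) = (fun σ => (2 ^ (m + 1)) • f σ) := by
      funext σ
      rw [← two_nsmul, ← mul_nsmul, pow_succ]
    rw [h3]
    exact hm

theorem mw_abs (h : IsTw V a b) {X Y : K} (hP : V.toAffine.Nonsingular X Y) (hX : X ≠ 0)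
    (HS : SelPt K a b X) (P : V.toAffine.Point) :
    ∃ Q : V.toAffine.Point, P = Q + Q ∨ P = (Q + Q) + .some X Y hP := by
  have hL : V.map (algebraMap K (AlgebraicClosure K)) = V.baseChange (AlgebraicClosure K) := rfl
  obtain ⟨R', hR'⟩ := exists_two (h.bc (AlgebraicClosure K))
    (pm (algebraMap K (AlgebraicClosure K)) hL P)
  have hPinv : ∀ τ, act (inv_bc (Ω := AlgebraicClosure K) K V) τ
      (pm (algebraMap K (AlgebraicClosure K)) hL P) =
      pm (algebraMap K (AlgebraicClosure K)) hL P := by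
    intro τ
    unfold act
    rw [pm_pm]
    exact pm_congr _ _ (fun x => τ.commutes x) _
  let f : Coch K V := fun τ => act (inv_bc K V) τ R' - R'
  have hf2 : ∀ τ, f τ + f τ = 0 := by
    intro τ
    have h1 := hPinv τ
    rw [← hR', map_add] at h1
    calc f τ + f τ = (act (inv_bc K V) τ R' + act (inv_bc K V) τ R') - (R' + R') := by
          simp only [f]
          abel
      _ = 0 := by rw [h1, sub_self]
  have hcob : IsCobound K V f := (isCobound_iff _).mpr ⟨R', fun σ => rfl⟩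
  have hZ : f ∈ ShaZ K V := shaB_le K V hcob
  have hf : Sl K V f := ⟨hZ.1, hZ.2, hf2⟩
  obtain ⟨S, hSS, hS⟩ := core_abs h hP hX HS hf
  obtain ⟨Q, hQ⟩ := pm_descent (V := V) hL (inv_bc K V) (R' - S) (by
    intro σ
    have e1 : act (inv_bc K V) σ R' - R' = act (inv_bc K V) σ S - S := hS σ
    rw [map_sub]
    have e2 : act (inv_bc K V) σ R' = act (inv_bc K V) σ S - S + R' := by
      rw [← e1]
      abel
    rw [e2]
    abel)
  have hkey : pm (algebraMap K (AlgebraicClosure K)) hL P =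
      pm (algebraMap K (AlgebraicClosure K)) hL (Q + Q) + (S + S) := by
    rw [map_add, hQ, ← hR']
    abel
  refine ⟨Q, ?_⟩
  rcases hSS with h0 | h0
  · left
    rw [h0, add_zero] at hkey
    exact pm_injective _ hL hkey
  · right
    have h0' : S + S = pm (algebraMap K (AlgebraicClosure K)) hL (.some X Y hP) := h0
    rw [h0', ← map_add] at hkey
    exact pm_injective _ hL hkey

theorem fin_abs (h : IsTw V a b) {X Y : K} (hP : V.toAffine.Nonsingular X Y) (hX : X ≠ 0)
    (HS : SelPt K a b X) {n : ℕ} (hn : n ≠ 0)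
    (htors : n • (Affine.Point.some X Y hP : V.toAffine.Point) = 0) :
    Finite V.toAffine.Point := by
  have hell := XB_ell h
  obtain ⟨m, hm, hmP⟩ := odd_exponent
    (AddSubgroup.zmultiples (Affine.Point.some X Y hP : V.toAffine.Point)).subtype
    (Pool.Agent.H11.mordell_weil V) (by
      intro P
      obtain ⟨Q, hQ⟩ := mw_abs h hP hX HS P
      rcases hQ with hQ | hQ
      · exact ⟨0, Q, by rw [map_zero, zero_add, hQ]⟩
      · refine ⟨⟨_, AddSubgroup.mem_zmultiples _⟩, Q, ?_⟩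
        rw [hQ, add_comm]
        rfl)
  refine finite_of_torsion (m := n * m) (mul_ne_zero hn (by rintro rfl; simp at hm)) (fun P => ?_)
  obtain ⟨⟨A, hA⟩, hA2⟩ := hmP P
  obtain ⟨z, hz⟩ := AddSubgroup.mem_zmultiples_iff.1 hA
  have hA3 : m • P = A := hA2
  rw [mul_nsmul', hA3, ← hz, ← smul_comm, htors, smul_zero]

end H5IM
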