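import Pool.Agent.H73.IS.Asm
import Pool.Agent.H10.Cong

/-!
ROW XC (going up, about 50 lines).  PROOF.
Copy `sha2Trivial_up` and `finite_up` (file `Pool/Agent/H10/Cong.lean`) with `sha_bijOn` replaced by `H73IS.bijOn`, `mw_odd` by `H73IS.mw_odd` (file `H73/IS/Asm.lean`), `(h.up hV).isElliptic` from `IsTw.isElliptic`. In `finite_upQ` the group over `K` is finite by hypothesis, so it is killed by
`Nat.card V.toAffine.Point` (`card_nsmul_eq_zero'`, `Nat.card_pos.ne'`).
-/

set_option autoImplicit false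
open scoped Classical

open WeierstrassCurve IsDedekindDomain NumberField Pool.Agent.H10 H73IS

namespace H5IM

variable {K L : Type} [Field K] [NumberField K] [Field L] [NumberField L] [Algebra K L]
  [IsGalois K L] {V : WeierstrassCurve K} {V' : WeierstrassCurve L} {a b : K}

theorem sha2Trivial_upQ (hodd : Odd (Module.finrank K L)) (h : IsTw V a b)
    (hV : V.map (algebraMap K L) = V')
    (H : NewTrivQ K L (algebraMap K L a) (algebraMap K L b))
    (H' : NewTrivQ K L (algebraMap K L (-2 * a)) (algebraMap K L (a ^ 2 - 4 * b)))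
    (H0 : Sha2Trivial K V) : Sha2Trivial L V' := by
  intro g hg hl hm
  let G : ShaZ L V' := ⟨g, hg, hl⟩
  obtain ⟨x, hx, hxg⟩ := (H73IS.bijOn hodd h hV H H').2.2 ((mk_mem_iff' G).mpr hm)
  obtain ⟨f, rfl⟩ := Sha.mk_surjective x
  have h1 : IsCobound K V f.1 := H0 f.1 f.2.1 f.2.2 ((mk_mem_iff' f).mp hx)
  have h2 : Sha.mk f = 0 := (Sha.mk_eq_zero f).mpr h1
  rw [h2, map_zero] at hxg
  exact (Sha.mk_eq_zero G).mp hxg.symm

theorem finite_upQ (hodd : Odd (Module.finrank K L)) (h : IsTw V a b)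
    (hV : V.map (algebraMap K L) = V')
    (H : NewTrivQ K L (algebraMap K L a) (algebraMap K L b))
    (H' : NewTrivQ K L (algebraMap K L (-2 * a)) (algebraMap K L (a ^ 2 - 4 * b)))
    (H0 : Finite V.toAffine.Point) : Finite V'.toAffine.Point := by
  obtain ⟨m, hm, hP⟩ := H73IS.mw_odd hodd h hV H H'
  have := (h.up hV).isElliptic
  refine finite_of_torsion (m := Nat.card V.toAffine.Point * m)
    (mul_ne_zero Nat.card_pos.ne' (by rintro rfl; simp at hm)) (fun P => ?_)
  obtain ⟨Q, hQ'⟩ := hP P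
  rw [mul_nsmul', hQ', ← map_nsmul, card_nsmul_eq_zero', map_zero]

end H5IM
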