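import Pool.Agent.H73.IS.Bas
import Pool.Agent.H10.StarLoc

/-!
ROW XD1 (local insolubility at two, about 170 lines).  PROOF.
`V` a valuation with `V 2 = exp (-1)` and residue field with two elements (`hres`), `π^2 - π + 2 = 0`, `V π < 1`. Tools: V-lemmas of `H10/StarLoc.lean` (`V_add_le`, `V_sub_lt`, `V_four`, `V_mul_le`, ...).
(0) `V (1 - π) = 1`, `π (1 - π) = 2`, so `V π = exp (-1)`; `(π - 6)(π + 5) = -32`, `V (π + 5) = 1` (`5 = 1 + 4`), so `V (π - 6) = exp (-5)`; `π + 2 = -π^3` (ring from the equation: `π^3 = π^2 - 2π = -π - 2`), so `V (π + 2) = exp (-3)`; `π^2 - 4 = -π^5`, `V = exp (-5)`.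
 For units: if `V u = 1` then `u = 1 + 2 t`, `V t ≤ 1` (`hres`), `u^2 - 1 = 4 t (t + 1)` and `V (t (t+1)) < 1` (`hres` for `t`), so `V (u^2 - 1) ≤ exp (-3)` (discreteness: `V x < 1 → V x ≤ exp (-1)`, `le_exp_neg_one`), `V (u^4 - 1) ≤ exp (-4)`.
(1) Normalise the point: divide `M, e` by the one with the larger valuation, call it `s` (`N` by `s^2`): so `V M ≤ 1`, `V e ≤ 1` and one of them is `1`.
(2) `insol_neg` (`d = -1`): `N^2 = -M^4 - 2 π M^2 e^2 + π^5 e^4`.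
 A. `V M = 1`. Then `V (N^2) = 1`, `V N = 1`, `V (N^2 - 1) ≤ exp (-3)`. If `V e = 1`: `N^2 + 13 = -(M^4 - 1) - 2 π ((M e)^2 - 1) - 2 (π - 6) + π^5 e^4`, all terms `≤ exp (-3)`; so `V 14 = V (N^2 + 13 - (N^2 - 1)) ≤ exp (-3)`, but `V 14 = exp (-1)` (`7 = 1 + 2*3` unit). If `V e < 1`: `V (2 π M^2 e^2) ≤ exp (-4)`,
  so `V (N^2 + 1) ≤ exp (-3)` and `V 2 ≤ exp (-3)`, contradiction.
 B. `V M < 1`, `V e = 1`: `M = 2 m`, `V m ≤ 1`. `N^2 = -8 m^2 (2 m^2 + π e^2) + π^5 e^4`. If `V m = 1`: `2 m^2 + π e^2 = (2 + π) + 2 (m^2 - 1) + π (e^2 - 1)`, `V = exp (-3)`, so the first term has valuation `exp (-6)`. If `V m < 1`: `V (m^2) ≤ exp (-2)`, `V (2 m^2 + π e^2) ≤ exp (-1)`, so the first term has valuation `≤ exp (-6)`.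
  So `V (N^2) = exp (-5)`, odd: contradiction (`log` of a square is even).
-/

set_option autoImplicit false
open scoped Classical

open WithZero Pool.Agent.H10 H73IS

namespace H5IM

theorem XD1_mul {F : Type*} [Field F] {V : Valuation F (WithZero (Multiplicative ℤ))}
    {x y : F} {i j : ℤ} (hx : V x ≤ exp i) (hy : V y ≤ exp j) : V (x * y) ≤ exp (i + j) := by
  rw [map_mul, exp_add]
  exact mul_le_mul' hx hy

theorem XD1_mono {F : Type*} [Field F] {V : Valuation F (WithZero (Multiplicative ℤ))}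
    {x : F} {i j : ℤ} (hx : V x ≤ exp i) (h : i ≤ j) : V x ≤ exp j :=
  hx.trans (exp_le_exp.2 h)

theorem XD1_half {F : Type*} [Field F] {V : Valuation F (WithZero (Multiplicative ℤ))}
    (h2 : V 2 = exp (-1 : ℤ)) {x : F} (hx : V x ≤ exp (-1 : ℤ)) :
    ∃ t : F, x = 2 * t ∧ V t ≤ 1 := by
  have h20 : (2 : F) ≠ 0 := by
    intro h
    rw [h, map_zero] at h2
    exact exp_ne_zero h2.symm
  refine ⟨x / 2, by field_simp, ?_⟩
  rw [map_div₀, h2]
  exact div_le_one_of_le₀ hx zero_le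

/-- squares of units -/
theorem XD1_sq {F : Type*} [Field F] {V : Valuation F (WithZero (Multiplicative ℤ))}
    (h2 : V 2 = exp (-1 : ℤ)) (hres : ∀ x, V x ≤ 1 → V x < 1 ∨ V (x - 1) < 1) {u : F}
    (hu : V u = 1) : V (u ^ 2 - 1) ≤ exp (-3 : ℤ) := by
  have h1 : V (u - 1) < 1 := (hres u hu.le).resolve_left (by rw [hu]; exact lt_irrefl _)
  obtain ⟨t, ht, ht1⟩ := XD1_half h2 (le_exp_neg_one h1)
  have h3 : u ^ 2 - 1 = 4 * (t * (t + 1)) := by
    have : u = 1 + 2 * t := by linear_combination ht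
    rw [this]
    ring
  have h4 : V (t * (t + 1)) < 1 := by
    rcases hres t ht1 with h | h
    · rw [mul_comm]
      refine V_mul_lt ?_ h
      exact V_add_le ht1 (by rw [map_one])
    · refine V_mul_lt ht1 ?_
      have h5 : t + 1 = (t - 1) + 2 * 1 := by ring
      rw [h5]
      exact V_add_lt h (V_two_mul_lt h2 (by rw [map_one]))
  rw [h3]
  exact XD1_mul (i := -2) (j := -1) (V_four h2).le (le_exp_neg_one h4)

section

variable {F : Type*} [Field F] {V : Valuation F (WithZero (Multiplicative ℤ))}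

theorem XD1_pi (h2 : V 2 = exp (-1 : ℤ)) {π : F} (hπ : π ^ 2 - π + 2 = 0) (hlt : V π < 1) :
    V π = exp (-1 : ℤ) := by
  have h1 : V (1 - π) = 1 := by
    rw [sub_eq_add_neg]
    exact Valuation.map_one_add_of_lt V (by rwa [Valuation.map_neg])
  have h3 : π * (1 - π) = 2 := by linear_combination -hπ
  have h4 := congrArg V h3
  rw [map_mul, h1, mul_one, h2] at h4
  exact h4

theorem XD1_pi6 (h2 : V 2 = exp (-1 : ℤ)) {π : F} (hπ : π ^ 2 - π + 2 = 0) (hlt : V π < 1) :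
    V (π - 6) = exp (-5 : ℤ) := by
  have h4 : V (4 : F) < 1 := by
    rw [V_four h2, ← exp_zero, exp_lt_exp]
    norm_num
  have h1 : V (π + 5) = 1 := by
    have : π + 5 = 1 + (π + 4) := by ring
    rw [this]
    exact Valuation.map_one_add_of_lt V (V_add_lt hlt h4)
  have h3 : (π - 6) * (π + 5) = -(2 ^ 5) := by linear_combination hπ
  have h5 := congrArg V h3
  rw [map_mul, h1, mul_one, Valuation.map_neg, map_pow, h2, ← exp_nsmul] at h5
  rw [h5]
  norm_num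

theorem XD1_pi5 (h2 : V 2 = exp (-1 : ℤ)) {π : F} (hπ : π ^ 2 - π + 2 = 0) (hlt : V π < 1) :
    V (π ^ 5) = exp (-5 : ℤ) := by
  rw [map_pow, XD1_pi h2 hπ hlt, ← exp_nsmul]
  norm_num

/-- the first case -/
theorem XD1_A (h2 : V 2 = exp (-1 : ℤ)) (hres : ∀ x, V x ≤ 1 → V x < 1 ∨ V (x - 1) < 1) {π : F}
    (hπ : π ^ 2 - π + 2 = 0) (hlt : V π < 1) {e N : F} (he : V e ≤ 1)
    (h : N ^ 2 = -1 - 2 * π * e ^ 2 + π ^ 5 * e ^ 4) : False := by
  have hp := XD1_pi h2 hπ hlt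
  have h6 := XD1_pi6 h2 hπ hlt
  have h5 := XD1_pi5 h2 hπ hlt
  have he2 : V (e ^ 2) ≤ exp (0 : ℤ) := by
    rw [map_pow, exp_zero]
    exact pow_le_one₀ zero_le he
  have he4 : V (e ^ 4) ≤ exp (0 : ℤ) := by
    rw [map_pow, exp_zero]
    exact pow_le_one₀ zero_le he
  have t5 : V (π ^ 5 * e ^ 4) ≤ exp (-5 : ℤ) := XD1_mul h5.le he4
  have t2p : V (2 * π) ≤ exp (-2 : ℤ) := XD1_mul h2.le hp.le
  have hN : V N = 1 := by
    have h7 : V (N ^ 2) = 1 := by
      have h8 : N ^ 2 = -(1 + (2 * π * e ^ 2 - π ^ 5 * e ^ 4)) := by rw [h]; ring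
      rw [h8, Valuation.map_neg]
      apply Valuation.map_one_add_of_lt
      have h9 : V (2 * π * e ^ 2) ≤ exp (-2 : ℤ) := XD1_mul t2p he2
      refine (V_sub_le h9 (XD1_mono t5 (by norm_num))).trans_lt ?_
      rw [← exp_zero, exp_lt_exp]
      norm_num
    rw [map_pow] at h7
    exact (pow_eq_one_iff_of_nonneg zero_le (by norm_num)).1 h7
  have hN2 := XD1_sq h2 hres hN
  rcases lt_or_eq_of_le he with hlt1 | heq
  · have h7 : V (2 * π * e ^ 2) ≤ exp (-4 : ℤ) := XD1_mul t2p (V_sq_le hlt1)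
    have h8 : V (N ^ 2 + 1) ≤ exp (-3 : ℤ) := by
      have h9 : N ^ 2 + 1 = π ^ 5 * e ^ 4 - 2 * π * e ^ 2 := by rw [h]; ring
      rw [h9]
      exact V_sub_le (XD1_mono t5 (by norm_num)) (XD1_mono h7 (by norm_num))
    have h9 := V_sub_le h8 hN2
    have h10 : N ^ 2 + 1 - (N ^ 2 - 1) = 2 := by ring
    rw [h10, h2, exp_le_exp] at h9
    norm_num at h9
  · have h7 : V (2 * π * (e ^ 2 - 1)) ≤ exp (-5 : ℤ) := XD1_mul t2p (XD1_sq h2 hres heq)
    have h7' : V (2 * (π - 6)) ≤ exp (-6 : ℤ) := XD1_mul h2.le h6.le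
    have h8 : V (N ^ 2 + 13) ≤ exp (-3 : ℤ) := by
      have h9 : N ^ 2 + 13 = π ^ 5 * e ^ 4 - 2 * π * (e ^ 2 - 1) - 2 * (π - 6) := by rw [h]; ring
      rw [h9]
      exact V_sub_le (V_sub_le (XD1_mono t5 (by norm_num)) (XD1_mono h7 (by norm_num)))
        (XD1_mono h7' (by norm_num))
    have h9 := V_sub_le h8 hN2
    have h10 : N ^ 2 + 13 - (N ^ 2 - 1) = ((14 : ℤ) : F) := by push_cast; ring
    rw [h10, V_two_mod_four h2 (by norm_num), exp_le_exp] at h9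
    norm_num at h9

/-- the second case -/
theorem XD1_B (h2 : V 2 = exp (-1 : ℤ)) (hres : ∀ x, V x ≤ 1 → V x < 1 ∨ V (x - 1) < 1) {π : F}
    (hπ : π ^ 2 - π + 2 = 0) (hlt : V π < 1) {M N : F} (hM : V M < 1)
    (h : N ^ 2 = -M ^ 4 - 2 * π * M ^ 2 + π ^ 5) : False := by
  have hp := XD1_pi h2 hπ hlt
  have h5 := XD1_pi5 h2 hπ hlt
  obtain ⟨m, hm, hm1⟩ := XD1_half h2 (le_exp_neg_one hM)
  have h8 : V (8 : F) ≤ exp (-3 : ℤ) := by
    have : (8 : F) = 4 * 2 := by norm_num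
    rw [this]
    exact XD1_mul (V_four h2).le h2.le
  have hp2 : V (2 + π) ≤ exp (-3 : ℤ) := by
    have : 2 + π = -(π ^ 3) := by linear_combination (π + 1) * hπ
    rw [this, Valuation.map_neg, map_pow, hp, ← exp_nsmul]
    norm_num
  have key : V (8 * m ^ 2 * (2 * m ^ 2 + π)) ≤ exp (-6 : ℤ) := by
    rcases lt_or_eq_of_le hm1 with hlt1 | heq
    · have a1 : V (m ^ 2) ≤ exp (-2 : ℤ) := V_sq_le hlt1
      have a2 : V (2 * m ^ 2 + π) ≤ exp (-1 : ℤ) :=
        V_add_le (XD1_mono (XD1_mul h2.le a1) (by norm_num)) hp.le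
      exact XD1_mul (XD1_mul h8 a1) a2
    · have a1 : V (m ^ 2) ≤ exp (0 : ℤ) := by
        rw [map_pow, heq, one_pow, exp_zero]
      have a2 : V (2 * (m ^ 2 - 1)) ≤ exp (-4 : ℤ) := XD1_mul h2.le (XD1_sq h2 hres heq)
      have a3 : V (2 * m ^ 2 + π) ≤ exp (-3 : ℤ) := by
        have : 2 * m ^ 2 + π = (2 + π) + 2 * (m ^ 2 - 1) := by ring
        rw [this]
        exact V_add_le hp2 (XD1_mono a2 (by norm_num))
      exact XD1_mul (XD1_mul h8 a1) a3
  have h9 : N ^ 2 = π ^ 5 - 8 * m ^ 2 * (2 * m ^ 2 + π) := by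
    rw [h, hm]
    ring
  have h10 : V (N ^ 2) = exp (-5 : ℤ) := by
    rw [h9, ← h5]
    apply Valuation.map_sub_eq_of_lt_left
    rw [h5]
    exact key.trans_lt (exp_lt_exp.2 (by norm_num))
  have hN0 : V N ≠ 0 := by
    intro h0
    rw [map_pow, h0, zero_pow two_ne_zero] at h10
    exact exp_ne_zero h10.symm
  rw [map_pow, ← exp_log hN0, ← exp_nsmul, exp_inj] at h10
  simp only [nsmul_eq_mul] at h10
  push_cast at h10
  omega

end

theorem insol_neg {F : Type*} [Field F] {V : Valuation F (WithZero (Multiplicative ℤ))}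
    (h2 : V 2 = exp (-1 : ℤ)) (hres : ∀ x, V x ≤ 1 → V x < 1 ∨ V (x - 1) < 1) {π : F}
    (hπ : π ^ 2 - π + 2 = 0) (hlt : V π < 1) : ¬ QPt (-2 * π) (π ^ 2 - 4) (-1) := by
  rintro ⟨M, e, N, hne, h⟩
  have hb : π ^ 2 - 4 = -π ^ 5 := by
    linear_combination (π ^ 3 + π ^ 2 - π - 2) * hπ
  rw [hb] at h
  rcases le_or_gt (V e) (V M) with hle | hgt
  · have hM0 : M ≠ 0 := by
      rintro rfl
      rw [map_zero, le_zero_iff, map_eq_zero] at hle
      rcases hne with h0 | h0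
      · exact h0 rfl
      · exact h0 hle
    refine XD1_A h2 hres hπ hlt (e := e / M) (N := N / M ^ 2) ?_ ?_
    · rw [map_div₀]
      exact div_le_one_of_le₀ hle zero_le
    · field_simp
      linear_combination -h
  · have he0 : e ≠ 0 := by
      rintro rfl
      rw [map_zero] at hgt
      exact absurd hgt not_lt_zero
    refine XD1_B h2 hres hπ hlt (M := M / e) (N := N / e ^ 2) ?_ ?_
    · rw [map_div₀]
      have hV : 0 < V e := lt_of_le_of_ne zero_le (Ne.symm ((map_ne_zero V).2 he0))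
      rw [div_lt_one₀ hV]
      exact hgt
    · field_simp
      linear_combination -h

end H5IM
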