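import Pool.Agent.H73.IS.Bas
import Pool.Agent.H10.StarLoc

/-!
ROW XD2 (local insolubility at two, about 170 lines).  PROOF.
`V` a valuation with `V 2 = exp (-1)` and residue field with two elements (`hres`), `π^2 - π + 2 = 0`, `V π < 1`. Tools: V-lemmas of `H10/StarLoc.lean` (`V_add_le`, `V_sub_lt`, `V_four`, `V_mul_le`, ...).
(0) `V (1 - π) = 1`, `π (1 - π) = 2`, so `V π = exp (-1)`; `π^2 - 4 = -π^5` (ring from the equation); `ρ := π / 2`, `V ρ = 1`, and `ρ = 3 + 16 ε`, `V ε ≤ 1`: `(π - 6)(π + 5) = -32`, `V (π + 5) = 1`, so `V (π - 6) = exp (-5)`.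
 For units: if `V u = 1` then `u = 1 + 2 t`, `V t ≤ 1` (`hres`), `u^2 - 1 = 4 t (t + 1)` and `V (t (t+1)) < 1` (`hres` for `t`), so `V (u^2 - 1) ≤ exp (-3)` (discreteness: `le_exp_neg_one`), `V (u^4 - 1) ≤ exp (-4)`.
(1) Normalise the point: divide `M, e` by the one with the larger valuation, call it `s` (`N` by `s^2`): so `V M ≤ 1`, `V e ≤ 1` and one of them is `1`. `d = π`: the equation divided by `π`: `N^2 = π M^4 - 2 π M^2 e^2 - π^4 e^4`.
(2) A. `V M = 1`: `V (π M^4) = exp (-1)`, the other two terms are `≤ exp (-2)`: `V (N^2) = exp (-1)`, odd: contradiction (`log` of a square is even).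
 B. `V M < 1`, `V e = 1`: `M = 2 m`, `V m ≤ 1`, `N^2 = 16 π m^4 - 8 π m^2 e^2 - π^4 e^4 = 16 (π m^4 - ρ m^2 e^2 - ρ^4 e^4)`.
  If `V m = 1`: `π m^4 - ρ m^2 e^2 - ρ^4 e^4 = (6 - 3 - 1) + (terms of valuation ≤ exp (-3))`: `π m^4 - 6`: `V ≤ exp (-4)`.. (`π (m^4 - 1) + (π - 6)`); `ρ m^2 e^2 - 3 = ρ ((m e)^2 - 1) + (ρ - 3)`; `ρ^4 - 1`: `V (ρ^4 - 1) ≤ exp (-4)` (`ρ` is a unit) so `ρ^4 e^4 - 1`: `≤ exp (-4)`. So the bracket has valuation `V 2 = exp (-1)` and
  `V (N^2) = exp (-5)`: contradiction.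
  If `V m < 1`: `m = 2 m'`, `V m' ≤ 1`, the bracket is `16 π m'^4 - 4 ρ m'^2 e^2 - ρ^4 e^4`, a unit, and equals `n^2` for `n = N / 4`, `V n = 1`, `V (n^2 - 1) ≤ exp (-3)`. If `V m' = 1`: the bracket is `-4 * 3 - 1` modulo valuation `≤ exp (-3)` (`4 ρ (m'^2 e^2 - 1)`, `4 (ρ - 3)`, `16 ..`), so `V (-13 - 1) = V 14 ≤ exp (-3)`, contradiction.
  If `V m' < 1`: the bracket is `-1` modulo `≤ exp (-3)`: `V 2 ≤ exp (-3)`, contradiction.
-/

set_option autoImplicit false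
open scoped Classical

open WithZero Pool.Agent.H10 H73IS

namespace H5IM

theorem XD2_mul {F : Type*} [Field F] {V : Valuation F (WithZero (Multiplicative ℤ))}
    {x y : F} {a b c : ℤ} (hx : V x ≤ exp a) (hy : V y ≤ exp b) (h : a + b ≤ c) :
    V (x * y) ≤ exp c := by
  rw [map_mul]
  refine (mul_le_mul' hx hy).trans ?_
  rw [← exp_add, exp_le_exp]
  exact h

theorem XD2_mono {F : Type*} [Field F] {V : Valuation F (WithZero (Multiplicative ℤ))}
    {x : F} {a c : ℤ} (hx : V x ≤ exp a) (h : a ≤ c) : V x ≤ exp c :=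
  hx.trans (exp_le_exp.2 h)

theorem XD2_odd {F : Type*} [Field F] {V : Valuation F (WithZero (Multiplicative ℤ))}
    {x : F} {a : ℤ} (hx : V (x ^ 2) = exp a) (h : a % 2 = 1) : False := by
  have h0 : V x ≠ 0 := by
    intro h0
    rw [map_pow, h0, zero_pow two_ne_zero] at hx
    exact exp_ne_zero hx.symm
  rw [map_pow, ← exp_log h0, pow_two, ← exp_add, exp_inj] at hx
  omega

theorem XD2_unit {F : Type*} [Field F] {V : Valuation F (WithZero (Multiplicative ℤ))}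
    (h2 : V 2 = exp (-1 : ℤ)) (hres : ∀ x, V x ≤ 1 → V x < 1 ∨ V (x - 1) < 1) {u : F}
    (hu : V u = 1) : V (u ^ 2 - 1) ≤ exp (-3 : ℤ) := by
  have h20 : (2 : F) ≠ 0 := by
    intro h
    rw [h, map_zero] at h2
    exact exp_ne_zero h2.symm
  have h1 : V (u - 1) < 1 := by
    rcases hres u hu.le with h | h
    · rw [hu] at h
      exact absurd h (lt_irrefl _)
    · exact h
  have ht : V ((u - 1) / 2) ≤ 1 := by
    rw [map_div₀, h2, div_le_iff₀ exp_pos, one_mul]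
    exact le_exp_neg_one h1
  have ht2 : V ((u - 1) / 2 * ((u - 1) / 2 + 1)) < 1 := by
    have h12 : V (2 : F) < 1 := by
      rw [h2]
      exact exp_neg_lt_one
    rcases hres _ ht with h | h
    · rw [mul_comm]
      exact V_mul_lt (V_add_le ht (by rw [map_one])) h
    · refine V_mul_lt ht ?_
      have e : (u - 1) / 2 + 1 = ((u - 1) / 2 - 1) + 2 := by ring
      rw [e]
      exact V_add_lt h h12
  have e : u ^ 2 - 1 = 4 * ((u - 1) / 2 * ((u - 1) / 2 + 1)) := by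
    field_simp
    ring
  rw [e]
  exact XD2_mul (V_four h2).le (le_exp_neg_one ht2) (by norm_num)

theorem XD2_unit4 {F : Type*} [Field F] {V : Valuation F (WithZero (Multiplicative ℤ))}
    (h2 : V 2 = exp (-1 : ℤ)) (hres : ∀ x, V x ≤ 1 → V x < 1 ∨ V (x - 1) < 1) {u : F}
    (hu : V u = 1) : V (u ^ 4 - 1) ≤ exp (-4 : ℤ) := by
  have h1 := XD2_unit h2 hres hu
  have e : u ^ 4 - 1 = (u ^ 2 - 1) * ((u ^ 2 - 1) + 2) := by ring
  rw [e]
  exact XD2_mul h1 (V_add_le (XD2_mono h1 (by norm_num)) h2.le) (by norm_num)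

theorem XD2_two {F : Type*} [Field F] {V : Valuation F (WithZero (Multiplicative ℤ))}
    (h2 : V 2 = exp (-1 : ℤ)) {s : F} (hs : V s ≤ exp (-3 : ℤ)) : V (2 + s) = exp (-1 : ℤ) := by
  rw [← h2]
  refine Valuation.map_add_eq_of_lt_left V ?_
  rw [h2]
  exact hs.trans_lt (by rw [exp_lt_exp]; norm_num)

theorem XD2_main {F : Type*} [Field F] {V : Valuation F (WithZero (Multiplicative ℤ))}
    (h2 : V 2 = exp (-1 : ℤ)) (hres : ∀ x, V x ≤ 1 → V x < 1 ∨ V (x - 1) < 1) {π ρ m n : F}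
    (hp : V π = exp (-1 : ℤ)) (hρ : V ρ = 1) (h3 : V (ρ - 3) ≤ exp (-4 : ℤ)) (hπρ : π = 2 * ρ)
    (hm : V m ≤ 1) (hn : n ^ 2 = π * m ^ 4 - ρ * m ^ 2 - ρ ^ 4) : False := by
  have h20 : (2 : F) ≠ 0 := by
    intro h
    rw [h, map_zero] at h2
    exact exp_ne_zero h2.symm
  have hρ4 := XD2_unit4 h2 hres hρ
  have hρ0 : V ρ ≤ exp (0 : ℤ) := by rw [hρ, exp_zero]
  rcases hm.eq_or_lt with hm1 | hm1
  · have hm2 := XD2_unit h2 hres hm1
    have hm4 := XD2_unit4 h2 hres hm1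
    have e : n ^ 2 = 2 + (π * (m ^ 4 - 1) + 2 * (ρ - 3) - ρ * (m ^ 2 - 1) - (ρ - 3) -
        (ρ ^ 4 - 1)) := by
      rw [hn, hπρ]
      ring
    have h5 : V (n ^ 2) = exp (-1 : ℤ) := by
      rw [e]
      refine XD2_two h2 ?_
      refine V_sub_le (V_sub_le (V_sub_le (V_add_le ?_ ?_) ?_) ?_) ?_
      · exact XD2_mul hp.le hm4 (by norm_num)
      · exact XD2_mul h2.le h3 (by norm_num)
      · exact XD2_mul hρ0 hm2 (by norm_num)
      · exact XD2_mono h3 (by norm_num)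
      · exact XD2_mono hρ4 (by norm_num)
    exact XD2_odd h5 (by norm_num)
  · have hm' : V (m / 2) ≤ 1 := by
      rw [map_div₀, h2, div_le_iff₀ exp_pos, one_mul]
      exact le_exp_neg_one hm1
    obtain ⟨w, hw⟩ : ∃ w : F, w = m / 2 := ⟨_, rfl⟩
    rw [← hw] at hm'
    have hmw : m = 2 * w := by
      rw [hw]
      field_simp
    have hw0 : V w ≤ exp (0 : ℤ) := by rwa [exp_zero]
    have hw4 : V (16 * (π * w ^ 4)) ≤ exp (-3 : ℤ) := by
      have e : 16 * (π * w ^ 4) = (4 * w ^ 2) * (4 * w ^ 2) * π := by ring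
      have h4 : V (4 * w ^ 2) ≤ exp (-2 : ℤ) := by
        refine XD2_mul (V_four h2).le (b := 0) ?_ (by norm_num)
        rw [pow_two]
        exact XD2_mul hw0 hw0 (by norm_num)
      rw [e]
      exact XD2_mul (XD2_mul h4 h4 le_rfl) hp.le (by norm_num)
    have h6 : V (4 * ρ * w ^ 2) ≤ exp (-2 : ℤ) := by
      refine XD2_mul (XD2_mul (V_four h2).le hρ0 le_rfl) (b := 0) ?_ (by norm_num)
      rw [pow_two]
      exact XD2_mul hw0 hw0 (by norm_num)
    have e1 : n ^ 2 = 16 * (π * w ^ 4) - 4 * ρ * w ^ 2 - (ρ ^ 4 - 1) - 1 := by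
      rw [hn, hmw]
      ring
    have hn1 : V (n ^ 2) = 1 := by
      rw [e1, Valuation.map_sub_eq_of_lt_right V, map_one]
      rw [map_one]
      refine lt_of_le_of_lt (V_sub_le (V_sub_le (XD2_mono hw4 ?_) h6) (XD2_mono hρ4 ?_))
        (exp_neg_two_lt.trans exp_neg_lt_one)
      · norm_num
      · norm_num
    have hn2 := XD2_unit h2 hres (val_eq_one_of_sq hn1)
    rcases hm'.eq_or_lt with hw1 | hw1
    · have hw2 := XD2_unit h2 hres hw1
      have e2 : (2 : F) * (1 + 2 * 3) = 16 * (π * w ^ 4) - 4 * ρ * (w ^ 2 - 1) - 4 * (ρ - 3) -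
          (ρ ^ 4 - 1) - (n ^ 2 - 1) := by
        linear_combination e1
      have h7 : V ((2 : F) * (1 + 2 * 3)) ≤ exp (-3 : ℤ) := by
        rw [e2]
        refine V_sub_le (V_sub_le (V_sub_le (V_sub_le hw4 ?_) ?_) (XD2_mono hρ4 (by norm_num))) hn2
        · exact XD2_mul (XD2_mul (V_four h2).le hρ0 le_rfl) hw2 (by norm_num)
        · exact XD2_mul (V_four h2).le h3 (by norm_num)
      have h8 : V ((1 : F) + 2 * 3) = 1 := by
        refine Valuation.map_one_add_of_lt V (V_two_mul_lt h2 ?_)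
        have := V_int (V := V) 3
        exact_mod_cast this
      rw [map_mul, h8, mul_one, h2, exp_le_exp] at h7
      norm_num at h7
    · have e2 : (2 : F) = 16 * (π * w ^ 4) - 4 * ρ * w ^ 2 - (ρ ^ 4 - 1) - (n ^ 2 - 1) := by
        linear_combination e1
      have h7 : V (2 : F) ≤ exp (-3 : ℤ) := by
        rw [e2]
        refine V_sub_le (V_sub_le (V_sub_le hw4 ?_) (XD2_mono hρ4 (by norm_num))) hn2
        exact XD2_mul (XD2_mul (V_four h2).le hρ0 le_rfl) (V_sq_le hw1) (by norm_num)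
      rw [h2, exp_le_exp] at h7
      norm_num at h7

theorem insol_pi {F : Type*} [Field F] {V : Valuation F (WithZero (Multiplicative ℤ))}
    (h2 : V 2 = exp (-1 : ℤ)) (hres : ∀ x, V x ≤ 1 → V x < 1 ∨ V (x - 1) < 1) {π : F}
    (hπ : π ^ 2 - π + 2 = 0) (hlt : V π < 1) : ¬ QPt (-2 * π) (π ^ 2 - 4) π := by
  have h20 : (2 : F) ≠ 0 := by
    intro h
    rw [h, map_zero] at h2
    exact exp_ne_zero h2.symm
  have h1π : V (1 - π) = 1 := by
    rw [sub_eq_add_neg]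
    exact Valuation.map_one_add_of_lt V (by rwa [Valuation.map_neg])
  have hp : V π = exp (-1 : ℤ) := by
    have e : π * (1 - π) = 2 := by linear_combination -hπ
    have h3 := congrArg V e
    rwa [map_mul, h1π, mul_one, h2] at h3
  have hπ0 : π ≠ 0 := by
    rintro rfl
    rw [map_zero] at hp
    exact exp_ne_zero hp.symm
  obtain ⟨ρ, hρe⟩ : ∃ ρ : F, ρ = π / 2 := ⟨_, rfl⟩
  have hπρ : π = 2 * ρ := by
    rw [hρe]
    field_simp
  have hρ : V ρ = 1 := by
    rw [hρe, map_div₀, hp, h2, div_self exp_ne_zero]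
  have h3 : V (ρ - 3) ≤ exp (-4 : ℤ) := by
    have hp2 : V (π ^ 2) ≤ exp (-2 : ℤ) := V_sq_le hlt
    have e : ρ - 3 = -(π ^ 2 * π ^ 2 * ρ) := by
      have h4 : 2 * (ρ - 3) = 2 * (-(π ^ 2 * π ^ 2 * ρ)) := by
        linear_combination (-1 - π ^ 4) * hπρ + (π ^ 3 + π ^ 2 - π - 3) * hπ
      exact mul_left_cancel₀ h20 h4
    rw [e, Valuation.map_neg]
    exact XD2_mul (XD2_mul hp2 hp2 le_rfl) (b := 0) (by rw [hρ, exp_zero]) (by norm_num)
  rintro ⟨M, e, N, hMe, hN⟩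
  have hN' : N ^ 2 = π * M ^ 4 - 2 * π * M ^ 2 * e ^ 2 - π ^ 4 * e ^ 4 := by
    have h4 : π * N ^ 2 = π * (π * M ^ 4 - 2 * π * M ^ 2 * e ^ 2 - π ^ 4 * e ^ 4) := by
      linear_combination hN + (π ^ 3 + π ^ 2 - π - 2) * e ^ 4 * hπ
    exact mul_left_cancel₀ hπ0 h4
  rcases le_or_gt (V e) (V M) with hc | hc
  · have hM : M ≠ 0 := by
      rintro rfl
      rw [map_zero] at hc
      have he : e = 0 := (map_eq_zero V).1 (le_antisymm hc zero_le)
      rcases hMe with h | h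
      · exact h rfl
      · exact h he
    have hM0 : V M ≠ 0 := (map_ne_zero V).2 hM
    have hx : V (e / M) ≤ 1 := by
      rw [map_div₀]
      exact div_le_one_of_le₀ hc zero_le
    obtain ⟨x, hxe⟩ : ∃ x : F, x = e / M := ⟨_, rfl⟩
    rw [← hxe] at hx
    have hex : e = x * M := by
      rw [hxe]
      field_simp
    have h5 : (N / M ^ 2) ^ 2 = π * (1 + (-(2 * x ^ 2) - π * (π ^ 2 * x ^ 4))) := by
      rw [div_pow, hN', hex]
      field_simp
      ring
    have hx2 : V (x ^ 2) ≤ 1 := by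
      rw [map_pow]
      exact pow_le_one₀ zero_le hx
    have h6 : V (-(2 * x ^ 2) - π * (π ^ 2 * x ^ 4)) < 1 := by
      refine V_sub_lt ?_ ?_
      · rw [Valuation.map_neg]
        exact V_two_mul_lt h2 hx2
      · rw [mul_comm]
        refine V_mul_lt ?_ hlt
        have e3 : π ^ 2 * x ^ 4 = π ^ 2 * (x ^ 2 * x ^ 2) := by ring
        rw [e3]
        refine V_mul_le ?_ (V_mul_le hx2 hx2)
        rw [map_pow]
        exact pow_le_one₀ zero_le hlt.le
    have h7 : V ((N / M ^ 2) ^ 2) = exp (-1 : ℤ) := by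
      rw [h5, map_mul, Valuation.map_one_add_of_lt V h6, mul_one, hp]
    exact XD2_odd h7 (by norm_num)
  · have he : e ≠ 0 := by
      rintro rfl
      rw [map_zero] at hc
      exact absurd hc not_lt_zero
    have he0 : 0 < V e := (zero_lt_iff).2 ((map_ne_zero V).2 he)
    have hx : V (M / e) < 1 := by
      rw [map_div₀]
      exact (div_lt_one₀ he0).2 hc
    have hm : V (M / e / 2) ≤ 1 := by
      rw [map_div₀, h2, div_le_iff₀ exp_pos, one_mul]
      exact le_exp_neg_one hx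
    refine XD2_main h2 hres hp hρ h3 hπρ hm (n := N / e ^ 2 / 4) ?_
    have h40 : (4 : F) ≠ 0 := by
      have : (4 : F) = 2 * 2 := by norm_num
      rw [this]
      exact mul_ne_zero h20 h20
    rw [div_pow, div_pow, hN', hπρ]
    field_simp
    ring

end H5IM
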