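import Pool.Agent.H68.QS.Main
import Pool.Agent.H10.RatSel2

/-!
ROW XE (elements of `ℚ(√-7)` with even valuations, about 170 lines).  PROOF.
`k/ℚ` quadratic, `π ∈ 𝓞 k`, `π^2 - π + 2 = 0`. `δ = 2 π - 1`, `δ^2 = -7`; `δ` is not rational (`-7` is not a square in the rationals).
(1) `exists_invol` (file `H68/QS/Alg.lean`, `L = ℚ`, `L2 = k`): `s`, `algebraMap (norm x) = x * s x`, `s δ = -δ` (`conj_delta`). `x = α + β δ` with rational `α, β` (as in `noNewOn_cm`, file `H68/IM/Main.lean`: `(x + s x)/2`, `(x - s x)/(2 δ)` are rational), so `norm x = α^2 + 7 β^2 > 0`.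
(2) `even_norm` (file `H68/QS/Val.lean`): `norm x` has even valuation at all primes of `𝓞 ℚ`, and it is positive: so it is a rational square (a lemma: a positive rational number with even valuations is a square; e.g. it is `c^2 *` a squarefree natural number `n`, and `n = 1` since a prime `q ∣ n` has odd valuation; the prime of `𝓞 ℚ` over `q`:
 `Rat.ringOfIntegersEquiv`, or the ideal span of `q`; search `H10`, `H68`, `H5/SW` for a similar lemma).
(3) `descend_of_norm_sq` (file `H68/QS/Alg.lean`): `x = t z^2`, `t ∈ ℚ`, `t ≠ 0`, `z ∈ k`. For every prime `w` of `ℚ` not above `7`, with a prime `W` of `k` over it (`exists_over`), the valuation of `t` at `w` is even: `W.valuation k t` has even log (`x = t z^2`), `HeightOneSpectrum.valuation_liesOver` : it is `(w.valuation t)^e`,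
 `e = w.asIdeal.ramificationIdx' W.asIdeal`, and `e` is odd: if `2 ∉ w`: `odd_ram` (file `H68/QS/Val.lean`, `D = -7`); if `2 ∈ w`: `2 = π (1 - π)` and `π + (1 - π) = 1`, so exactly one of `π`, `1 - π` is in `W`, say `π₁`; it has norm `2`: `w.valuation ℚ 2 = exp (-1)`,
 `(w.valuation 2)^e = W.valuation 2 = W.valuation π₁`; `s` maps `W` to the other prime, and `(W.valuation 2) = exp (-1)` because `W ≠ s W` both contain 2 and `[k : ℚ] = 2`: `∑ e f = 2` (`Ideal.sum_ramification_inertia`), so `e = 1`. (Alternative: `Ideal.absNorm`: `absNorm (π₁)^2 = absNorm (2) = 4`, so `(π₁)` is prime and equal to `W`, `π₁ ∉ W^2`.)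
(4) So `t` or `7 t` is, up to sign, a rational square (as in (2), `7` has valuation one at the prime over `7`), and `-7 = δ^2`: `x = t z^2` is `±` a square.
-/

set_option autoImplicit false
set_option linter.style.haveILetI false

open IsDedekindDomain NumberField WithZero Pool.Agent.H10 H68QS

namespace H5IM

/-- A rational number with even valuations is a square up to sign. -/
private lemma XE_sq {q : ℚ} (hq : q ≠ 0)
    (hev : ∀ v : HeightOneSpectrum (𝓞 ℚ), Even (log (v.valuation ℚ q))) :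
    ∃ c : ℚ, c ≠ 0 ∧ (q = c ^ 2 ∨ q = -c ^ 2) := by
  obtain ⟨ε, c, hc, h⟩ := exists_unit_mul_sq odd_classNumber_rat hq hev
  rcases unit_rat ε with hε | hε
  · exact ⟨c, hc, Or.inl (by rw [h, hε, one_mul])⟩
  · exact ⟨c, hc, Or.inr (by rw [h, hε]; ring)⟩

section

variable {k : Type} [Field k] [NumberField k] [Algebra.IsQuadraticExtension ℚ k]

omit [Algebra.IsQuadraticExtension ℚ k] in
/-- `√-7` is not rational. -/
private lemma XE_delta {π : 𝓞 k} (hπ : π ^ 2 - π + 2 = 0) :
    (2 * (π : k) - 1) ^ 2 = algebraMap ℚ k (-7) ∧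
      ∀ r : ℚ, algebraMap ℚ k r ≠ 2 * (π : k) - 1 := by
  have h1 : (π : k) ^ 2 - (π : k) + 2 = 0 := by
    have := congrArg (algebraMap (𝓞 k) k) hπ
    rwa [map_add, map_sub, map_pow, map_zero, map_ofNat] at this
  have e : algebraMap ℚ k (-7) = -7 := by rw [map_neg, map_ofNat]
  have h2 : (2 * (π : k) - 1) ^ 2 = algebraMap ℚ k (-7) := by
    rw [e]; linear_combination 4 * h1
  refine ⟨h2, ?_⟩
  intro r hr
  rw [← hr, ← map_pow] at h2
  have h3 := (algebraMap ℚ k).injective h2
  nlinarith [sq_nonneg r]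

/-- The norm of the generator is two. -/
private lemma XE_norm {π : 𝓞 k} (hπ : π ^ 2 - π + 2 = 0) :
    Algebra.norm ℚ (π : k) = 2 := by
  obtain ⟨hδ, hδ'⟩ := XE_delta hπ
  obtain ⟨s, hss, hN, hfix⟩ := exists_invol (L := ℚ) (L2 := k)
  have hs := conj_delta hfix hδ hδ'
  rw [map_sub, map_mul, map_one, map_ofNat] at hs
  have hs' : s (π : k) = 1 - (π : k) := by
    have h2 : (2 : k) ≠ 0 := two_ne_zero
    apply mul_left_cancel₀ h2
    linear_combination hs
  have h1 : (π : k) ^ 2 - (π : k) + 2 = 0 := by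
    have := congrArg (algebraMap (𝓞 k) k) hπ
    rwa [map_add, map_sub, map_pow, map_zero, map_ofNat] at this
  apply (algebraMap ℚ k).injective
  rw [hN, hs', map_ofNat]
  linear_combination -h1

/-- The valuation of two at a prime containing the generator. -/
private lemma XE_two' {π : 𝓞 k} (hπ : π ^ 2 - π + 2 = 0) {W : HeightOneSpectrum (𝓞 k)}
    (hW : π ∈ W.asIdeal) : W.valuation k 2 = exp (-1 : ℤ) := by
  have hπ0 : π ≠ 0 := by
    rintro rfl
    norm_num at hπ
  have hab : Ideal.absNorm (Ideal.span {π}) = 2 := by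
    rw [Ideal.absNorm_span_singleton]
    have h1 : ((Algebra.norm ℤ π : ℤ) : ℚ) = 2 := by rw [Algebra.coe_norm_int, XE_norm hπ]
    have h2 : Algebra.norm ℤ π = 2 := by exact_mod_cast h1
    rw [h2]; rfl
  have hpr : (Ideal.span {π}).IsPrime := by
    apply Ideal.isPrime_of_irreducible_absNorm
    rw [hab]
    exact Nat.prime_two
  have hmax : (Ideal.span {π}).IsMaximal :=
    hpr.isMaximal (by rw [Ne, Ideal.span_singleton_eq_bot]; exact hπ0)
  have heq : W.asIdeal = Ideal.span {π} := by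
    symm
    apply hmax.eq_of_le W.isPrime.ne_top
    rw [Ideal.span_singleton_le_iff_mem]
    exact hW
  have hv : W.valuation k (π : k) = exp (-1 : ℤ) := by
    change W.valuation k (algebraMap (𝓞 k) k π) = _
    rw [W.valuation_of_algebraMap, W.intValuation_singleton hπ0 heq]
  have hn : (1 - π) ∉ W.asIdeal := by
    intro h
    apply W.isPrime.ne_top
    rw [Ideal.eq_top_iff_one]
    have := W.asIdeal.add_mem hW h
    rwa [add_sub_cancel] at this
  have hv1 : W.valuation k ((1 - π : 𝓞 k) : k) = 1 :=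
    (W.valuation_eq_one_iff_notMem (K := k)).mpr hn
  have e : (2 : k) = (π : k) * ((1 - π : 𝓞 k) : k) := by
    have h1 : (2 : 𝓞 k) = π * (1 - π) := by linear_combination hπ
    have h2 := congrArg (algebraMap (𝓞 k) k) h1
    rw [map_mul, map_ofNat] at h2
    exact h2
  rw [e, map_mul, hv, hv1, mul_one]

private lemma XE_two {π : 𝓞 k} (hπ : π ^ 2 - π + 2 = 0) {W : HeightOneSpectrum (𝓞 k)}
    (hW : (2 : 𝓞 k) ∈ W.asIdeal) : W.valuation k 2 = exp (-1 : ℤ) := by
  have h1 : (2 : 𝓞 k) = π * (1 - π) := by linear_combination hπ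
  rw [h1] at hW
  rcases W.isPrime.mem_or_mem hW with h | h
  · exact XE_two' hπ h
  · exact XE_two' (π := 1 - π) (by linear_combination hπ) h

/-- The ramification index above two is one. -/
private lemma XE_ram {π : 𝓞 k} (hπ : π ^ 2 - π + 2 = 0) {w : HeightOneSpectrum (𝓞 ℚ)}
    {W : HeightOneSpectrum (𝓞 k)} [W.asIdeal.LiesOver w.asIdeal]
    (h2 : (2 : 𝓞 k) ∈ W.asIdeal) : w.asIdeal.ramificationIdx' W.asIdeal = 1 := by
  have h1 := HeightOneSpectrum.valuation_liesOver (K := ℚ) k w W (2 : ℚ)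
  have e : algebraMap ℚ k 2 = 2 := map_ofNat _ 2
  rw [e, XE_two hπ h2] at h1
  have h3 := congrArg log h1
  rw [log_pow, log_exp, nsmul_eq_mul] at h3
  have h4 : ((w.asIdeal.ramificationIdx' W.asIdeal : ℕ) : ℤ) ∣ 1 := by
    rw [← dvd_neg]
    exact ⟨_, h3.symm⟩
  have h5 := Int.natCast_dvd_natCast.mp
    (by exact_mod_cast h4 : ((w.asIdeal.ramificationIdx' W.asIdeal : ℕ) : ℤ) ∣ ((1 : ℕ) : ℤ))
  exact Nat.dvd_one.mp h5

/-- The ramification index away from seven is odd. -/
private lemma XE_odd {π : 𝓞 k} (hπ : π ^ 2 - π + 2 = 0) {w : HeightOneSpectrum (𝓞 ℚ)}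
    {W : HeightOneSpectrum (𝓞 k)} [W.asIdeal.LiesOver w.asIdeal]
    (h7 : ((7 : ℕ) : 𝓞 ℚ) ∉ w.asIdeal) : Odd (w.asIdeal.ramificationIdx' W.asIdeal) := by
  by_cases h2 : (2 : 𝓞 k) ∈ W.asIdeal
  · rw [XE_ram hπ h2]; exact odd_one
  · obtain ⟨hδ, hδ'⟩ := XE_delta hπ
    refine odd_ram hδ hδ' ?_ ?_
    · have := (W.valuation_eq_one_iff_notMem (K := k)).mpr h2
      rwa [map_ofNat] at this
    · have h3 : ((7 : ℕ) : 𝓞 k) ∉ W.asIdeal := by
        intro h
        apply h7
        have h4 : w.asIdeal = W.asIdeal.under (𝓞 ℚ) := Ideal.LiesOver.over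
        rw [h4, Ideal.mem_comap, map_natCast]
        exact h
      have h5 := valuation_natCast_eq_one h3
      have e : algebraMap ℚ k (-7) = -((7 : ℕ) : k) := by
        rw [map_neg, map_ofNat]; norm_num
      rw [e, Valuation.map_neg, h5]

end

theorem even_seven {k : Type} [Field k] [NumberField k] [Algebra.IsQuadraticExtension ℚ k]
    {π : 𝓞 k} (hπ : π ^ 2 - π + 2 = 0) {x : k} (hx : x ≠ 0)
    (hev : ∀ v : HeightOneSpectrum (𝓞 k), Even (log (v.valuation k x))) :
    IsSquare x ∨ IsSquare (-x) := by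
  obtain ⟨hδ, hδ'⟩ := XE_delta hπ
  obtain ⟨s, hss, hN, hfix⟩ := exists_invol (L := ℚ) (L2 := k)
  have hsδ := conj_delta hfix hδ hδ'
  set δ : k := 2 * (π : k) - 1 with hδdef
  have hδ0 : δ ≠ 0 := by
    intro h0
    exact hδ' 0 (by rw [map_zero, h0])
  have hinj := (algebraMap ℚ k).injective
  have e7 : algebraMap ℚ k (-7) = -7 := by rw [map_neg, map_ofNat]
  -- the norm is positive
  obtain ⟨α, hα⟩ := hfix ((x + s x) / 2) (by
    rw [map_div₀, map_add, hss, map_ofNat, add_comm])
  obtain ⟨β, hβ⟩ := hfix ((x - s x) / (2 * δ)) (by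
    rw [map_div₀, map_sub, hss, map_mul, hsδ, map_ofNat, mul_neg, div_neg, ← neg_div, neg_sub])
  have hxs : x * s x = algebraMap ℚ k (α ^ 2 + 7 * β ^ 2) := by
    have h1 : x = algebraMap ℚ k α + algebraMap ℚ k β * δ := by
      rw [hα, hβ]; field_simp; ring
    have h2 : s x = algebraMap ℚ k α - algebraMap ℚ k β * δ := by
      rw [hα, hβ]; field_simp; ring
    have h3 : x * s x = (algebraMap ℚ k α) ^ 2 - (algebraMap ℚ k β) ^ 2 * δ ^ 2 := by
      rw [h2]; nth_rewrite 1 [h1]; ring
    rw [h3, hδ, e7, map_add, map_mul, map_pow, map_pow, map_ofNat]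
    ring
  have hn : Algebra.norm ℚ x = α ^ 2 + 7 * β ^ 2 := hinj (by rw [hN, hxs])
  have hn0 : Algebra.norm ℚ x ≠ 0 := by rw [Ne, Algebra.norm_eq_zero_iff]; exact hx
  have hnn : 0 ≤ Algebra.norm ℚ x := by rw [hn]; positivity
  obtain ⟨c, hc, hcn⟩ := XE_sq hn0 (fun v => even_norm hx hev v)
  have hcn' : Algebra.norm ℚ x = c ^ 2 := by
    rcases hcn with h | h
    · exact h
    · exfalso
      have h1 : 0 < c ^ 2 := by positivity
      linarith
  obtain ⟨t, z, ht, hz, hxt⟩ := descend_of_norm_sq hx hcn'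
  have htk : algebraMap ℚ k t ≠ 0 := by rw [Ne, map_eq_zero]; exact ht
  -- parity of the valuations of `t`
  have hpar : ∀ w : HeightOneSpectrum (𝓞 ℚ), ((7 : ℕ) : 𝓞 ℚ) ∉ w.asIdeal →
      Even (log (w.valuation ℚ t)) := by
    intro w hw
    obtain ⟨W, hW⟩ := exists_over (L2 := k) w
    have h1 := hev W
    rw [hxt, map_mul, map_pow, log_mul ((Valuation.ne_zero_iff _).mpr htk)
      (pow_ne_zero _ ((Valuation.ne_zero_iff _).mpr hz)), log_pow,
      ← HeightOneSpectrum.valuation_liesOver (K := ℚ) k w W, log_pow, nsmul_eq_mul,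
      nsmul_eq_mul] at h1
    have h2 := h1.sub (even_two_mul (log (W.valuation k z)))
    push_cast at h2
    rw [add_sub_cancel_right, Int.even_mul] at h2
    rcases h2 with h3 | h3
    · exfalso
      have h4 := XE_odd hπ (w := w) (W := W) hw
      rw [Int.even_coe_nat] at h3
      exact (Nat.not_even_iff_odd.mpr h4) h3
    · exact h3
  have hx1 : ∀ c : ℚ, t = c ^ 2 → IsSquare x := by
    intro c h
    exact ⟨algebraMap ℚ k c * z, by rw [hxt, h, map_pow]; ring⟩
  have hx2 : ∀ c : ℚ, t = -c ^ 2 → IsSquare (-x) := by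
    intro c h
    exact ⟨algebraMap ℚ k c * z, by rw [hxt, h, map_neg, map_pow]; ring⟩
  by_cases h7 : Even (log ((ratPlace (p := 7) (by norm_num)).valuation ℚ t))
  · obtain ⟨c, hc, h⟩ := XE_sq ht (fun w => by
      by_cases hw : ((7 : ℕ) : 𝓞 ℚ) ∈ w.asIdeal
      · have hwe : w = ratPlace (p := 7) (by norm_num) := by
          apply HeightOneSpectrum.ext
          exact uniqueAbove_rat (p := 7) (by norm_num) _ _ w.isPrime
            (ratPlace (p := 7) (by norm_num)).isPrime hw
            (Ideal.subset_span rfl)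
        rw [hwe]; exact h7
      · exact hpar w hw)
    rcases h with h | h
    · exact Or.inl (hx1 c h)
    · exact Or.inr (hx2 c h)
  · have h70 : ((7 : ℕ) : ℚ) ≠ 0 := by norm_num
    obtain ⟨c, hc, h⟩ := XE_sq (q := ((7 : ℕ) : ℚ) * t) (mul_ne_zero h70 ht) (fun w => by
      rw [map_mul, log_mul ((Valuation.ne_zero_iff _).mpr h70)
        ((Valuation.ne_zero_iff _).mpr ht)]
      by_cases hw : ((7 : ℕ) : 𝓞 ℚ) ∈ w.asIdeal
      · have hwe : w = ratPlace (p := 7) (by norm_num) := by
          apply HeightOneSpectrum.ext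
          exact uniqueAbove_rat (p := 7) (by norm_num) _ _ w.isPrime
            (ratPlace (p := 7) (by norm_num)).isPrime hw
            (Ideal.subset_span rfl)
        rw [hwe]
        have h1 : (ratPlace (p := 7) (by norm_num)).valuation ℚ ((7 : ℕ) : ℚ) = exp (-1 : ℤ) := by
          have e : ((7 : ℕ) : ℚ) = algebraMap (𝓞 ℚ) ℚ ((7 : ℕ) : 𝓞 ℚ) := by rw [map_natCast]
          rw [e, HeightOneSpectrum.valuation_of_algebraMap,
            HeightOneSpectrum.intValuation_singleton _ (prime_natCast (by norm_num)).ne_zero rfl]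
        rw [h1, log_exp]
        rw [Int.not_even_iff_odd] at h7
        exact Odd.add_odd (by decide) h7
      · rw [valuation_natCast_eq_one hw, log_one, zero_add]
        exact hpar w hw)
    have h7' : algebraMap ℚ k ((7 : ℕ) : ℚ) = -δ ^ 2 := by
      rw [hδ, e7, map_natCast]; norm_num
    rcases h with h | h
    · right
      refine ⟨algebraMap ℚ k c / δ * z, ?_⟩
      have h1 := congrArg (algebraMap ℚ k) h
      rw [map_mul, h7', map_pow] at h1
      have h2 : algebraMap ℚ k t = -(algebraMap ℚ k c / δ) ^ 2 := by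
        rw [div_pow]; field_simp; linear_combination -h1
      rw [hxt, h2]; ring
    · left
      refine ⟨algebraMap ℚ k c / δ * z, ?_⟩
      have h1 := congrArg (algebraMap ℚ k) h
      rw [map_mul, h7', map_neg, map_pow] at h1
      have h2 : algebraMap ℚ k t = (algebraMap ℚ k c / δ) ^ 2 := by
        rw [div_pow]; field_simp; linear_combination -h1
      rw [hxt, h2]; ring

end H5IM
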