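import Pool.Agent.H68.IM.Cm
import Pool.Agent.H5.SW.Three

/-!
ROW XF (the layers for `p = 3` over `ℚ(√-7)`, no threshold, about 140 lines).  PROOF.
`k` quadratic over the rationals, `π^2 - π + 2 = 0`, `δ = 2 π - 1`, `δ^2 = -7`; no homomorphism `k → ℝ` (`-7 < 0`). `L'` totally real in the `3`-tower, `L = k L'`. Put `K' = ℚ`, `D = -7`.
(1) `three_facts hR` (file `H5/SW/Three.lean`): `NoNewPositive ℚ L'`, `NoNewUnramified ℚ L'`, `[L' : ℚ]` odd, and `UniqueAbove L' q` for primes `q` with `¬ 9 ∣ q^2 - 1`, in particular `q = 2` (`3`) and `q = 7` (`48`). `IsGalois ℚ L'`: `galois_KL` with `exists_tower` (see the proof of `three_facts`; `finrank_three`), or `H73IS.layer` with `K = ℚ`.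
 From `UniqueAbove L' q` get `UniqueOver ℚ L' v` for `v ∋ q`: a prime of `𝓞 L'` containing the image of `v` contains `q`.
(2) `Algebra L' L := h.toAlgebra`, `Algebra ℚ k` etc. standard; scalar towers over the rationals hold. `ℚ(δ) = k`: `IntermediateField.adjoin ℚ {δ} = ⊤` (degree two, `δ` not rational; `IntermediateField.isSimpleOrder_of_finrank_prime` as in `exists_delta`, file `H68/QS/Asm.lean`). `adjoin L' {algebraMap k L δ} = ⊤` and
 `adjoin k (range (algebraMap L' L)) = ⊤` (`hgen`). (`adj_top`, `gen_mem` in file `H68/IM/Sub.lean` or `H68/QS/Sub.lean` are used in the same way in `goodI_base`, file `H68/IM/Cm.lean`.)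
(3) `step_aux` (file `H68/IM/Asm.lean`) with `K = ℚ`, `L = L'`, `K2 = k`, `L2 = L`, `M = M' = 14`: quadratic extension `L/L'`, `IsGalois k L`, `Odd [L : k]`, and `UniqueOver k L v` for `v ∋ 14`, so for `v ∋ 2` (its hypothesis `three` is only passed through; if it is in the way copy the two lines of the proof of `UniqueOver`: `unique_quad`).
(4) `noNewOn_cm` (file `H68/IM/Main.lean`) with `T2 = AboveS S (algebraMap k L)`: `hneg`: `φ (-7) < 0`; `hunr`: 2 is unramified in `L`: `unr_gen` (file `H68/IM/Emb.lean`) from `Unr2 k` (`2 = π (1 - π)`, `π + (1 - π) = 1`: a prime `v ∋ 2` contains exactly one of the two, which generates `v`: absolute norm `2`; or through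
 `Ideal.sum_ramification_inertia` over the rationals: two different primes contain 2, so both are unramified); `hT`: the row AbvG of helper68 (file `H68/IM/AbvG.lean`) from `hS : Hits ℚ S`, as in `goodI_base`.
-/

set_option autoImplicit false
set_option linter.style.haveILetI false

open IsDedekindDomain NumberField WithZero Pool.Agent.H10 H5SW H68QS H68IM

namespace H5IM

private theorem XF_rat_sq (r : ℚ) : r ^ 2 ≠ -7 := by
  intro h
  nlinarith [sq_nonneg r]

private theorem XF_delta {k : Type} [Field k] [NumberField k] {π : 𝓞 k}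
    (hπ : π ^ 2 - π + 2 = 0) : (2 * (π : k) - 1) ^ 2 = -7 := by
  have h1 : (π : k) ^ 2 - π + 2 = 0 := by
    have := congrArg (algebraMap (𝓞 k) k) hπ
    rw [map_add, map_sub, map_pow, map_zero, map_ofNat] at this
    exact this
  linear_combination 4 * h1

private theorem XF_not_rat {k : Type} [Field k] [NumberField k] {π : 𝓞 k}
    (hπ : π ^ 2 - π + 2 = 0) (r : ℚ) : algebraMap ℚ k r ≠ 2 * (π : k) - 1 := by
  intro h
  have h1 := XF_delta hπ
  rw [← h, ← map_pow] at h1
  have h2 : (-7 : k) = algebraMap ℚ k (-7) := by rw [map_neg, map_ofNat]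
  rw [h2] at h1
  exact XF_rat_sq r ((algebraMap ℚ k).injective h1)

private theorem XF_norm {k : Type} [Field k] [NumberField k] [Algebra.IsQuadraticExtension ℚ k]
    {π : 𝓞 k} (hπ : π ^ 2 - π + 2 = 0) : Algebra.norm ℤ π = 2 := by
  obtain ⟨s, hss, hN, hfix⟩ := exists_invol (L := ℚ) (L2 := k)
  have h1 : (π : k) ^ 2 - π + 2 = 0 := by
    have := congrArg (algebraMap (𝓞 k) k) hπ
    rw [map_add, map_sub, map_pow, map_zero, map_ofNat] at this
    exact this
  have h2 : (s π) ^ 2 - s π + 2 = 0 := by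
    have := congrArg s h1
    rw [map_add, map_sub, map_pow, map_zero, map_ofNat] at this
    exact this
  have h3 : (s π - π) * (s π + π - 1) = 0 := by linear_combination h2 - h1
  have h4 : s π = 1 - π := by
    rcases mul_eq_zero.1 h3 with h | h
    · exfalso
      obtain ⟨y, hy⟩ := hfix π (sub_eq_zero.1 h)
      apply XF_not_rat hπ (2 * y - 1)
      rw [map_sub, map_mul, hy, map_ofNat, map_one]
    · linear_combination h
  have h5 := hN π
  rw [h4] at h5
  have h6 : algebraMap ℚ k (Algebra.norm ℚ (π : k)) = algebraMap ℚ k 2 := by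
    rw [h5, map_ofNat]
    linear_combination -h1
  have h7 := (algebraMap ℚ k).injective h6
  have h8 := Algebra.coe_norm_int π
  rw [h7] at h8
  exact_mod_cast h8

private theorem XF_two {k : Type} [Field k] [NumberField k] [Algebra.IsQuadraticExtension ℚ k]
    {π : 𝓞 k} (hπ : π ^ 2 - π + 2 = 0) (w : HeightOneSpectrum (𝓞 k))
    (hw : π ∈ w.asIdeal) (h2 : (2 : 𝓞 k) ∈ w.asIdeal ^ 2) : False := by
  have := w.isPrime
  have h1 : (1 - π) * π = 2 := by linear_combination -hπ
  have hn : 1 - π ∉ w.asIdeal := by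
    intro h
    apply w.isPrime.ne_top
    rw [Ideal.eq_top_iff_one]
    have := w.asIdeal.add_mem h hw
    rwa [sub_add_cancel] at this
  rw [← h1] at h2
  have h3 : π ∈ w.asIdeal ^ 2 := by
    rcases Ideal.IsPrime.mul_mem_pow w.asIdeal h2 with h | h
    · exact absurd h hn
    · exact h
  have h4 : w.asIdeal ^ 2 ∣ Ideal.span {π} := by
    rw [Ideal.dvd_span_singleton]
    exact h3
  have h5 := Ideal.absNorm_dvd_absNorm_of_le (Ideal.dvd_iff_le.1 h4)
  rw [Ideal.absNorm_span_singleton, XF_norm hπ, map_pow] at h5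
  have h6 : Ideal.absNorm w.asIdeal ^ 2 ≤ 2 := Nat.le_of_dvd (by norm_num) h5
  have h7 : Ideal.absNorm w.asIdeal ≠ 1 := by
    rw [Ne, Ideal.absNorm_eq_one_iff]
    exact w.isPrime.ne_top
  have h8 : Ideal.absNorm w.asIdeal ≠ 0 := by
    rw [Ne, Ideal.absNorm_eq_zero_iff]
    exact w.ne_bot
  have h9 : 2 ≤ Ideal.absNorm w.asIdeal := by omega
  nlinarith

/-- Two is unramified in `ℚ(√-7)`. -/
theorem unr_seven {k : Type} [Field k] [NumberField k] [Algebra.IsQuadraticExtension ℚ k]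
    {π : 𝓞 k} (hπ : π ^ 2 - π + 2 = 0) : Unr2 k := by
  intro w hw hw2
  have h1 : π * (1 - π) = 2 := by linear_combination -hπ
  have h2 : π * (1 - π) ∈ w.asIdeal := by rwa [h1]
  rcases w.isPrime.mem_or_mem h2 with h | h
  · exact XF_two hπ w h hw2
  · exact XF_two (π := 1 - π) (by linear_combination hπ) w h hw2

private theorem XF_over {L' : Type} [Field L'] [NumberField L'] {q : ℕ} (hu : UniqueAbove L' q)
    (v : HeightOneSpectrum (𝓞 ℚ)) (hv : (q : 𝓞 ℚ) ∈ v.asIdeal) : UniqueOver ℚ L' v.asIdeal := by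
  have hL : ∀ P : Ideal (𝓞 L'), v.asIdeal.map (algebraMap (𝓞 ℚ) (𝓞 L')) ≤ P →
      (q : 𝓞 L') ∈ P := by
    intro P hP
    have := hP (Ideal.mem_map_of_mem (algebraMap (𝓞 ℚ) (𝓞 L')) hv)
    rwa [map_natCast] at this
  intro P Q hP hQ h1 h2
  exact hu P Q hP hQ (hL P h1) (hL Q h2)

theorem base_seven {k L' L : Type} [Field k] [NumberField k] [Algebra.IsQuadraticExtension ℚ k]
    [Field L'] [NumberField L'] [Field L] [NumberField L] [Algebra k L] {π : 𝓞 k}
    (hπ : π ^ 2 - π + 2 = 0) (h : L' →+* L) (hR : IsR 3 L')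
    (hgen : IntermediateField.adjoin k (Set.range h) = ⊤)
    {S : Set (HeightOneSpectrum (𝓞 k))} (hS : Hits ℚ S) :
    IsGalois k L ∧ Odd (Module.finrank k L) ∧ NoNewOn k L (AboveS S (algebraMap k L)) ∧
      (∀ v : HeightOneSpectrum (𝓞 k), (2 : 𝓞 k) ∈ v.asIdeal → UniqueOver k L v.asIdeal) := by
  letI : Algebra L' L := h.toAlgebra
  obtain ⟨⟨R1, R2⟩, hodd, -, hu⟩ := three_facts hR
  obtain ⟨i, hi⟩ := finrank_three hR
  obtain ⟨n, M, F, _, _, _, _, _, _, _, ⟨Tw⟩⟩ := exists_tower (p := 3) (K := ℚ) (by norm_num) hR hi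
  haveI : IsGalois ℚ L' := galois_KL (by norm_num) Tw
  obtain ⟨D, hD⟩ : ∃ D : 𝓞 ℚ, D = -7 := ⟨_, rfl⟩
  have hDc : (D : ℚ) = -7 := by
    rw [hD]
    change algebraMap (𝓞 ℚ) ℚ (-7) = -7
    rw [map_neg, map_ofNat]
  obtain ⟨δ, hδdef⟩ : ∃ δ : k, δ = 2 * (π : k) - 1 := ⟨_, rfl⟩
  have hδ : δ ^ 2 = algebraMap ℚ k (D : ℚ) := by
    rw [hDc, hδdef, XF_delta hπ, map_neg, map_ofNat]
  have hδ' : ∀ r : ℚ, algebraMap ℚ k r ≠ δ := by
    intro r
    rw [hδdef]
    exact XF_not_rat hπ r
  have hadj : IntermediateField.adjoin ℚ {δ} = ⊤ := by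
    have h2 : (Module.finrank ℚ k).Prime := by
      rw [Algebra.IsQuadraticExtension.finrank_eq_two]
      exact Nat.prime_two
    haveI := IntermediateField.isSimpleOrder_of_finrank_prime ℚ k h2
    rcases eq_bot_or_eq_top (IntermediateField.adjoin ℚ {δ}) with h1 | h1
    · exfalso
      rw [IntermediateField.adjoin_simple_eq_bot_iff, IntermediateField.mem_bot] at h1
      obtain ⟨z, hz⟩ := h1
      exact hδ' z hz
    · exact h1
  have hgenL : IntermediateField.adjoin L' {algebraMap k L δ} = ⊤ := by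
    refine adj_top fun M hB hM => ?_
    refine gen_mem hgen M (fun b => ?_) ?_
    · refine gen_mem hadj (M.comap (algebraMap k L)) (rat_mem _) ?_ b
      rintro _ rfl
      exact hM rfl
    · rintro _ ⟨x, rfl⟩
      exact hB x
  have hgen' : IntermediateField.adjoin k (Set.range (algebraMap L' L)) = ⊤ := hgen
  have hδL2 : (algebraMap k L δ) ^ 2 = algebraMap L' L (algebraMap ℚ L' (D : ℚ)) := by
    rw [← map_pow, hδ, ← IsScalarTower.algebraMap_apply ℚ k L,
      ← IsScalarTower.algebraMap_apply ℚ L' L]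
  have hδL : ∀ r : L', algebraMap L' L r ≠ algebraMap k L δ := by
    intro r hr
    apply no_root hodd hδ hδ' r
    apply (algebraMap L' L).injective
    rw [map_pow, hr, hδL2]
  haveI hq : Algebra.IsQuadraticExtension L' L := quad_of_adjoin hδL2 hδL hgenL
  have hfr : Module.finrank k L = Module.finrank ℚ L' := finrank_up
  haveI hgal : IsGalois k L := galois_up (K := ℚ) (L := L') hgen'
  have hodd2 : Odd (Module.finrank k L) := by rw [hfr]; exact hodd
  have hbad : ∀ v : HeightOneSpectrum (𝓞 ℚ), 2 * D ∈ v.asIdeal →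
      UniqueOver ℚ L' v.asIdeal := by
    intro v hv
    rcases v.isPrime.mem_or_mem hv with h1 | h1
    · exact XF_over (hu 2 Nat.prime_two (by norm_num)) v (by exact_mod_cast h1)
    · rw [hD, neg_mem_iff] at h1
      exact XF_over (hu 7 (by norm_num) (by norm_num)) v (by exact_mod_cast h1)
  have hneg : ∀ φ : L' →+* ℝ, φ (algebraMap ℚ L' (D : ℚ)) < 0 := by
    intro φ
    rw [hDc, map_neg, map_neg, map_ofNat, map_ofNat]
    norm_num
  have hunr : Unr2 L := unr_gen (by norm_num) (unr_seven hπ) h hR hgen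
  have hit : ∀ w : HeightOneSpectrum (𝓞 L'), (2 : 𝓞 L') ∈ w.asIdeal →
      ∃ W ∈ AboveS S (algebraMap k L), W.asIdeal.LiesOver w.asIdeal := by
    intro w hw
    have hbot : w.asIdeal.under (𝓞 ℚ) ≠ ⊥ := Ideal.IsIntegral.comap_ne_bot _ w.ne_bot
    let u : HeightOneSpectrum (𝓞 ℚ) := ⟨w.asIdeal.under (𝓞 ℚ), inferInstance, hbot⟩
    have hu : ∀ x : 𝓞 ℚ, x ∈ u.asIdeal ↔
        RingOfIntegers.mapRingHom (algebraMap ℚ L') x ∈ w.asIdeal := by
      intro x
      change algebraMap (𝓞 ℚ) (𝓞 L') x ∈ w.asIdeal ↔ _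
      have : algebraMap (𝓞 ℚ) (𝓞 L') x = RingOfIntegers.mapRingHom (algebraMap ℚ L') x := by
        apply RingOfIntegers.coe_injective
        rfl
      rw [this]
    obtain ⟨v, hvS, hv⟩ := hS u (by rw [hu, map_ofNat]; exact hw)
    obtain ⟨W, hW, hvW⟩ := exists_above_cm (algebraMap ℚ L') (algebraMap k L)
      (fun x => by rw [← IsScalarTower.algebraMap_apply ℚ k L,
        ← IsScalarTower.algebraMap_apply ℚ L' L]) hδ hδL v w (fun x => by rw [hv, hu])
    exact ⟨W, ⟨v, hvS, hvW⟩, hW⟩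
  refine ⟨hgal, hodd2, noNewOn_cm hodd hδ hδ' hbad hneg hunr hit R1 R2, ?_⟩
  intro v2 hv2
  have below : v2.asIdeal.under (𝓞 ℚ) ≠ ⊥ := Ideal.IsIntegral.comap_ne_bot _ v2.ne_bot
  let v : HeightOneSpectrum (𝓞 ℚ) := ⟨v2.asIdeal.under (𝓞 ℚ), inferInstance, below⟩
  refine unique_quad (K := ℚ) (L := L') hodd2 (v := v) Ideal.map_comap_le
    (XF_over (hu 2 Nat.prime_two (by norm_num)) v ?_)
  change algebraMap (𝓞 ℚ) (𝓞 k) ((2 : ℕ) : 𝓞 ℚ) ∈ v2.asIdeal
  rw [map_natCast]
  exact_mod_cast hv2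

end H5IM
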