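import Pool.Agent.H5.IM.LocR

/-!
# MP_78d38b: the local forms of the example over `ℚ(√-7)`
-/

set_option autoImplicit false
set_option linter.style.haveILetI false
open scoped Classical

open NumberField IsDedekindDomain WithZero Pool.Agent.H10 H73IS H68IM

namespace H5IM

section val

variable {k : Type*} [Field k] {ν : Valuation k (WithZero (Multiplicative ℤ))} {π : k}

lemma pi_mul (hπ : π ^ 2 - π + 2 = 0) : π * (1 - π) = 2 := by linear_combination -hπ

lemma one_sub_val (h : ν π < 1) : ν (1 - π) = 1 := by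
  rw [Valuation.map_one_sub_of_lt _ h]

lemma pi_val (h2 : ν 2 = exp (-1 : ℤ)) (hπ : π ^ 2 - π + 2 = 0) (h : ν π < 1) :
    ν π = exp (-1 : ℤ) := by
  rw [← h2, ← pi_mul hπ, map_mul, one_sub_val h, mul_one]

lemma val_two_pow (h2 : ν 2 = exp (-1 : ℤ)) (n : ℕ) : ν (2 ^ n) = exp (-(n : ℤ)) := by
  rw [map_pow, h2, ← exp_nsmul]
  congr 1
  simp

lemma disc_eq (hπ : π ^ 2 - π + 2 = 0) : π ^ 2 - 4 = -π ^ 5 := by
  linear_combination (π ^ 3 + π ^ 2 - π - 2) * hπ

/-- the values at the prime `π` -/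
lemma vals_P (h2 : ν 2 = exp (-1 : ℤ)) (hπ : π ^ 2 - π + 2 = 0) (h : ν π < 1) :
    ν (π ^ 2 - 4) = exp (-5 : ℤ) ∧ ν (-(π + 2) / 4) < 1 ∧ ν ((4 - π ^ 2) / 32) = 1 ∧
      ν (1 - (4 - π ^ 2) / 32) < 1 := by
  have hp := pi_val h2 hπ h
  have h20 : (2 : k) ≠ 0 := by
    intro h0
    rw [h0, map_zero] at h2
    exact exp_ne_zero h2.symm
  have h4 := V_four h2
  have h32 : ν (32 : k) = exp (-5 : ℤ) := by
    have := val_two_pow h2 5
    norm_num at this ⊢
    exact this
  have h5 : ν (π ^ 2 - 4) = exp (-5 : ℤ) := by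
    rw [disc_eq hπ, Valuation.map_neg, map_pow, hp, ← exp_nsmul]
    congr 1
  refine ⟨h5, ?_, ?_, ?_⟩
  · have e : -(π + 2) / 4 = π ^ 3 / 4 := by
      congr 1
      linear_combination (-π - 1) * hπ
    rw [e, map_div₀, map_pow, hp, h4, ← exp_nsmul, ← exp_sub, ← exp_zero, exp_lt_exp]
    norm_num
  · have e : 4 - π ^ 2 = -(π ^ 2 - 4) := by ring
    rw [e, map_div₀, Valuation.map_neg, h5, h32]
    exact div_self exp_ne_zero
  · have e : 1 - (4 - π ^ 2) / 32 = (π + 26) / 32 := by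
      have h320 : (32 : k) ≠ 0 := by
        have : (32 : k) = 2 ^ 5 := by norm_num
        rw [this]
        exact pow_ne_zero 5 h20
      field_simp
      linear_combination hπ
    have e2 : (π + 26) * (π - 27) = -(2 ^ 6 * ((11 : ℤ) : k)) := by
      push_cast
      linear_combination hπ
    have h27 : ν (π - 27) = 1 := by
      have : (π - 27 : k) = π - ((27 : ℤ) : k) := by push_cast; ring
      rw [this, Valuation.map_sub_swap, Valuation.map_sub_eq_of_lt_left,
        V_odd h2 (by norm_num)]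
      rw [V_odd h2 (by norm_num)]
      exact h
    have h26 : ν (π + 26) = exp (-6 : ℤ) := by
      have := congrArg ν e2
      rw [map_mul, h27, mul_one, Valuation.map_neg, map_mul, V_odd h2 (by norm_num), mul_one,
        val_two_pow h2 6] at this
      exact this
    rw [e, map_div₀, h26, h32, ← exp_sub, ← exp_zero, exp_lt_exp]
    norm_num

/-- the values at the prime `1 - π` -/
lemma vals_Q (h2 : ν 2 = exp (-1 : ℤ)) (hπ : π ^ 2 - π + 2 = 0) (h : ν (1 - π) < 1) :
    ν π = 1 ∧ ν ((π - 1) / 2) = 1 ∧ ν ((3 - π) / 2) < 1 := by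
  have hπ' : (1 - π) ^ 2 - (1 - π) + 2 = 0 := by linear_combination hπ
  have h1 : ν π = 1 := by
    have := one_sub_val h
    rwa [sub_sub_cancel] at this
  have hq := pi_val h2 hπ' h
  have h20 : (2 : k) ≠ 0 := by
    intro h0
    rw [h0, map_zero] at h2
    exact exp_ne_zero h2.symm
  refine ⟨h1, ?_, ?_⟩
  · rw [map_div₀, Valuation.map_sub_swap, hq, h2]
    exact div_self exp_ne_zero
  · have e2 : (3 - π) * (2 + π) = 2 ^ 3 := by linear_combination -hπ
    have h3 : ν (2 + π) = 1 := by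
      rw [Valuation.map_add_eq_of_lt_right, h1]
      rw [h1, h2, ← exp_zero, exp_lt_exp]
      norm_num
    have h4 : ν (3 - π) = exp (-3 : ℤ) := by
      have := congrArg ν e2
      rw [map_mul, h3, mul_one, val_two_pow h2 3] at this
      exact this
    rw [map_div₀, h4, h2, ← exp_sub, ← exp_zero, exp_lt_exp]
    norm_num

end val

section

variable {k L : Type} [Field k] [NumberField k] [Field L] [NumberField L] [Algebra k L]

/-- the data for the local lemmas -/
lemma local_data (w : HeightOneSpectrum (𝓞 L)) (hw : (2 : 𝓞 L) ∈ w.asIdeal)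
    (hunr : (2 : 𝓞 L) ∉ w.asIdeal ^ 2) [Algebra k (w.adicCompletion L)]
    (hk : ∀ x : k, algebraMap k (w.adicCompletion L) x =
      algebraMap L (w.adicCompletion L) (algebraMap k L x)) :
    Valued.v (2 : w.adicCompletion L) = exp (-1 : ℤ) ∧
    (∀ x : k, Valued.v (algebraMap k (w.adicCompletion L) x) = (below k w).valuation k x) ∧
    (∀ x : k, Valued.v (algebraMap k (w.adicCompletion L) x) ≤ 1 →
      ∃ s : k, Valued.v (algebraMap k (w.adicCompletion L) (x - s ^ 2)) < 1) := by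
  have hv2 := val_two_of_unram hw hunr
  have e2 : Valued.v (2 : w.adicCompletion L) = exp (-1 : ℤ) := by
    rw [valued_ofNat w 2]; exact hv2
  have hkv : ∀ x : k, Valued.v (algebraMap k (w.adicCompletion L) x) =
      (below k w).valuation k x := fun x => by
    rw [hk, valued_algebraMap, val_eq w hw hunr]
  have h2k : (2 : 𝓞 k) ∈ (below k w).asIdeal := by
    rw [mem_below, map_ofNat]
    exact hw
  refine ⟨e2, hkv, ?_⟩
  intro x hx
  rw [hkv] at hx
  obtain ⟨s, hs⟩ := perf (below k w) h2k x hx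
  exact ⟨s, by rw [hkv]; exact hs⟩

/-- The local form at the primes above `π`. -/
theorem kap_P {π : 𝓞 k} (hπ : π ^ 2 - π + 2 = 0) (w : HeightOneSpectrum (𝓞 L))
    (hw : (2 : 𝓞 L) ∈ w.asIdeal) (hunr : (2 : 𝓞 L) ∉ w.asIdeal ^ 2)
    (hπw : algebraMap (𝓞 k) (𝓞 L) π ∈ w.asIdeal) {d : L} (hd : d ≠ 0)
    (H : QPt (algebraMap L (w.adicCompletion L) (algebraMap k L (π : k)))
      (algebraMap L (w.adicCompletion L) (algebraMap k L ((1 : 𝓞 k) : k)))
      (algebraMap L (w.adicCompletion L) d)) : KapR k (w.valuation L) d := by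
  have hv2 := val_two_of_unram hw hunr
  letI : Algebra k (w.adicCompletion L) :=
    ((algebraMap L (w.adicCompletion L)).comp (algebraMap k L)).toAlgebra
  haveI hST : IsScalarTower k L (w.adicCompletion L) := IsScalarTower.of_algebraMap_eq fun x => rfl
  apply kapR_descend w hv2
  obtain ⟨e2, hkv, hP⟩ := local_data (k := k) w hw hunr (fun x => rfl)
  have hd' : algebraMap L (w.adicCompletion L) d ≠ 0 := by
    rw [Ne, map_eq_zero]
    exact hd
  have hπk : (π : k) ^ 2 - (π : k) + 2 = 0 := by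
    have := congrArg (algebraMap (𝓞 k) k) hπ
    rwa [map_add, map_sub, map_pow, map_ofNat, map_zero] at this
  set ν := (below k w).valuation k with hν
  have h2k : ν 2 = exp (-1 : ℤ) := by rw [← hkv, map_ofNat]; exact e2
  have hlt : ν (π : k) < 1 := ((below k w).valuation_lt_one_iff_mem (K := k) π).mpr hπw
  obtain ⟨v1, v2, v3, v4⟩ := vals_P h2k hπk hlt
  have h20 : (2 : k) ≠ 0 := by
    intro h0
    rw [h0, map_zero] at h2k
    exact exp_ne_zero h2k.symm
  have h40 : (4 : k) ≠ 0 := by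
    have : (4 : k) = 2 ^ 2 := by norm_num
    rw [this]; exact pow_ne_zero 2 h20
  have h320 : (32 : k) ≠ 0 := by
    have : (32 : k) = 2 ^ 5 := by norm_num
    rw [this]; exact pow_ne_zero 5 h20
  refine kapR_a e2 hP (A := (π : k)) (B := 1) (s := 1) (n1 := -((π : k) + 2) / 4) (c := 0)
    (C' := (4 - (π : k) ^ 2) / 32) (r := 1) ?_ ?_ ?_ ?_ ?_ ?_ ?_ ?_ ?_ ?_ hd' ?_
  · rw [hkv]; exact pi_val h2k hπk hlt
  · rw [hkv, mul_one, v1, exp_le_exp]; norm_num
  · rw [map_one, map_one]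
  · rw [hkv]; exact v2.le
  · rw [map_zero, map_zero]; exact zero_le
  · rw [hkv, v3]
  · field_simp; ring
  · field_simp; ring
  · rw [map_one, map_one]
  · rw [hkv]
    have e : (1 : k) ^ 3 + 2 * (0 / 1 ^ 2 - -((π : k) + 2) / 4) * 1 ^ 2 +
        ((0 / 1 ^ 2 - -((π : k) + 2) / 4) ^ 2 + 0 / 1 ^ 2) * 1 +
        -(0 / 1 ^ 2 * (-((π : k) + 2) / 4) + (4 - (π : k) ^ 2) / 32 / 1 ^ 4) =
        (1 - (4 - (π : k) ^ 2) / 32) + (-((π : k) + 2) / 4) * (-2 + (-((π : k) + 2) / 4)) := by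
      ring
    rw [e]
    refine V_add_lt v4 ?_
    rw [mul_comm]
    refine V_mul_lt (V_add_le ?_ v2.le) v2
    rw [Valuation.map_neg, h2k, ← exp_zero, exp_le_exp]
    norm_num
  · have e1 : algebraMap k (w.adicCompletion L) 1 =
        algebraMap L (w.adicCompletion L) (algebraMap k L ((1 : 𝓞 k) : k)) := by
      have : ((1 : 𝓞 k) : k) = 1 := map_one (algebraMap (𝓞 k) k)
      rw [this]
      rfl
    rw [e1]
    exact H

/-- The local form of the isogenous curve at the primes above `1 - π`. -/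
theorem kap_Q {π : 𝓞 k} (hπ : π ^ 2 - π + 2 = 0) (w : HeightOneSpectrum (𝓞 L))
    (hw : (2 : 𝓞 L) ∈ w.asIdeal) (hunr : (2 : 𝓞 L) ∉ w.asIdeal ^ 2)
    (hπw : algebraMap (𝓞 k) (𝓞 L) (1 - π) ∈ w.asIdeal) {d : L} (hd : d ≠ 0)
    (H : QPt (algebraMap L (w.adicCompletion L) (algebraMap k L ((-2 * π : 𝓞 k) : k)))
      (algebraMap L (w.adicCompletion L) (algebraMap k L ((π ^ 2 - 4 * 1 : 𝓞 k) : k)))
      (algebraMap L (w.adicCompletion L) d)) : KapR k (w.valuation L) d := by
  have hv2 := val_two_of_unram hw hunr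
  letI : Algebra k (w.adicCompletion L) :=
    ((algebraMap L (w.adicCompletion L)).comp (algebraMap k L)).toAlgebra
  haveI hST : IsScalarTower k L (w.adicCompletion L) := IsScalarTower.of_algebraMap_eq fun x => rfl
  apply kapR_descend w hv2
  obtain ⟨e2, hkv, hP⟩ := local_data (k := k) w hw hunr (fun x => rfl)
  have hd' : algebraMap L (w.adicCompletion L) d ≠ 0 := by
    rw [Ne, map_eq_zero]
    exact hd
  have hπk : (π : k) ^ 2 - (π : k) + 2 = 0 := by
    have := congrArg (algebraMap (𝓞 k) k) hπ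
    rwa [map_add, map_sub, map_pow, map_ofNat, map_zero] at this
  set ν := (below k w).valuation k with hν
  have h2k : ν 2 = exp (-1 : ℤ) := by rw [← hkv, map_ofNat]; exact e2
  have hlt : ν (1 - (π : k)) < 1 := by
    have h1 := ((below k w).valuation_lt_one_iff_mem (K := k) (1 - π)).mpr hπw
    change (below k w).valuation k (algebraMap (𝓞 k) k (1 - π)) < 1 at h1
    rw [map_sub, map_one] at h1
    exact h1
  obtain ⟨v1, v2, v3⟩ := vals_Q h2k hπk hlt
  have h20 : (2 : k) ≠ 0 := by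
    intro h0
    rw [h0, map_zero] at h2k
    exact exp_ne_zero h2k.symm
  have h16 : ν (16 : k) = exp (-4 : ℤ) := by
    have := val_two_pow h2k 4
    norm_num at this ⊢
    exact this
  refine kapR_a e2 hP (A := -2 * (π : k)) (B := (π : k) ^ 2 - 4) (s := 1)
    (n1 := ((π : k) - 1) / 2) (c := 1) (C' := -1) (r := 0) ?_ ?_ ?_ ?_ ?_ ?_ ?_ ?_ ?_ ?_ hd' ?_
  · rw [hkv, map_mul, Valuation.map_neg, h2k, v1, mul_one]
  · rw [hkv]
    have e : (-2 * (π : k)) ^ 2 - 4 * ((π : k) ^ 2 - 4) = 16 := by ring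
    rw [e, h16]
  · rw [map_one, map_one]
  · rw [hkv, v2]
  · rw [map_one, map_one]
  · rw [map_neg, map_one, Valuation.map_neg, map_one]
  · field_simp; ring
  · ring
  · rw [map_zero, map_zero]; exact zero_le
  · rw [hkv]
    have e : (0 : k) ^ 3 + 2 * (1 / 1 ^ 2 - ((π : k) - 1) / 2) * 0 ^ 2 +
        ((1 / 1 ^ 2 - ((π : k) - 1) / 2) ^ 2 + 1 / 1 ^ 2) * 0 +
        -(1 / 1 ^ 2 * (((π : k) - 1) / 2) + -1 / 1 ^ 4) = (3 - (π : k)) / 2 := by
      field_simp
      ring
    rw [e]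
    exact v3
  · have e1 : algebraMap k (w.adicCompletion L) (-2 * (π : k)) =
        algebraMap L (w.adicCompletion L) (algebraMap k L ((-2 * π : 𝓞 k) : k)) := by
      have : ((-2 * π : 𝓞 k) : k) = -2 * (π : k) := by
        change algebraMap (𝓞 k) k (-2 * π) = -2 * algebraMap (𝓞 k) k π
        rw [map_mul, map_neg, map_ofNat]
      rw [this]
      rfl
    have e3 : algebraMap k (w.adicCompletion L) ((π : k) ^ 2 - 4) =
        algebraMap L (w.adicCompletion L) (algebraMap k L ((π ^ 2 - 4 * 1 : 𝓞 k) : k)) := by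
      have : ((π ^ 2 - 4 * 1 : 𝓞 k) : k) = (π : k) ^ 2 - 4 := by
        change algebraMap (𝓞 k) k (π ^ 2 - 4 * 1) = (algebraMap (𝓞 k) k π) ^ 2 - 4
        rw [map_sub, map_pow, mul_one, map_ofNat]
      rw [this]
      rfl
    rw [e1, e3]
    exact H

end

end H5IM
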