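import Pool.Agent.H5.IM.XG
import Pool.Agent.H5.IM.XB
import Pool.Agent.H5.IM.XD1
import Pool.Agent.H5.IM.XD2
import Pool.Agent.H5.IM.XE
import Pool.Agent.H5.IM.XF

/-!
# MP_78d38b: the descent over `ℚ(√-7)`
-/

set_option autoImplicit false
set_option linter.style.haveILetI false
open scoped Classical

open NumberField IsDedekindDomain WithZero WeierstrassCurve Pool.Agent.H10 H73IS H68IM H68QS

namespace H5IM

section

variable {k : Type} [Field k] [NumberField k] [Algebra.IsQuadraticExtension ℚ k] {π : 𝓞 k}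

omit [Algebra.IsQuadraticExtension ℚ k] in
lemma pi_coe (hπ : π ^ 2 - π + 2 = 0) : (π : k) ^ 2 - (π : k) + 2 = 0 := by
  have := congrArg (algebraMap (𝓞 k) k) hπ
  rwa [map_add, map_sub, map_pow, map_ofNat, map_zero] at this

lemma conj_pi (hπ : π ^ 2 - π + 2 = 0) : ∃ s : k ≃ₐ[ℚ] k, s (π : k) = 1 - (π : k) := by
  obtain ⟨s, hss, hN, hfix⟩ := exists_invol (L := ℚ) (L2 := k)
  have h := pi_coe hπ
  refine ⟨s, ?_⟩
  have h1 : (s (π : k)) ^ 2 - s (π : k) + 2 = 0 := by
    have := congrArg s h
    rwa [map_add, map_sub, map_pow, map_ofNat, map_zero] at this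
  have h2 : (s (π : k) - (π : k)) * (s (π : k) - (1 - (π : k))) = 0 := by
    linear_combination h1 - h
  rcases mul_eq_zero.mp h2 with h3 | h3
  · exfalso
    obtain ⟨y, hy⟩ := hfix (π : k) (sub_eq_zero.mp h3)
    rw [← hy] at h
    have h4 : algebraMap ℚ k (y ^ 2 - y + 2) = 0 := by
      rw [map_add, map_sub, map_pow, map_ofNat]
      exact h
    rw [map_eq_zero] at h4
    nlinarith [sq_nonneg (2 * y - 1)]
  · exact sub_eq_zero.mp h3

/-- The other prime above two. -/
lemma other_prime (hπ : π ^ 2 - π + 2 = 0) (v : HeightOneSpectrum (𝓞 k))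
    (h2 : (2 : 𝓞 k) ∈ v.asIdeal) : ∃ v' : HeightOneSpectrum (𝓞 k), (2 : 𝓞 k) ∈ v'.asIdeal ∧
      (π ∈ v.asIdeal ↔ 1 - π ∈ v'.asIdeal) ∧ (1 - π ∈ v.asIdeal ↔ π ∈ v'.asIdeal) := by
  obtain ⟨s, hs⟩ := conj_pi hπ
  obtain ⟨v', hv', -⟩ := exists_conj s v
  have h1 : ((1 - π : 𝓞 k) : k) = 1 - (π : k) := by
    change algebraMap (𝓞 k) k (1 - π) = _
    rw [map_sub, map_one]
  have e2 : ((2 : 𝓞 k) : k) = 2 := map_ofNat (algebraMap (𝓞 k) k) 2
  have key : ∀ x y : 𝓞 k, (y : k) = s x → (x ∈ v'.asIdeal ↔ y ∈ v.asIdeal) := by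
    intro x y hxy
    rw [← v'.valuation_lt_one_iff_mem (K := k), ← v.valuation_lt_one_iff_mem (K := k)]
    change v'.valuation k (x : k) < 1 ↔ v.valuation k (y : k) < 1
    rw [hxy, hv']
  refine ⟨v', ?_, ?_, ?_⟩
  · refine (key 2 2 ?_).mpr h2
    rw [e2, map_ofNat]
  · refine (key (1 - π) π ?_).symm
    rw [h1, map_sub, map_one, hs]
    ring
  · exact (key π (1 - π) (by rw [h1, hs])).symm

omit [Algebra.IsQuadraticExtension ℚ k] in
lemma pi_or (hπ : π ^ 2 - π + 2 = 0) (v : HeightOneSpectrum (𝓞 k))
    (h2 : (2 : 𝓞 k) ∈ v.asIdeal) : π ∈ v.asIdeal ∨ 1 - π ∈ v.asIdeal := by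
  apply v.isPrime.mem_or_mem
  have e : π * (1 - π) = 2 := by linear_combination -hπ
  rw [e]
  exact h2

omit [Algebra.IsQuadraticExtension ℚ k] in
lemma not_both (v : HeightOneSpectrum (𝓞 k)) (h1 : π ∈ v.asIdeal) (h2 : 1 - π ∈ v.asIdeal) :
    False := by
  apply v.isPrime.ne_top
  rw [Ideal.eq_top_iff_one]
  have := v.asIdeal.add_mem h1 h2
  rwa [add_sub_cancel] at this

/-- The residue field at a prime above two has two elements. -/
lemma res_seven (hπ : π ^ 2 - π + 2 = 0) (v : HeightOneSpectrum (𝓞 k))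
    (h2 : (2 : 𝓞 k) ∈ v.asIdeal) (x : 𝓞 k) : x ∈ v.asIdeal ∨ x - 1 ∈ v.asIdeal := by
  obtain ⟨v', h2', hv'1, hv'2⟩ := other_prime hπ v h2
  have hne : v.asIdeal ≠ v'.asIdeal := by
    intro h
    rcases pi_or hπ v h2 with h1 | h1
    · exact not_both v h1 (h ▸ (hv'1.mp h1))
    · exact not_both v (h ▸ (hv'2.mp h1)) h1
  have hle : Ideal.span {(2 : 𝓞 k)} ≤ v.asIdeal * v'.asIdeal := by
    have hco : IsCoprime v.asIdeal v'.asIdeal := by
      have h1 := v.isMaximal
      have h2 := v'.isMaximal
      exact Ideal.isCoprime_of_isMaximal hne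
    rw [Ideal.span_singleton_le_iff_mem, Ideal.mul_eq_inf_of_isCoprime hco]
    exact ⟨h2, h2'⟩
  have hdvd := Ideal.absNorm_dvd_absNorm_of_le hle
  have h4 : Ideal.absNorm (Ideal.span {(2 : 𝓞 k)}) = 4 := by
    rw [Ideal.absNorm_span_singleton]
    have : (2 : 𝓞 k) = algebraMap ℤ (𝓞 k) 2 := by simp
    rw [this, Algebra.norm_algebraMap, RingOfIntegers.rank,
      Algebra.IsQuadraticExtension.finrank_eq_two]
    norm_num
  rw [map_mul, h4] at hdvd
  have n1 : Ideal.absNorm v.asIdeal ≠ 1 := fun h => v.isPrime.ne_top (Ideal.absNorm_eq_one_iff.mp h)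
  have n1' : Ideal.absNorm v'.asIdeal ≠ 1 := fun h =>
    v'.isPrime.ne_top (Ideal.absNorm_eq_one_iff.mp h)
  have hc : Ideal.absNorm v.asIdeal = 2 := by
    have hle4 := Nat.le_of_dvd (by norm_num) hdvd
    have m1 : Ideal.absNorm v.asIdeal ≠ 0 := by
      rw [Ne, Ideal.absNorm_eq_zero_iff]; exact v.ne_bot
    have m1' : Ideal.absNorm v'.asIdeal ≠ 0 := by
      rw [Ne, Ideal.absNorm_eq_zero_iff]; exact v'.ne_bot
    have a1 : 2 ≤ Ideal.absNorm v.asIdeal := by omega
    have a2 : 2 ≤ Ideal.absNorm v'.asIdeal := by omega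
    nlinarith
  have hcard : Nat.card (𝓞 k ⧸ v.asIdeal) = 2 := by
    rw [← hc, Ideal.absNorm_apply, Submodule.cardQuot_apply]
  haveI : Finite (𝓞 k ⧸ v.asIdeal) := Nat.finite_of_card_ne_zero (by rw [hcard]; norm_num)
  haveI := Fintype.ofFinite (𝓞 k ⧸ v.asIdeal)
  haveI : Nontrivial (𝓞 k ⧸ v.asIdeal) := Ideal.Quotient.nontrivial_iff.mpr v.isPrime.ne_top
  have hF : Fintype.card (𝓞 k ⧸ v.asIdeal) = 2 := by rw [← Nat.card_eq_fintype_card]; exact hcard
  have huniv : (Finset.univ : Finset (𝓞 k ⧸ v.asIdeal)) = {0, 1} := by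
    symm
    rw [Finset.eq_univ_iff_forall]
    have h5 : ({0, 1} : Finset (𝓞 k ⧸ v.asIdeal)).card = Fintype.card (𝓞 k ⧸ v.asIdeal) := by
      rw [hF, Finset.card_pair zero_ne_one]
    exact fun y => by
      rw [(Finset.card_eq_iff_eq_univ _).mp h5]
      exact Finset.mem_univ y
  have hx : Ideal.Quotient.mk v.asIdeal x ∈ (Finset.univ : Finset (𝓞 k ⧸ v.asIdeal)) :=
    Finset.mem_univ _
  rw [huniv, Finset.mem_insert, Finset.mem_singleton] at hx
  rcases hx with hx | hx
  · left
    exact Ideal.Quotient.eq_zero_iff_mem.mp hx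
  · right
    rw [← Ideal.Quotient.eq_zero_iff_mem, map_sub, hx, map_one, sub_self]

/-- Local data at the prime above two which contains `π`. -/
lemma loc_seven (hπ : π ^ 2 - π + 2 = 0) (v : HeightOneSpectrum (𝓞 k)) (hv : π ∈ v.asIdeal) :
    Valued.v (2 : v.adicCompletion k) = exp (-1 : ℤ) ∧
    (∀ x : v.adicCompletion k, Valued.v x ≤ 1 → Valued.v x < 1 ∨ Valued.v (x - 1) < 1) ∧
    (algebraMap k (v.adicCompletion k) (π : k)) ^ 2 - algebraMap k (v.adicCompletion k) (π : k) +
      2 = 0 ∧
    Valued.v (algebraMap k (v.adicCompletion k) (π : k)) < 1 := by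
  have h2 : (2 : 𝓞 k) ∈ v.asIdeal := by
    have e : (2 : 𝓞 k) = π * (1 - π) := by linear_combination hπ
    rw [e]
    exact Ideal.mul_mem_right _ _ hv
  refine ⟨?_, ?_, ?_, ?_⟩
  · rw [valued_ofNat v 2]
    exact val_two_of_unram h2 (unr_seven hπ v h2)
  · intro x hx
    obtain ⟨x', hx'⟩ := exists_close v x 0
    rw [exp_zero] at hx'
    have hx1 : v.valuation k x' ≤ 1 := by
      rw [← valued_algebraMap]
      have : algebraMap k (v.adicCompletion k) x' =
          (algebraMap k (v.adicCompletion k) x' - x) + x := by ring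
      rw [this]
      exact V_add_le hx'.le hx
    obtain ⟨y, hy⟩ := int_close v x' hx1
    have hy' : Valued.v (algebraMap k (v.adicCompletion k) x' -
        algebraMap k (v.adicCompletion k) (y : k)) < 1 := by
      rw [← map_sub, valued_algebraMap]
      exact hy
    have hxy : Valued.v (x - algebraMap k (v.adicCompletion k) (y : k)) < 1 := by
      have : x - algebraMap k (v.adicCompletion k) (y : k) =
          (algebraMap k (v.adicCompletion k) x' - algebraMap k (v.adicCompletion k) (y : k)) -
          (algebraMap k (v.adicCompletion k) x' - x) := by ring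
      rw [this]
      exact V_sub_lt hy' hx'
    rcases res_seven hπ v h2 y with h | h
    · left
      have h1 : Valued.v (algebraMap k (v.adicCompletion k) (y : k)) < 1 := by
        rw [valued_algebraMap]
        exact (v.valuation_lt_one_iff_mem (K := k) y).mpr h
      have : x = (x - algebraMap k (v.adicCompletion k) (y : k)) +
        algebraMap k (v.adicCompletion k) (y : k) := by ring
      rw [this]
      exact V_add_lt hxy h1
    · right
      have h1 : Valued.v (algebraMap k (v.adicCompletion k) (y : k) - 1) < 1 := by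
        have h3 := (v.valuation_lt_one_iff_mem (K := k) (y - 1)).mpr h
        have h4 : algebraMap k (v.adicCompletion k) (y : k) - 1 =
            algebraMap k (v.adicCompletion k) (algebraMap (𝓞 k) k (y - 1)) := by
          rw [map_sub, map_sub, map_one, map_one]
        rw [h4, valued_algebraMap]
        exact h3
      have : x - 1 = (x - algebraMap k (v.adicCompletion k) (y : k)) +
        (algebraMap k (v.adicCompletion k) (y : k) - 1) := by ring
      rw [this]
      exact V_add_lt hxy h1
  · have := congrArg (algebraMap k (v.adicCompletion k)) (pi_coe hπ)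
    rwa [map_add, map_sub, map_pow, map_ofNat, map_zero] at this
  · rw [valued_algebraMap]
    exact (v.valuation_lt_one_iff_mem (K := k) π).mpr hv

lemma exists_P (hπ : π ^ 2 - π + 2 = 0) : ∃ v : HeightOneSpectrum (𝓞 k), π ∈ v.asIdeal := by
  obtain ⟨v, hv⟩ : ∃ v : HeightOneSpectrum (𝓞 k), (2 : 𝓞 k) ∈ v.asIdeal := by
    obtain ⟨P, hP, h2⟩ := exists_max_ideal_of_mem_nonunits (a := (2 : 𝓞 k)) (by
      intro h
      have h1 := (NumberField.isUnit_iff_norm).mp h
      have h2 : Algebra.norm ℚ ((2 : 𝓞 k) : k) = 2 ^ Module.finrank ℚ k := by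
        have e : ((2 : 𝓞 k) : k) = algebraMap ℚ k 2 := by
          rw [map_ofNat]; exact map_ofNat (algebraMap (𝓞 k) k) 2
        rw [e, Algebra.norm_algebraMap]
      rw [RingOfIntegers.coe_norm, h2, abs_of_pos (by positivity)] at h1
      have h3 : (1 : ℚ) < 2 ^ Module.finrank ℚ k := one_lt_pow₀ (by norm_num) Module.finrank_pos.ne'
      linarith)
    refine ⟨⟨P, hP.isPrime, ?_⟩, h2⟩
    rintro rfl
    exact two_ne_zero ((Ideal.mem_bot).mp h2)
  rcases pi_or hπ v hv with h | h
  · exact ⟨v, h⟩
  · obtain ⟨v', -, -, h3⟩ := other_prime hπ v hv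
    exact ⟨v', h3.mp h⟩

/-- The Selmer groups over `ℚ(√-7)`. -/
theorem sel_seven (hπ : π ^ 2 - π + 2 = 0) : SelPt k (π : k) 1 (-1) := by
  constructor
  · intro d hd hF _
    have hev : ∀ v : HeightOneSpectrum (𝓞 k), Even (log (v.valuation k d)) := by
      intro v
      rw [← valued_algebraMap]
      refine even_of_qpt Valued.v (a := algebraMap k (v.adicCompletion k) (π : k))
        (b := algebraMap k (v.adicCompletion k) 1) ?_ ?_ ?_ (hF v)
      · rw [valued_algebraMap]
        exact v.valuation_le_one π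
      · rw [map_one, map_one]
      · rw [Ne, map_eq_zero]
        exact hd
    rcases even_seven hπ hd hev with h | h
    · exact Or.inl h
    · right
      rwa [neg_one_mul]
  · intro d hd hF _
    have hπk := pi_coe hπ
    have hπ0 : (π : k) ≠ 0 := by
      intro h0
      rw [h0] at hπk
      norm_num at hπk
    have hdisc := disc_eq hπk
    have hb' : (π : k) ^ 2 - 4 * 1 = -(π : k) ^ 5 := by rw [mul_one]; exact hdisc
    obtain ⟨v, hv⟩ := exists_P hπ
    obtain ⟨l1, l2, l3, l4⟩ := loc_seven hπ v hv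
    -- the form of the equation at `v`
    have Hv := hF v
    have ea : algebraMap k (v.adicCompletion k) (-2 * (π : k)) =
        -2 * algebraMap k (v.adicCompletion k) (π : k) := by
      rw [map_mul, map_neg, map_ofNat]
    have eb : algebraMap k (v.adicCompletion k) ((π : k) ^ 2 - 4 * 1) =
        (algebraMap k (v.adicCompletion k) (π : k)) ^ 2 - 4 := by
      rw [map_sub, map_pow, mul_one, map_ofNat]
    rw [ea, eb] at Hv
    have hinj : ∀ x : k, x ≠ 0 → algebraMap k (v.adicCompletion k) x ≠ 0 := fun x hx => by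
      rw [Ne, map_eq_zero]; exact hx
    -- primes not containing `π`
    have hgood : ∀ w : HeightOneSpectrum (𝓞 k), π ∉ w.asIdeal → Even (log (w.valuation k d)) := by
      intro w hw
      rw [← valued_algebraMap]
      have hw1 : w.valuation k (π : k) = 1 := (w.valuation_eq_one_iff_notMem (K := k)).mpr hw
      refine even_of_qpt Valued.v (a := algebraMap k (w.adicCompletion k) (-2 * (π : k)))
        (b := algebraMap k (w.adicCompletion k) ((π : k) ^ 2 - 4 * 1)) ?_ ?_ ?_ (hF w)
      · rw [valued_algebraMap]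
        have e : -2 * (π : k) = algebraMap (𝓞 k) k (-2 * π) := by
          rw [map_mul, map_neg, map_ofNat]
        rw [e]
        exact w.valuation_le_one _
      · rw [valued_algebraMap, hb', Valuation.map_neg, map_pow, hw1, one_pow]
      · rw [Ne, map_eq_zero]
        exact hd
    have huniq : ∀ w : HeightOneSpectrum (𝓞 k), π ∈ w.asIdeal →
        w.valuation k (π : k) = exp (-1 : ℤ) := by
      intro w hw
      obtain ⟨m1, m2, m3, m4⟩ := loc_seven hπ w hw
      rw [← valued_algebraMap]
      exact pi_val m1 m3 m4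
    -- the only prime containing `π`
    have honly : ∀ w : HeightOneSpectrum (𝓞 k), π ∈ w.asIdeal → w = v := by
      intro w hw
      have hmem : ∀ (u : HeightOneSpectrum (𝓞 k)), π ∈ u.asIdeal → ∀ x : 𝓞 k, x ∈ u.asIdeal →
          x ∈ Ideal.span {π} ⊔ u.asIdeal := fun u _ x hx => Ideal.mem_sup_right hx
      by_contra hne
      have hco : IsCoprime w.asIdeal v.asIdeal := by
        have h1 := w.isMaximal
        have h2 := v.isMaximal
        exact Ideal.isCoprime_of_isMaximal (fun h => hne (HeightOneSpectrum.ext h))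
      have h1 : π ∈ w.asIdeal * v.asIdeal := by
        rw [Ideal.mul_eq_inf_of_isCoprime hco]
        exact ⟨hw, hv⟩
      have hle : Ideal.span {π} ≤ w.asIdeal * v.asIdeal :=
        (Ideal.span_singleton_le_iff_mem _).mpr h1
      obtain ⟨s, hs⟩ := conj_pi hπ
      -- norms
      have hN : Ideal.absNorm (Ideal.span {π}) * Ideal.absNorm (Ideal.span {1 - π}) = 4 := by
        rw [← map_mul, Ideal.span_singleton_mul_span_singleton]
        have e : π * (1 - π) = 2 := by linear_combination -hπ
        rw [e, Ideal.absNorm_span_singleton]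
        have : (2 : 𝓞 k) = algebraMap ℤ (𝓞 k) 2 := by simp
        rw [this, Algebra.norm_algebraMap, RingOfIntegers.rank,
          Algebra.IsQuadraticExtension.finrank_eq_two]
        norm_num
      have hd1 := Ideal.absNorm_dvd_absNorm_of_le hle
      rw [map_mul] at hd1
      obtain ⟨v', -, hv'1, -⟩ := other_prime hπ v (by
        have e : (2 : 𝓞 k) = π * (1 - π) := by linear_combination hπ
        rw [e]
        exact Ideal.mul_mem_right _ _ hv)
      have hd2 : Ideal.absNorm v'.asIdeal ∣ Ideal.absNorm (Ideal.span {1 - π}) :=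
        Ideal.absNorm_dvd_absNorm_of_le
          ((Ideal.span_singleton_le_iff_mem _).mpr (hv'1.mp hv))
      have hge : ∀ u : HeightOneSpectrum (𝓞 k), 2 ≤ Ideal.absNorm u.asIdeal := by
        intro u
        have n1 : Ideal.absNorm u.asIdeal ≠ 1 := fun h =>
          u.isPrime.ne_top (Ideal.absNorm_eq_one_iff.mp h)
        have n0 : Ideal.absNorm u.asIdeal ≠ 0 := by
          rw [Ne, Ideal.absNorm_eq_zero_iff]; exact u.ne_bot
        omega
      have hall := mul_dvd_mul hd1 hd2
      rw [hN] at hall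
      have h5 := Nat.le_of_dvd (by norm_num) hall
      have a1 := hge w
      have a2 := hge v
      have a3 := hge v'
      have a4 : 4 ≤ Ideal.absNorm w.asIdeal * Ideal.absNorm v.asIdeal := by nlinarith
      nlinarith
    rcases Int.even_or_odd (log (v.valuation k d)) with hev | hod
    · have hall : ∀ w : HeightOneSpectrum (𝓞 k), Even (log (w.valuation k d)) := by
        intro w
        by_cases hw : π ∈ w.asIdeal
        · rw [honly w hw]; exact hev
        · exact hgood w hw
      rcases even_seven hπ hd hall with h | h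
      · exact Or.inl h
      · exfalso
        obtain ⟨c, hc⟩ := h
        have hc0 : c ≠ 0 := by
          rintro rfl
          rw [mul_zero, neg_eq_zero] at hc
          exact hd hc
        have e : algebraMap k (v.adicCompletion k) d =
            (-1) * (algebraMap k (v.adicCompletion k) c) ^ 2 := by
          rw [← map_pow, neg_one_mul, ← map_neg, pow_two, ← hc, neg_neg]
        rw [e, QPt.sq_mul (hinj c hc0)] at Hv
        exact insol_neg l1 l2 l3 l4 Hv
    · have hall : ∀ w : HeightOneSpectrum (𝓞 k), Even (log (w.valuation k ((π : k) * d))) := by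
        intro w
        rw [map_mul, log_mul ((Valuation.ne_zero_iff _).mpr hπ0) ((Valuation.ne_zero_iff _).mpr hd)]
        by_cases hw : π ∈ w.asIdeal
        · rw [huniq w hw, honly w hw, log_exp]
          exact Odd.add_odd (by decide) hod
        · have hw1 : w.valuation k (π : k) = 1 := (w.valuation_eq_one_iff_notMem (K := k)).mpr hw
          rw [hw1, log_one, zero_add]
          exact hgood w hw
      rcases even_seven hπ (mul_ne_zero hπ0 hd) hall with h | h
      · exfalso
        obtain ⟨c, hc⟩ := h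
        have hc0 : c ≠ 0 := by
          rintro rfl
          rw [mul_zero] at hc
          exact mul_ne_zero hπ0 hd hc
        have e : algebraMap k (v.adicCompletion k) d =
            (algebraMap k (v.adicCompletion k) (π : k)) *
              (algebraMap k (v.adicCompletion k) (c / (π : k))) ^ 2 := by
          rw [← map_pow, ← map_mul]
          congr 1
          field_simp
          linear_combination hc
        rw [e, QPt.sq_mul (hinj _ (div_ne_zero hc0 hπ0))] at Hv
        exact insol_pi l1 l2 l3 l4 Hv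
      · right
        obtain ⟨c, hc⟩ := h
        refine ⟨(π : k) ^ 2 * c, ?_⟩
        rw [hb']
        linear_combination (π : k) ^ 4 * hc

end

end H5IM
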