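import Pool.Agent.H5.IM.XH
import Pool.Agent.H5.IM.XC

/-!
# MP_78d38b: the example over `ℚ(√-7)`
-/

set_option autoImplicit false
set_option linter.style.haveILetI false
open scoped Classical

open NumberField IsDedekindDomain WithZero WeierstrassCurve Pool.Agent.H10 H5SW H73IS H68IM H68QS

namespace H5IM

section

variable {k : Type} [Field k] [NumberField k] [Algebra.IsQuadraticExtension ℚ k] {π : 𝓞 k}

lemma tw_seven (hπ : π ^ 2 - π + 2 = 0) :
    IsTw (⟨0, (π : k), 0, 1, 0⟩ : WeierstrassCurve k) (π : k) 1 := by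
  have hπk := pi_coe hπ
  have hπ0 : (π : k) ≠ 0 := by
    intro h0
    rw [h0] at hπk
    norm_num at hπk
  refine ⟨rfl, rfl, rfl, rfl, rfl, one_ne_zero, ?_, two_ne_zero⟩
  rw [mul_one, disc_eq hπk]
  exact neg_ne_zero.mpr (pow_ne_zero 5 hπ0)

lemma ns_seven (hπ : π ^ 2 - π + 2 = 0) :
    (⟨0, (π : k), 0, 1, 0⟩ : WeierstrassCurve k).toAffine.Nonsingular (-1) (π : k) := by
  have hπk := pi_coe hπ
  have hπ0 : (π : k) ≠ 0 := by
    intro h0
    rw [h0] at hπk
    norm_num at hπk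
  rw [Affine.nonsingular_iff, Affine.equation_iff]
  refine ⟨by linear_combination hπk, Or.inr ?_⟩
  intro h
  apply hπ0
  have h3 : (2 : k) * (π : k) = 0 := by linear_combination h
  exact (mul_eq_zero.mp h3).resolve_left two_ne_zero

lemma tors_seven (hπ : π ^ 2 - π + 2 = 0) :
    4 • (Affine.Point.some (-1) (π : k) (ns_seven hπ) :
      (⟨0, (π : k), 0, 1, 0⟩ : WeierstrassCurve k).toAffine.Point) = 0 := by
  have hπk := pi_coe hπ
  have hπ0 : (π : k) ≠ 0 := by
    intro h0
    rw [h0] at hπk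
    norm_num at hπk
  have h2 : (2 : k) ≠ 0 := two_ne_zero
  have hT := tw_seven hπ
  have hy : (π : k) ≠ (⟨0, (π : k), 0, 1, 0⟩ : WeierstrassCurve k).toAffine.negY (-1) (π : k) := by
    intro h
    apply hπ0
    have h3 : (2 : k) * (π : k) = 0 := by
      rw [Affine.negY] at h
      linear_combination h
    exact (mul_eq_zero.mp h3).resolve_left two_ne_zero
  have hslope : (⟨0, (π : k), 0, 1, 0⟩ : WeierstrassCurve k).toAffine.slope (-1) (-1) (π : k)
      (π : k) = -(π : k) := by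
    rw [Affine.slope_of_Y_ne rfl hy, Affine.negY]
    have hden : (π : k) - (-(π : k) - 0 * (-1) - 0) ≠ 0 := by
      have e : (π : k) - (-(π : k) - 0 * (-1) - 0) = 2 * (π : k) := by ring
      rw [e]
      exact mul_ne_zero h2 hπ0
    rw [div_eq_iff hden]
    linear_combination 2 * hπk
  have hdbl : (Affine.Point.some (-1) (π : k) (ns_seven hπ) :
      (⟨0, (π : k), 0, 1, 0⟩ : WeierstrassCurve k).toAffine.Point) +
      Affine.Point.some (-1) (π : k) (ns_seven hπ) = hT.T := by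
    rw [Affine.Point.add_self_of_Y_ne hy]
    unfold IsTw.T
    rw [Affine.Point.some.injEq]
    constructor
    · rw [hslope, Affine.addX]
      linear_combination hπk
    · rw [hslope, Affine.addY, Affine.negAddY, Affine.negY, Affine.addX]
      linear_combination ((π : k) - 0) * hπk
  have e : (4 : ℕ) = 2 * 2 := rfl
  rw [e, mul_nsmul, two_nsmul, two_nsmul, hdbl]
  exact T_add_T hT

/-- The primes of the integers of the rationals above two. -/
lemma hits_seven (hπ : π ^ 2 - π + 2 = 0) (x : 𝓞 k) (hx : x = π ∨ x = 1 - π) :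
    Hits ℚ {v : HeightOneSpectrum (𝓞 k) | x ∈ v.asIdeal} := by
  intro u hu
  obtain ⟨v, hv⟩ : ∃ v : HeightOneSpectrum (𝓞 k), x ∈ v.asIdeal := by
    obtain ⟨v, hv⟩ := exists_P hπ
    rcases hx with rfl | rfl
    · exact ⟨v, hv⟩
    · obtain ⟨v', -, h1, -⟩ := other_prime hπ v (by
        have e : (2 : 𝓞 k) = π * (1 - π) := by linear_combination hπ
        rw [e]
        exact Ideal.mul_mem_right _ _ hv)
      exact ⟨v', h1.mp hv⟩
  have h2 : (2 : 𝓞 k) ∈ v.asIdeal := by
    have e : (2 : 𝓞 k) = π * (1 - π) := by linear_combination hπ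
    rw [e]
    rcases hx with rfl | rfl
    · exact Ideal.mul_mem_right _ _ hv
    · exact Ideal.mul_mem_left _ _ hv
  refine ⟨v, hv, ?_⟩
  have h1 : u.asIdeal = (below ℚ v).asIdeal := by
    refine uniqueAbove_rat Nat.prime_two _ _ u.isPrime (below ℚ v).isPrime ?_ ?_
    · exact_mod_cast hu
    · have : (2 : 𝓞 ℚ) ∈ (below ℚ v).asIdeal := by
        rw [mem_below, map_ofNat]
        exact h2
      exact_mod_cast this
  intro y
  rw [h1]
  rfl

/-- The example: all layers of the cyclotomic `ℤ_3`-extension of `ℚ(√-7)`. -/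
theorem example_seven {L' L : Type} [Field L'] [NumberField L'] [Field L] [NumberField L]
    [Algebra k L] (hπ : π ^ 2 - π + 2 = 0) (h : L' →+* L) (hR : IsR 3 L')
    (hgen : IntermediateField.adjoin k (Set.range h) = ⊤) :
    Sha2Trivial L (⟨0, algebraMap k L π, 0, 1, 0⟩ : WeierstrassCurve L) ∧
      Finite (⟨0, algebraMap k L π, 0, 1, 0⟩ : WeierstrassCurve L).toAffine.Point := by
  have hunr : Unr2 L := unr_gen (by norm_num) (unr_seven hπ) h hR hgen
  obtain ⟨gal, odd, RP, bad⟩ := base_seven hπ h hR hgen (hits_seven hπ π (Or.inl rfl))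
  obtain ⟨-, -, RQ, -⟩ := base_seven hπ h hR hgen (hits_seven hπ (1 - π) (Or.inr rfl))
  have mem : ∀ (x : 𝓞 k) (w : HeightOneSpectrum (𝓞 L)),
      w ∈ AboveS {v : HeightOneSpectrum (𝓞 k) | x ∈ v.asIdeal} (algebraMap k L) →
      algebraMap (𝓞 k) (𝓞 L) x ∈ w.asIdeal := by
    rintro x w ⟨v, hv, hw⟩
    exact hw x hv
  have e2 : π * (1 - π) = 2 := by linear_combination -hπ
  have two : ∀ (x : 𝓞 k), (x = π ∨ x = 1 - π) → ∀ (w : HeightOneSpectrum (𝓞 L)),
      algebraMap (𝓞 k) (𝓞 L) x ∈ w.asIdeal → (2 : 𝓞 L) ∈ w.asIdeal := by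
    intro x hx w hw
    have : algebraMap (𝓞 k) (𝓞 L) (π * (1 - π)) ∈ w.asIdeal := by
      rw [map_mul]
      rcases hx with rfl | rfl
      · exact Ideal.mul_mem_right _ _ hw
      · exact Ideal.mul_mem_left _ _ hw
    rwa [e2, map_ofNat] at this
  have H : NewTrivQ k L (algebraMap k L (π : k)) (algebraMap k L ((1 : 𝓞 k) : k)) := by
    refine nq_onR (k := k) (K := k) (L := L) odd
      (fun w hw => two π (Or.inl rfl) w (mem π w hw)) RP ?_ ?_ bad hunr
    · intro w hw d hd HQ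
      have hπw := mem π w hw
      have h2w := two π (Or.inl rfl) w hπw
      exact kap_P hπ w h2w (hunr w h2w) hπw hd HQ
    · intro v hv
      exfalso
      apply v.isPrime.ne_top
      rw [Ideal.eq_top_iff_one]
      rwa [map_one] at hv
  have H' : NewTrivQ k L (algebraMap k L ((-2 * π : 𝓞 k) : k))
      (algebraMap k L ((π ^ 2 - 4 * 1 : 𝓞 k) : k)) := by
    refine nq_onR (k := k) (K := k) (L := L) odd
      (fun w hw => two (1 - π) (Or.inr rfl) w (mem (1 - π) w hw)) RQ ?_ ?_ bad hunr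
    · intro w hw d hd HQ
      have hπw := mem (1 - π) w hw
      have h2w := two (1 - π) (Or.inr rfl) w hπw
      exact kap_Q hπ w h2w (hunr w h2w) hπw hd HQ
    · intro v hv
      apply bad v
      have hv1 : π ^ 2 - 4 * 1 ∈ v.asIdeal := hv
      have e : π ^ 2 - 4 * 1 = -π ^ 5 := by
        rw [mul_one]
        linear_combination (π ^ 3 + π ^ 2 - π - 2) * hπ
      rw [e, neg_mem_iff] at hv1
      have hv2 := v.isPrime.mem_of_pow_mem _ hv1
      rw [← e2]
      exact Ideal.mul_mem_right _ _ hv2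
  have hT := tw_seven hπ
  have hV : (⟨0, (π : k), 0, 1, 0⟩ : WeierstrassCurve k).map (algebraMap k L) =
      (⟨0, algebraMap k L π, 0, 1, 0⟩ : WeierstrassCurve L) := by
    change (⟨algebraMap k L 0, algebraMap k L (π : k), algebraMap k L 0, algebraMap k L 1,
      algebraMap k L 0⟩ : WeierstrassCurve L) = _
    rw [map_zero, map_one]
  have ea : ((-2 * π : 𝓞 k) : k) = -2 * (π : k) := by
    change algebraMap (𝓞 k) k (-2 * π) = -2 * algebraMap (𝓞 k) k π
    rw [map_mul, map_neg, map_ofNat]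
  have eb : ((π ^ 2 - 4 * 1 : 𝓞 k) : k) = (π : k) ^ 2 - 4 * 1 := by
    change algebraMap (𝓞 k) k (π ^ 2 - 4 * 1) = (algebraMap (𝓞 k) k π) ^ 2 - 4 * 1
    rw [map_sub, map_pow, map_mul, map_ofNat, map_one]
  have e1 : ((1 : 𝓞 k) : k) = 1 := map_one (algebraMap (𝓞 k) k)
  rw [e1] at H
  rw [ea, eb] at H'
  haveI := gal
  exact ⟨sha2Trivial_upQ odd hT hV H H' (sha2_abs hT (ns_seven hπ) (by norm_num) (sel_seven hπ)),
    finite_upQ odd hT hV H H' (fin_abs hT (ns_seven hπ) (by norm_num) (sel_seven hπ)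
      (n := 4) (by norm_num) (tors_seven hπ))⟩

end

end H5IM
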